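import Pool.Agent.GR.Flow

/-! Analyticity of the flow of a field that agrees with a polynomial field on an open set. -/

open Set Filter Topology
open Pool.Agent.GR.Flow

namespace Pool.Agent.K300

/-- a polynomial field -/
def polyF (S : Finset (ℕ × ℕ)) (a b : ℕ × ℕ → ℝ) (p : ℝ × ℝ) : ℝ × ℝ :=
  (∑ m ∈ S, a m * (p.1 ^ m.1 * p.2 ^ m.2), ∑ m ∈ S, b m * (p.1 ^ m.1 * p.2 ^ m.2))

lemma contDiff_polyF (S : Finset (ℕ × ℕ)) (a b : ℕ × ℕ → ℝ) {n : WithTop ℕ∞} :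
    ContDiff ℝ n (polyF S a b) := by
  unfold polyF
  have h : ∀ a : ℕ × ℕ → ℝ, ContDiff ℝ n fun p : ℝ × ℝ => ∑ m ∈ S, a m * (p.1 ^ m.1 * p.2 ^ m.2) := by
    intro a
    refine ContDiff.sum fun m _ => contDiff_const.mul ((contDiff_fst.pow _).mul (contDiff_snd.pow _))
  exact (h a).prodMk (h b)

lemma continuous_polyF (S : Finset (ℕ × ℕ)) (a b : ℕ × ℕ → ℝ) : Continuous (polyF S a b) :=
  (contDiff_polyF S a b (n := 0)).continuous

/-- the Nemytskii operator of a polynomial field is analytic -/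
lemma contDiff_nem_polyF (S : Finset (ℕ × ℕ)) (a b : ℕ × ℕ → ℝ) {n : WithTop ℕ∞} :
    ContDiff ℝ n (fun β : C(unitInterval, ℝ × ℝ) =>
      (⟨polyF S a b, continuous_polyF S a b⟩ : C(ℝ × ℝ, ℝ × ℝ)).comp β) := by
  set L1 := ContinuousLinearMap.compLeftContinuous ℝ unitInterval (ContinuousLinearMap.fst ℝ ℝ ℝ)
  set L2 := ContinuousLinearMap.compLeftContinuous ℝ unitInterval (ContinuousLinearMap.snd ℝ ℝ ℝ)
  set M1 := ContinuousLinearMap.compLeftContinuous ℝ unitInterval (ContinuousLinearMap.inl ℝ ℝ ℝ)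
  set M2 := ContinuousLinearMap.compLeftContinuous ℝ unitInterval (ContinuousLinearMap.inr ℝ ℝ ℝ)
  have h : ∀ a : ℕ × ℕ → ℝ, ContDiff ℝ n fun β : C(unitInterval, ℝ × ℝ) =>
      ∑ m ∈ S, a m • ((L1 β) ^ m.1 * (L2 β) ^ m.2) := by
    intro a
    refine ContDiff.sum fun m _ => ContDiff.const_smul (a m) ?_
    exact (L1.contDiff.pow _).mul (L2.contDiff.pow _)
  have h2 : ContDiff ℝ n fun β : C(unitInterval, ℝ × ℝ) =>
      M1 (∑ m ∈ S, a m • ((L1 β) ^ m.1 * (L2 β) ^ m.2)) +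
      M2 (∑ m ∈ S, b m • ((L1 β) ^ m.1 * (L2 β) ^ m.2)) :=
    (ContDiff.comp (g := M1) M1.contDiff (h a)).add (ContDiff.comp (g := M2) M2.contDiff (h b))
  have e : (fun β : C(unitInterval, ℝ × ℝ) =>
      (⟨polyF S a b, continuous_polyF S a b⟩ : C(ℝ × ℝ, ℝ × ℝ)).comp β) =
      fun β : C(unitInterval, ℝ × ℝ) =>
      M1 (∑ m ∈ S, a m • ((L1 β) ^ m.1 * (L2 β) ^ m.2)) +
      M2 (∑ m ∈ S, b m • ((L1 β) ^ m.1 * (L2 β) ^ m.2)) := by
    ext1 β
    ext1 s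
    refine Prod.ext ?_ ?_
    · simp [polyF, L1, L2, M1, M2, Prod.fst_sum]
    · simp [polyF, L1, L2, M1, M2, Prod.snd_sum]
  rw [e]
  exact h2

variable {X : C(ℝ × ℝ, ℝ × ℝ)} {K : NNReal} {g : ℝ → ℝ × ℝ → ℝ × ℝ}

lemma contDiffAt_seg_omega (hX : ContDiff ℝ 1 X) (hK : LipschitzWith K X) (hg : IsFlowOf X g)
    (p : ℝ × (ℝ × ℝ)) (hp : |p.1| * K < 1)
    (hω : ContDiffAt ℝ ⊤ (fun α : C(unitInterval, ℝ × ℝ) => X.comp α) (seg hg p)) :
    ContDiffAt ℝ ⊤ (seg hg) p := by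
  have hm' : (⊤ : WithTop ℕ∞) ≠ 0 := by simp
  have cdf : ContDiffAt ℝ ⊤ (Phi X) (p, seg hg p) := by
    unfold Phi
    have h1 : ContDiffAt ℝ ⊤ (fun u : (ℝ × (ℝ × ℝ)) × C(unitInterval, ℝ × ℝ) => X.comp u.2)
        (p, seg hg p) :=
      ContDiffAt.comp (p, seg hg p) (g := fun α : C(unitInterval, ℝ × ℝ) => X.comp α)
        (f := fun u : (ℝ × (ℝ × ℝ)) × C(unitInterval, ℝ × ℝ) => u.2) hω contDiffAt_snd
    have h2 : ContDiffAt ℝ ⊤ (fun u : (ℝ × (ℝ × ℝ)) × C(unitInterval, ℝ × ℝ) =>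
        volt (ℝ × ℝ) (X.comp u.2)) (p, seg hg p) :=
      ContDiffAt.comp (p, seg hg p) (g := volt (ℝ × ℝ))
        (ContinuousLinearMap.contDiff _).contDiffAt h1
    have h3 : ContDiff ℝ ⊤ (fun u : (ℝ × (ℝ × ℝ)) × C(unitInterval, ℝ × ℝ) =>
        cst (ℝ × ℝ) u.1.2) :=
      ContDiff.comp (g := cst (ℝ × ℝ)) (ContinuousLinearMap.contDiff _)
        (contDiff_snd.comp contDiff_fst)
    exact (contDiffAt_snd.sub h3.contDiffAt).sub
      ((contDiff_fst.comp contDiff_fst).contDiffAt.smul h2)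
  have hinv := Phi_invertible X (m := 1) one_ne_zero (by exact_mod_cast hX) hK p hp (seg hg p)
  have h1 := cdf.contDiffAt_implicitFunction hm' hinv
  have h2 := cdf.eventually_apply_implicitFunction hm' hinv
  refine h1.congr_of_eventuallyEq ?_
  have h3 : ∀ᶠ q : ℝ × (ℝ × ℝ) in 𝓝 p, |q.1| * K < 1 :=
    ((continuous_abs.comp continuous_fst).mul continuous_const).tendsto p |>.eventually
      (gt_mem_nhds hp)
  filter_upwards [h2, h3] with q hq hq2
  rw [Phi_seg] at hq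
  exact Phi_unique X hK hq2 (Phi_seg hg q) hq

lemma contDiffAt_small_omega (hX : ContDiff ℝ 1 X) (hK : LipschitzWith K X) (hg : IsFlowOf X g)
    {S : Finset (ℕ × ℕ)} {a b : ℕ × ℕ → ℝ} {U : Set (ℝ × ℝ)} (hU : IsOpen U)
    (hF : ∀ p ∈ U, X p = polyF S a b p) (p : ℝ × (ℝ × ℝ)) (hp : |p.1| * K < 1)
    (hin : ∀ s ∈ Icc (0:ℝ) 1, g (p.1 * s) p.2 ∈ U) :
    ContDiffAt ℝ ⊤ (fun p : ℝ × (ℝ × ℝ) => g p.1 p.2) p := by
  have hω : ContDiffAt ℝ ⊤ (fun α : C(unitInterval, ℝ × ℝ) => X.comp α) (seg hg p) := by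
    refine (contDiff_nem_polyF S a b (n := ⊤)).contDiffAt.congr_of_eventuallyEq ?_
    have h1 : IsOpen {β : C(unitInterval, ℝ × ℝ) | MapsTo β univ U} :=
      ContinuousMap.isOpen_setOfPred_mapsTo isCompact_univ hU
    have h2 : seg hg p ∈ {β : C(unitInterval, ℝ × ℝ) | MapsTo β univ U} := by
      intro s _
      rw [seg_apply]
      exact hin s s.2
    filter_upwards [h1.mem_nhds h2] with β hβ
    ext1 s
    simp only [ContinuousMap.comp_apply, ContinuousMap.coe_mk]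
    exact hF _ (hβ (mem_univ s))
  have h1 := contDiffAt_seg_omega hX hK hg p hp hω
  have h2 : (fun p : ℝ × (ℝ × ℝ) => g p.1 p.2) =
      fun p => ContinuousMap.evalCLM ℝ (1 : unitInterval) (seg hg p) := by
    ext1 p
    rw [ContinuousMap.evalCLM_apply, seg_apply]
    simp
  rw [h2]
  exact ContDiffAt.comp p (g := ContinuousMap.evalCLM ℝ (1 : unitInterval))
    (ContinuousLinearMap.contDiff _).contDiffAt h1

/-- the flow is analytic at `(t, x)` if the trajectory of `x` stays, up to the time `t`, in an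
open set on which the field is polynomial -/
theorem contDiffAt_flow_omega (hX : ContDiff ℝ 1 X) (hK : LipschitzWith K X) (hg : IsFlowOf X g)
    {S : Finset (ℕ × ℕ)} {a b : ℕ × ℕ → ℝ} {U : Set (ℝ × ℝ)} (hU : IsOpen U)
    (hF : ∀ p ∈ U, X p = polyF S a b p) (p : ℝ × (ℝ × ℝ))
    (hin : ∀ s ∈ Icc (0:ℝ) 1, g (p.1 * s) p.2 ∈ U) :
    ContDiffAt ℝ ⊤ (fun p : ℝ × (ℝ × ℝ) => g p.1 p.2) p := by
  have key : ∀ n : ℕ, ∀ p : ℝ × (ℝ × ℝ), |p.1| * K < n + 1 →
      (∀ s ∈ Icc (0:ℝ) 1, g (p.1 * s) p.2 ∈ U) →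
      ContDiffAt ℝ ⊤ (fun p : ℝ × (ℝ × ℝ) => g p.1 p.2) p := by
    intro n
    induction n with
    | zero =>
      intro p hp hin
      exact contDiffAt_small_omega hX hK hg hU hF p (by simpa using hp) hin
    | succ n ih =>
      intro p hp hin
      set c : ℝ := (n + 1) / (n + 2) with hc
      set d : ℝ := 1 / (n + 2) with hd
      have hcd : c + d = 1 := by rw [hc, hd]; field_simp; ring
      have hc0 : 0 < c := by positivity
      have hd0 : 0 < d := by positivity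
      push_cast at hp
      have h1 : |p.1 * c| * K < n + 1 := by
        rw [abs_mul, abs_of_pos hc0, hc]
        have : |p.1| * ((n + 1) / (n + 2)) * (K:ℝ) = (|p.1| * K) * (n + 1) / (n + 2) := by ring
        rw [this, div_lt_iff₀ (by positivity)]
        nlinarith [n.cast_nonneg (α := ℝ)]
      have h2 : |p.1 * d| * K < 1 := by
        rw [abs_mul, abs_of_pos hd0, hd]
        have : |p.1| * (1 / (n + 2)) * (K:ℝ) = (|p.1| * K) / (n + 2) := by ring
        rw [this, div_lt_iff₀ (by positivity)]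
        linarith
      have h3 : (fun p : ℝ × (ℝ × ℝ) => g p.1 p.2) =
          fun p : ℝ × (ℝ × ℝ) => g (p.1 * c) (g (p.1 * d) p.2) := by
        ext1 p
        rw [← hg.add hK, ← mul_add, hcd, mul_one]
      have h5 : ∀ s ∈ Icc (0:ℝ) 1, g (p.1 * d * s) p.2 ∈ U := by
        intro s hs
        rw [mul_assoc]
        exact hin _ ⟨mul_nonneg hd0.le hs.1, by nlinarith [hs.2]⟩
      have h6 : ∀ s ∈ Icc (0:ℝ) 1, g (p.1 * c * s) (g (p.1 * d) p.2) ∈ U := by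
        intro s hs
        rw [← hg.add hK, mul_assoc, ← mul_add]
        exact hin _ ⟨add_nonneg (mul_nonneg hc0.le hs.1) hd0.le, by nlinarith [hs.2]⟩
      have h4 : ContDiffAt ℝ ⊤ (fun p : ℝ × (ℝ × ℝ) => g (p.1 * d) p.2) p :=
        ContDiffAt.comp p (g := fun q : ℝ × (ℝ × ℝ) => g q.1 q.2)
          (f := fun p : ℝ × (ℝ × ℝ) => (p.1 * d, p.2))
          (contDiffAt_small_omega hX hK hg hU hF (p.1 * d, p.2) h2 h5)
          ((contDiff_fst.mul contDiff_const).prodMk contDiff_snd).contDiffAt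
      rw [h3]
      exact ContDiffAt.comp p (g := fun q : ℝ × (ℝ × ℝ) => g q.1 q.2)
        (f := fun p : ℝ × (ℝ × ℝ) => (p.1 * c, g (p.1 * d) p.2))
        (ih (p.1 * c, g (p.1 * d) p.2) h1 h6)
        ((contDiff_fst.mul contDiff_const).contDiffAt.prodMk h4)
  obtain ⟨n, hn⟩ := exists_nat_gt (|p.1| * K)
  exact key n p (by linarith) hin

end Pool.Agent.K300
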