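import Pool.Agent.K300.Race2

/-! The target field and the sign conditions in a cell. -/

open Set Filter Topology

namespace Pool.Agent.K300

/-- first component of the target field -/
noncomputable def tp (u v : ℝ) : ℝ := v + 19 / 10 * u - 4 / 5 * u ^ 3

/-- second component of the target field -/
noncomputable def tq (u v : ℝ) : ℝ := -u + 19 / 10 * v - 4 / 5 * v ^ 3

/-- the margin -/
noncomputable def mg : ℝ := 41 / 1250

lemma tp_z1 {u v : ℝ} (h1 : 0 ≤ u) (h2 : u ≤ 6 / 5) (h3 : 1 ≤ v) : mg ≤ tp u v := by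
  unfold mg tp
  nlinarith [mul_nonneg h1 (sub_nonneg.2 h2), mul_nonneg (mul_nonneg h1 h1) (sub_nonneg.2 h2)]

lemma tp_z1' {u v : ℝ} (h1 : 1 ≤ u) (h2 : u ≤ 6 / 5) (h3 : 3 / 5 ≤ v) : mg ≤ tp u v := by
  unfold mg tp
  have h0 : 0 ≤ u := by linarith
  nlinarith [mul_nonneg h0 (sub_nonneg.2 h2), mul_nonneg (mul_nonneg h0 h0) (sub_nonneg.2 h2)]

lemma tq_z2 {u v : ℝ} (h1 : 6 / 5 ≤ u) (h3 : 0 ≤ v) : tq u v ≤ -mg := by
  unfold mg tq
  nlinarith [mul_nonneg h3 (sq_nonneg (v - 89 / 100)), sq_nonneg (v - 89 / 100)]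

lemma tq_z2' {u v : ℝ} (h1 : 1 ≤ u) (h3 : 0 ≤ v) (h4 : v ≤ 3 / 5) : tq u v ≤ -mg := by
  unfold mg tq
  nlinarith [mul_nonneg h3 (sub_nonneg.2 h4), mul_nonneg (mul_nonneg h3 h3) (sub_nonneg.2 h4)]

/-- a monotone coordinate with its levels `0.6, 1, 1.2, 2` -/
structure Coord (α : ℝ → ℝ) (t₀ t₁ t₂ t₃ : ℝ) : Prop where
  h0 : 0 < t₀
  h01 : t₀ < t₁
  h12 : t₁ < t₂
  h23 : t₂ < t₃
  mono : MonotoneOn α (Icc 0 t₃)
  a : α 0 = 0
  a0 : α t₀ = 3 / 5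
  a1 : α t₁ = 1
  a2 : α t₂ = 6 / 5
  a3 : α t₃ = 2

theorem Quad.of_near {W : ℝ × ℝ → ℝ × ℝ} {α β : ℝ → ℝ} {a₀ a₁ a₂ a₃ b₀ b₁ b₂ b₃ : ℝ}
    (hα : Coord α a₀ a₁ a₂ a₃) (hβ : Coord β b₀ b₁ b₂ b₃)
    (h1 : ∀ x ∈ Icc 0 a₃, ∀ y ∈ Icc 0 b₃, mg ≤ tp (α x) (β y) → 0 < (W (x, y)).1)
    (h2 : ∀ x ∈ Icc 0 a₃, ∀ y ∈ Icc 0 b₃, tp (α x) (β y) ≤ -mg → (W (x, y)).1 < 0)
    (h3 : ∀ x ∈ Icc 0 a₃, ∀ y ∈ Icc 0 b₃, mg ≤ tq (α x) (β y) → 0 < (W (x, y)).2)
    (h4 : ∀ x ∈ Icc 0 a₃, ∀ y ∈ Icc 0 b₃, tq (α x) (β y) ≤ -mg → (W (x, y)).2 < 0) :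
    Quad W a₁ a₂ a₃ b₀ b₁ b₃ := by
  have A0 := hα.h0
  have A01 := hα.h01
  have A12 := hα.h12
  have A23 := hα.h23
  have B0 := hβ.h0
  have B01 := hβ.h01
  have B12 := hβ.h12
  have B23 := hβ.h23
  have hα0 : ∀ x, 0 ≤ x → x ≤ a₃ → 0 ≤ α x := fun x h1 h2 => by
    rw [← hα.a]; exact hα.mono ⟨le_rfl, by linarith⟩ ⟨h1, h2⟩ h1
  have hβ0 : ∀ y, 0 ≤ y → y ≤ b₃ → 0 ≤ β y := fun y h1 h2 => by
    rw [← hβ.a]; exact hβ.mono ⟨le_rfl, by linarith⟩ ⟨h1, h2⟩ h1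
  have hα2 : ∀ x, 0 ≤ x → x ≤ a₃ → α x ≤ 2 := fun x h1 h2 => by
    rw [← hα.a3]; exact hα.mono ⟨h1, h2⟩ ⟨by linarith, le_rfl⟩ h2
  have hβ2 : ∀ y, 0 ≤ y → y ≤ b₃ → β y ≤ 2 := fun y h1 h2 => by
    rw [← hβ.a3]; exact hβ.mono ⟨h1, h2⟩ ⟨by linarith, le_rfl⟩ h2
  have hαle1 : ∀ x, 0 ≤ x → x ≤ a₁ → α x ≤ 1 := fun x h1 h2 => by
    rw [← hα.a1]; exact hα.mono ⟨h1, by linarith⟩ ⟨by linarith, by linarith⟩ h2
  have hαge1 : ∀ x, a₁ ≤ x → x ≤ a₃ → 1 ≤ α x := fun x h1 h2 => by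
    rw [← hα.a1]; exact hα.mono ⟨by linarith, by linarith⟩ ⟨by linarith, by linarith⟩ h1
  have hαle2 : ∀ x, 0 ≤ x → x ≤ a₂ → α x ≤ 6 / 5 := fun x h1 h2 => by
    rw [← hα.a2]; exact hα.mono ⟨h1, by linarith⟩ ⟨by linarith, by linarith⟩ h2
  have hαge2 : ∀ x, a₂ ≤ x → x ≤ a₃ → 6 / 5 ≤ α x := fun x h1 h2 => by
    rw [← hα.a2]; exact hα.mono ⟨by linarith, by linarith⟩ ⟨by linarith, by linarith⟩ h1
  have hβge1 : ∀ y, b₁ ≤ y → y ≤ b₃ → 1 ≤ β y := fun y h1 h2 => by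
    rw [← hβ.a1]; exact hβ.mono ⟨by linarith, by linarith⟩ ⟨by linarith, by linarith⟩ h1
  have hβge0 : ∀ y, b₀ ≤ y → y ≤ b₃ → 3 / 5 ≤ β y := fun y h1 h2 => by
    rw [← hβ.a0]; exact hβ.mono ⟨by linarith, by linarith⟩ ⟨by linarith, by linarith⟩ h1
  have hβle0 : ∀ y, 0 ≤ y → y ≤ b₀ → β y ≤ 3 / 5 := fun y h1 h2 => by
    rw [← hβ.a0]; exact hβ.mono ⟨h1, by linarith⟩ ⟨by linarith, by linarith⟩ h2
  refine ⟨by linarith, A12, A23, B0, B01, by linarith, ?_, ?_, ?_, ?_, ?_, ?_, ?_, ?_⟩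
  · intro x g1 g2
    refine h4 x ⟨g1, g2⟩ b₃ ⟨by linarith, le_rfl⟩ ?_
    have := hα0 x g1 g2
    rw [hβ.a3]; unfold tq mg; linarith
  · intro y g1 g2
    refine h2 a₃ ⟨by linarith, le_rfl⟩ y ⟨g1, g2⟩ ?_
    have := hβ2 y g1 g2
    rw [hα.a3]; unfold tp mg; linarith
  · intro x g1 g2
    refine h3 x ⟨g1, by linarith⟩ b₁ ⟨by linarith, by linarith⟩ ?_
    have := hαle1 x g1 g2
    rw [hβ.a1]; unfold tq mg; linarith
  · intro y g1 g2
    refine h1 a₁ ⟨by linarith, by linarith⟩ y ⟨g1, by linarith⟩ ?_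
    have := hβ0 y g1 (by linarith)
    rw [hα.a1]; unfold tp mg; linarith
  · intro x y g1 g2 g3 g4
    exact h1 x ⟨g1, by linarith⟩ y ⟨by linarith, g4⟩
      (tp_z1 (hα0 x g1 (by linarith)) (hαle2 x g1 g2) (hβge1 y g3 g4))
  · intro x y g1 g2 g3 g4
    exact h1 x ⟨by linarith, by linarith⟩ y ⟨by linarith, by linarith⟩
      (tp_z1' (hαge1 x g1 (by linarith)) (hαle2 x (by linarith) g2) (hβge0 y g3 (by linarith)))
  · intro x y g1 g2 g3 g4
    exact h4 x ⟨by linarith, g2⟩ y ⟨g3, g4⟩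
      (tq_z2 (hαge2 x g1 g2) (hβ0 y g3 g4))
  · intro x y g1 g2 g3 g4
    exact h4 x ⟨by linarith, g2⟩ y ⟨g3, by linarith⟩
      (tq_z2' (hαge1 x g1 g2) (hβ0 y g3 (by linarith)) (hβle0 y g3 g4))

/-- the levels of the coordinate `20 x ^ K - 8` -/
noncomputable def xl (K : ℕ) (ℓ : ℝ) : ℝ := ((8 + ℓ) / 20) ^ ((K : ℝ)⁻¹)

lemma xl_pow {K : ℕ} (hK : K ≠ 0) {ℓ : ℝ} (h : -8 ≤ ℓ) : (xl K ℓ) ^ K = (8 + ℓ) / 20 :=
  Real.rpow_inv_natCast_pow (by linarith) hK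

lemma xl_pos (K : ℕ) {ℓ : ℝ} (h : -8 < ℓ) : 0 < xl K ℓ :=
  Real.rpow_pos_of_pos (by linarith) _

lemma xl_lt {K : ℕ} (hK : K ≠ 0) {ℓ ℓ' : ℝ} (h : -8 < ℓ) (hl : ℓ < ℓ') : xl K ℓ < xl K ℓ' := by
  have h1 := xl_pow hK h.le
  have h2 := xl_pow hK (h.trans hl).le
  refine lt_of_pow_lt_pow_left₀ K (xl_pos K (h.trans hl)).le ?_
  rw [h1, h2]
  linarith

/-- the coordinate -/
def uc (K : ℕ) (x : ℝ) : ℝ := 20 * x ^ K - 8

lemma uc_xl {K : ℕ} (hK : K ≠ 0) {ℓ : ℝ} (h : -8 ≤ ℓ) : uc K (xl K ℓ) = ℓ := by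
  unfold uc
  rw [xl_pow hK h]; ring

lemma uc_mono (K : ℕ) {x y : ℝ} (hx : 0 ≤ x) (h : x ≤ y) : uc K x ≤ uc K y := by
  unfold uc
  have := pow_le_pow_left₀ hx h K
  linarith

lemma coord_plus {K : ℕ} (hK : K ≠ 0) : Coord (fun x => uc K (xl K 0 + x))
    (xl K (3 / 5) - xl K 0) (xl K 1 - xl K 0) (xl K (6 / 5) - xl K 0) (xl K 2 - xl K 0) := by
  have h0 := xl_pos K (ℓ := 0) (by norm_num)
  have h1 := xl_lt hK (ℓ := 0) (ℓ' := 3 / 5) (by norm_num) (by norm_num)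
  have h2 := xl_lt hK (ℓ := 3 / 5) (ℓ' := 1) (by norm_num) (by norm_num)
  have h3 := xl_lt hK (ℓ := 1) (ℓ' := 6 / 5) (by norm_num) (by norm_num)
  have h4 := xl_lt hK (ℓ := 6 / 5) (ℓ' := 2) (by norm_num) (by norm_num)
  refine ⟨by linarith, by linarith, by linarith, by linarith, ?_, ?_, ?_, ?_, ?_, ?_⟩
  · intro x hx y hy hxy
    exact uc_mono K (by linarith [hx.1]) (by linarith)
  · simp only [add_zero]; exact uc_xl hK (by norm_num)
  all_goals simp only [add_sub_cancel]; exact uc_xl hK (by norm_num)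

lemma coord_minus {K : ℕ} (hK : K ≠ 0) : Coord (fun x => -uc K (xl K 0 - x))
    (xl K 0 - xl K (-(3 / 5))) (xl K 0 - xl K (-1)) (xl K 0 - xl K (-(6 / 5)))
    (xl K 0 - xl K (-2)) := by
  have h0 := xl_pos K (ℓ := -2) (by norm_num)
  have h1 := xl_lt hK (ℓ := -(3 / 5)) (ℓ' := 0) (by norm_num) (by norm_num)
  have h2 := xl_lt hK (ℓ := -1) (ℓ' := -(3 / 5)) (by norm_num) (by norm_num)
  have h3 := xl_lt hK (ℓ := -(6 / 5)) (ℓ' := -1) (by norm_num) (by norm_num)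
  have h4 := xl_lt hK (ℓ := -2) (ℓ' := -(6 / 5)) (by norm_num) (by norm_num)
  refine ⟨by linarith, by linarith, by linarith, by linarith, ?_, ?_, ?_, ?_, ?_, ?_⟩
  · intro x hx y hy hxy
    have := uc_mono K (x := xl K 0 - y) (y := xl K 0 - x) (by linarith [hy.2]) (by linarith)
    simp only
    linarith
  · simp only [sub_zero]
    rw [uc_xl hK (by norm_num)]; norm_num
  all_goals
    simp only [sub_sub_cancel]
    rw [uc_xl hK (by norm_num)]; norm_num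

/-- the box of a cell -/
def cellBox (K L : ℕ) : Set (ℝ × ℝ) :=
  {p | 0 ≤ p.1 ∧ 0 ≤ p.2 ∧ p.1 ^ K ∈ Icc (3 / 10) (1 / 2) ∧ p.2 ^ L ∈ Icc (3 / 10) (1 / 2)}

/-- a polynomial field which has the sign pattern of the target field in a cell has a limit cycle
in the cell -/
theorem cell_limitCycle {S : Finset (ℕ × ℕ)} {A B : ℕ × ℕ → ℝ} {K L : ℕ} (hK : K ≠ 0)
    (hL : L ≠ 0)
    (h1 : ∀ p ∈ cellBox K L, mg ≤ tp (uc K p.1) (uc L p.2) → 0 < (polyF S A B p).1)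
    (h2 : ∀ p ∈ cellBox K L, tp (uc K p.1) (uc L p.2) ≤ -mg → (polyF S A B p).1 < 0)
    (h3 : ∀ p ∈ cellBox K L, mg ≤ tq (uc K p.1) (uc L p.2) → 0 < (polyF S A B p).2)
    (h4 : ∀ p ∈ cellBox K L, tq (uc K p.1) (uc L p.2) ≤ -mg → (polyF S A B p).2 < 0) :
    ∃ C, LimitCycle (polyF S A B) C ∧ C ⊆ cellBox K L := by
  set c : ℝ × ℝ := (xl K 0, xl L 0) with hc
  have kp := coord_plus hK
  have km := coord_minus hK
  have lp := coord_plus hL
  have lm := coord_minus hL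
  have hkm := xl_pos K (ℓ := -2) (by norm_num)
  have hlm := xl_pos L (ℓ := -2) (by norm_num)
  have hbox : ∀ x y, xl K (-2) ≤ x → x ≤ xl K 2 → xl L (-2) ≤ y → y ≤ xl L 2 →
      (x, y) ∈ cellBox K L := by
    intro x y g1 g2 g3 g4
    have e1 := xl_pow hK (ℓ := -2) (by norm_num)
    have e2 := xl_pow hK (ℓ := 2) (by norm_num)
    have e3 := xl_pow hL (ℓ := -2) (by norm_num)
    have e4 := xl_pow hL (ℓ := 2) (by norm_num)
    have f1 := pow_le_pow_left₀ hkm.le g1 K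
    have f2 := pow_le_pow_left₀ (hkm.le.trans g1) g2 K
    have f3 := pow_le_pow_left₀ hlm.le g3 L
    have f4 := pow_le_pow_left₀ (hlm.le.trans g3) g4 L
    rw [e1] at f1
    rw [e2] at f2
    rw [e3] at f3
    rw [e4] at f4
    norm_num at f1 f2 f3 f4
    exact ⟨by simp only; linarith, by simp only; linarith, ⟨f1, f2⟩, ⟨f3, f4⟩⟩
  have htq : ∀ u v, -tq v (-u) = tp u v := by intro u v; unfold tq tp; ring
  have htp : ∀ u v, tp v (-u) = tq u v := by intro u v; unfold tq tp; ring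
  have htp2 : ∀ u v, tp (-u) (-v) = -tp u v := by intro u v; unfold tp; ring
  have htq2 : ∀ u v, tq (-u) (-v) = -tq u v := by intro u v; unfold tq; ring
  have htq3 : ∀ u v, tq (-v) u = tp u v := by intro u v; unfold tq tp; ring
  have htp3 : ∀ u v, -tp (-v) u = tq u v := by intro u v; unfold tq tp; ring
  have K1 := km.h0
  have K2 := km.h01
  have K3 := km.h12
  have K4 := km.h23
  have K5 := kp.h0
  have K6 := kp.h01
  have K7 := kp.h12
  have K8 := kp.h23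
  have L1 := lm.h0
  have L2 := lm.h01
  have L3 := lm.h12
  have L4 := lm.h23
  have L5 := lp.h0
  have L6 := lp.h01
  have L7 := lp.h12
  have L8 := lp.h23
  set W : ℝ × ℝ → ℝ × ℝ := fun p => polyF S A B (c + p) with hW
  have hWc : ∀ x y, W (x, y) = polyF S A B (xl K 0 + x, xl L 0 + y) := by
    intro x y; simp [hW, hc]
  have q1 : Quad W (xl K 1 - xl K 0) (xl K (6 / 5) - xl K 0)
      (xl K 2 - xl K 0) (xl L (3 / 5) - xl L 0) (xl L 1 - xl L 0) (xl L 2 - xl L 0) := by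
    refine Quad.of_near kp lp ?_ ?_ ?_ ?_ <;> intro x hx y hy hh <;> rw [hWc]
    · exact h1 _ (hbox _ _ (by linarith [hx.1]) (by linarith [hx.2])
        (by linarith [hy.1]) (by linarith [hy.2])) hh
    · exact h2 _ (hbox _ _ (by linarith [hx.1]) (by linarith [hx.2])
        (by linarith [hy.1]) (by linarith [hy.2])) hh
    · exact h3 _ (hbox _ _ (by linarith [hx.1]) (by linarith [hx.2])
        (by linarith [hy.1]) (by linarith [hy.2])) hh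
    · exact h4 _ (hbox _ _ (by linarith [hx.1]) (by linarith [hx.2])
        (by linarith [hy.1]) (by linarith [hy.2])) hh
  have e2 : ∀ x y, rotW W (x, y) = (-(polyF S A B (xl K 0 + y, xl L 0 - x)).2,
      (polyF S A B (xl K 0 + y, xl L 0 - x)).1) := by
    intro x y
    have : W (y, -x) = polyF S A B (xl K 0 + y, xl L 0 - x) := by rw [hWc]; rfl
    rw [← this]; rfl
  have q2 : Quad (rotW W) (xl L 0 - xl L (-1)) (xl L 0 - xl L (-(6 / 5)))
      (xl L 0 - xl L (-2)) (xl K (3 / 5) - xl K 0) (xl K 1 - xl K 0) (xl K 2 - xl K 0) := by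
    refine Quad.of_near lm kp ?_ ?_ ?_ ?_ <;> intro x hx y hy hh <;> rw [e2]
    · rw [← htq, neg_neg] at hh
      exact neg_pos.2 (h4 _ (hbox _ _ (by linarith [hy.1]) (by linarith [hy.2])
        (by linarith [hx.2]) (by linarith [hx.1])) (by simp only; linarith))
    · rw [← htq, neg_neg] at hh
      exact neg_neg_of_pos (h3 _ (hbox _ _ (by linarith [hy.1]) (by linarith [hy.2])
        (by linarith [hx.2]) (by linarith [hx.1])) (by simp only; linarith))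
    · rw [← htp, neg_neg] at hh
      exact h1 _ (hbox _ _ (by linarith [hy.1]) (by linarith [hy.2])
        (by linarith [hx.2]) (by linarith [hx.1])) hh
    · rw [← htp, neg_neg] at hh
      exact h2 _ (hbox _ _ (by linarith [hy.1]) (by linarith [hy.2])
        (by linarith [hx.2]) (by linarith [hx.1])) hh
  have e3 : ∀ x y, rotW (rotW W) (x, y) = (-(polyF S A B (xl K 0 - x, xl L 0 - y)).1,
      -(polyF S A B (xl K 0 - x, xl L 0 - y)).2) := by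
    intro x y
    have : rotW W (y, -x) = (-(polyF S A B (xl K 0 - x, xl L 0 - y)).2,
      (polyF S A B (xl K 0 - x, xl L 0 - y)).1) := by
      rw [e2]; rfl
    have h5 : rotW (rotW W) (x, y) = rt (rotW W (y, -x)) := rfl
    rw [h5, this]; rfl
  have q3 : Quad (rotW (rotW W)) (xl K 0 - xl K (-1)) (xl K 0 - xl K (-(6 / 5)))
      (xl K 0 - xl K (-2)) (xl L 0 - xl L (-(3 / 5))) (xl L 0 - xl L (-1))
      (xl L 0 - xl L (-2)) := by
    refine Quad.of_near km lm ?_ ?_ ?_ ?_ <;> intro x hx y hy hh <;> rw [e3]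
    · rw [htp2] at hh
      exact neg_pos.2 (h2 _ (hbox _ _ (by linarith [hx.2]) (by linarith [hx.1])
        (by linarith [hy.2]) (by linarith [hy.1])) (by simp only; linarith))
    · rw [htp2] at hh
      exact neg_neg_of_pos (h1 _ (hbox _ _ (by linarith [hx.2]) (by linarith [hx.1])
        (by linarith [hy.2]) (by linarith [hy.1])) (by simp only; linarith))
    · rw [htq2] at hh
      exact neg_pos.2 (h4 _ (hbox _ _ (by linarith [hx.2]) (by linarith [hx.1])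
        (by linarith [hy.2]) (by linarith [hy.1])) (by simp only; linarith))
    · rw [htq2] at hh
      exact neg_neg_of_pos (h3 _ (hbox _ _ (by linarith [hx.2]) (by linarith [hx.1])
        (by linarith [hy.2]) (by linarith [hy.1])) (by simp only; linarith))
  have e4 : ∀ x y, rotW (rotW (rotW W)) (x, y) = ((polyF S A B (xl K 0 - y, xl L 0 + x)).2,
      -(polyF S A B (xl K 0 - y, xl L 0 + x)).1) := by
    intro x y
    have h5 : rotW (rotW (rotW W)) (x, y) = rt (rotW (rotW W) (y, -x)) := rfl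
    rw [h5, e3, sub_neg_eq_add]
    simp [rt]
  have q4 : Quad (rotW (rotW (rotW W))) (xl L 1 - xl L 0) (xl L (6 / 5) - xl L 0)
      (xl L 2 - xl L 0) (xl K 0 - xl K (-(3 / 5))) (xl K 0 - xl K (-1))
      (xl K 0 - xl K (-2)) := by
    refine Quad.of_near lp km ?_ ?_ ?_ ?_ <;> intro x hx y hy hh <;> rw [e4]
    · rw [← htq3, neg_neg] at hh
      exact h3 _ (hbox _ _ (by linarith [hy.2]) (by linarith [hy.1])
        (by linarith [hx.1]) (by linarith [hx.2])) hh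
    · rw [← htq3, neg_neg] at hh
      exact h4 _ (hbox _ _ (by linarith [hy.2]) (by linarith [hy.1])
        (by linarith [hx.1]) (by linarith [hx.2])) hh
    · rw [← htp3, neg_neg] at hh
      exact neg_pos.2 (h2 _ (hbox _ _ (by linarith [hy.2]) (by linarith [hy.1])
        (by linarith [hx.1]) (by linarith [hx.2])) (by simp only; linarith))
    · rw [← htp3, neg_neg] at hh
      exact neg_neg_of_pos (h1 _ (hbox _ _ (by linarith [hy.2]) (by linarith [hy.1])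
        (by linarith [hx.1]) (by linarith [hx.2])) (by simp only; linarith))
  obtain ⟨C, hC, hCb⟩ := race q1 q2 q3 q4
  refine ⟨C, hC, fun p hp => ?_⟩
  obtain ⟨⟨g1, g2⟩, ⟨g3, g4⟩⟩ := hCb p hp
  simp only [hc, Prod.fst_sub, Prod.snd_sub] at g1 g2 g3 g4
  exact hbox p.1 p.2 (by linarith) (by linarith) (by linarith) (by linarith)

end Pool.Agent.K300
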