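import Mathlib

/-! A window event for normalised sums, by the central limit theorem. -/

open Set Filter Topology MeasureTheory ProbabilityTheory
open scoped ENNReal

namespace Pool.Agent.K300

/-- law of the coordinates indexed by a finite type -/
lemma map_family {Ω ι : Type*} [MeasurableSpace Ω] {P : Measure Ω} {ν : Measure ℝ} {X : ι → Ω → ℝ}
    (hX : ∀ i, Measurable (X i)) (hind : iIndepFun X P) {κ : Type*} [Fintype κ] {e : κ → ι}
    (hlaw : ∀ k, P.map (X (e k)) = ν) (he : Function.Injective e) :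
    P.map (fun ω k => X (e k) ω) = Measure.pi (fun _ : κ => ν) := by
  have := (hind.precomp he).map_fun_eq_pi_map (fun k => (hX (e k)).aemeasurable)
  simp only [hlaw] at this
  exact this

/-- the window event -/
def win (κ : Type) [Fintype κ] (a : ℝ) : Set (κ → ℝ) :=
  {x | |(√(Fintype.card κ : ℝ))⁻¹ * ∑ k, x k - a| < 1 / 2 ∧ ∑ k, x k ^ 2 ≤ 2 * Fintype.card κ}

lemma measurableSet_win (κ : Type) [Fintype κ] (a : ℝ) : MeasurableSet (win κ a) := by
  have h1 : MeasurableSet {x : κ → ℝ | |(√(Fintype.card κ : ℝ))⁻¹ * ∑ k, x k - a| < 1 / 2} :=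
    measurableSet_lt (by fun_prop) measurable_const
  have h2 : MeasurableSet {x : κ → ℝ | ∑ k, x k ^ 2 ≤ 2 * (Fintype.card κ : ℝ)} :=
    measurableSet_le (by fun_prop) measurable_const
  exact h1.inter h2

theorem clt_event (a : ℝ) : ∃ p : ℝ, 0 < p ∧ ∀ (ν : Measure ℝ) [IsProbabilityMeasure ν],
    (∫ x, x ∂ν = 0) → (∫ x, x ^ 2 ∂ν = 1) → ∃ N₀ : ℕ, ∀ (κ : Type) [Fintype κ],
      N₀ ≤ Fintype.card κ → p ≤ (Measure.pi (fun _ : κ => ν)).real (win κ a) := by
  set U : Set ℝ := Ioo (a - 1 / 2) (a + 1 / 2) with hU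
  set γ := gaussianReal 0 1 with hγ
  have hq : 0 < γ.real U := by
    rw [measureReal_def, ENNReal.toReal_pos_iff]
    refine ⟨?_, measure_lt_top _ _⟩
    rw [pos_iff_ne_zero]
    intro h0
    have h1 := gaussianReal_absolutelyContinuous' 0 (v := 1) one_ne_zero h0
    rw [hU, Real.volume_Ioo] at h1
    norm_num at h1
  set q := γ.real U with hqdef
  refine ⟨q / 2, by positivity, fun ν _ h0 h1 => ?_⟩
  obtain ⟨Ω, _, P, X, hXm, hXl, hind, hP⟩ := exists_iid.{0, 0} ℕ ν
  have hlaw : ∀ i, P.map (X i) = ν := fun i => (hXl i).map_eq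
  have hident : ∀ i, IdentDistrib (X i) (X 0) P P := fun i =>
    ⟨(hXm i).aemeasurable, (hXm 0).aemeasurable, by rw [hlaw, hlaw]⟩
  have hm0 : P[X 0] = 0 := by
    rw [← h0, ← hlaw 0, integral_map (hXm 0).aemeasurable (by fun_prop)]
  have hm1 : P[X 0 ^ 2] = 1 := by
    rw [← h1, ← hlaw 0, integral_map (hXm 0).aemeasurable (by fun_prop)]
    rfl
  -- central limit theorem
  have hclt := tendstoInDistribution_inv_sqrt_mul_sum (P' := γ) (Y := id) HasLaw.id hm0 hm1 hind
    hident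
  have hev1 : ∀ᶠ n : ℕ in atTop,
      3 * q / 4 < P.real {ω | (√(n:ℝ))⁻¹ * ∑ k ∈ Finset.range n, X k ω ∈ U} := by
    have h2 := ProbabilityMeasure.le_liminf_measure_open_of_tendsto hclt.tendsto
      (isOpen_Ioo : IsOpen U)
    simp only [ProbabilityMeasure.coe_mk, Measure.map_id] at h2
    have h3 : ENNReal.ofReal (3 * q / 4) < γ U := by
      rw [← ofReal_measureReal (μ := γ) (s := U)]
      exact (ENNReal.ofReal_lt_ofReal_iff hq).2 (by linarith)
    have h4 := Filter.eventually_lt_of_lt_liminf (h3.trans_le h2)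
    filter_upwards [h4] with n hn
    rw [Measure.map_apply (by fun_prop) measurableSet_Ioo] at hn
    rw [measureReal_def]
    exact (ENNReal.ofReal_lt_iff_lt_toReal (by positivity) (measure_ne_top _ _)).1 hn
  -- law of large numbers for the squares
  have hsq : ∀ᵐ ω ∂P, Tendsto (fun n : ℕ => (∑ k ∈ Finset.range n, X k ω ^ 2) / n) atTop
      (𝓝 (1:ℝ)) := by
    have hint : Integrable (fun ω => X 0 ω ^ 2) P := by
      by_contra hni
      have := integral_undef hni
      have h5 : P[X 0 ^ 2] = ∫ ω, X 0 ω ^ 2 ∂P := rfl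
      rw [h5, this] at hm1
      exact zero_ne_one hm1
    have := strong_law_ae_real (fun k ω => X k ω ^ 2) hint
      (fun i j hij => (hind.indepFun hij).comp (measurable_id.pow_const 2)
        (measurable_id.pow_const 2))
      (fun i => (hident i).comp (measurable_id.pow_const 2))
    have h5 : P[X 0 ^ 2] = ∫ ω, X 0 ω ^ 2 ∂P := rfl
    rw [← h5, hm1] at this
    exact this
  have hmeas := tendstoInMeasure_of_tendsto_ae (μ := P)
    (f := fun (n : ℕ) ω => (∑ k ∈ Finset.range n, X k ω ^ 2) / n) (g := fun _ => (1:ℝ))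
    (fun n => (by fun_prop : Measurable fun ω => (∑ k ∈ Finset.range n, X k ω ^ 2) / (n:ℝ)).aestronglyMeasurable)
    hsq
  have hev2 : ∀ᶠ n : ℕ in atTop,
      P.real {ω | 2 * (n:ℝ) < ∑ k ∈ Finset.range n, X k ω ^ 2} < q / 4 := by
    have h6 := hmeas 1 one_pos
    have h7 := h6.eventually (gt_mem_nhds (show (0:ℝ≥0∞) < ENNReal.ofReal (q / 4) by
      rw [ENNReal.ofReal_pos]; positivity))
    filter_upwards [h7, eventually_gt_atTop 0] with n hn hn0
    have h8 : {ω | 2 * (n:ℝ) < ∑ k ∈ Finset.range n, X k ω ^ 2} ⊆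
        {ω | 1 ≤ edist ((∑ k ∈ Finset.range n, X k ω ^ 2) / (n:ℝ)) 1} := by
      intro ω hω
      simp only [mem_ofPred_eq] at hω ⊢
      have hn0' : (0:ℝ) < n := by exact_mod_cast hn0
      have h9 : 2 < (∑ k ∈ Finset.range n, X k ω ^ 2) / (n:ℝ) := by
        rw [lt_div_iff₀ hn0']; exact hω
      rw [edist_dist, Real.dist_eq, ENNReal.one_le_ofReal]
      rw [abs_of_pos (by linarith)]
      linarith
    rw [measureReal_def]
    rw [← ENNReal.lt_ofReal_iff_toReal_lt (measure_ne_top _ _)]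
    exact (measure_mono h8).trans_lt hn
  obtain ⟨N₀, hN₀⟩ := eventually_atTop.1 (hev1.and hev2)
  refine ⟨N₀, fun κ _ hκ => ?_⟩
  obtain ⟨h2, h3⟩ := hN₀ _ hκ
  set N := Fintype.card κ with hN
  -- transfer
  have e : κ ≃ Fin N := Fintype.equivFin κ
  have hinj : Function.Injective (fun k => ((e k : Fin N) : ℕ)) :=
    Fin.val_injective.comp e.injective
  rw [← map_family hXm hind (fun k => hlaw _) hinj]
  have hmeasf : Measurable (fun ω k => X ((e k : Fin N) : ℕ) ω) := by fun_prop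
  rw [map_measureReal_apply hmeasf (measurableSet_win κ a)]
  have hsum : ∀ f : ℕ → ℝ, ∑ k, f ((e k : Fin N) : ℕ) = ∑ k ∈ Finset.range N, f k := by
    intro f
    rw [Equiv.sum_comp e (fun k : Fin N => f k), Fin.sum_univ_eq_sum_range]
  have hset : {ω | (√(N:ℝ))⁻¹ * ∑ k ∈ Finset.range N, X k ω ∈ U} \
      {ω | 2 * (N:ℝ) < ∑ k ∈ Finset.range N, X k ω ^ 2} ⊆
      (fun ω k => X ((e k : Fin N) : ℕ) ω) ⁻¹' win κ a := by
    rintro ω ⟨h4, h5⟩
    simp only [mem_ofPred_eq, not_lt] at h4 h5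
    refine ⟨?_, ?_⟩
    · simp only [hsum (fun k => X k ω)]
      rw [abs_lt]
      constructor <;> linarith [h4.1, h4.2]
    · simp only [hsum (fun k => X k ω ^ 2)]
      exact h5
  calc q / 2 ≤ P.real {ω | (√(N:ℝ))⁻¹ * ∑ k ∈ Finset.range N, X k ω ∈ U} -
        P.real {ω | 2 * (N:ℝ) < ∑ k ∈ Finset.range N, X k ω ^ 2} := by linarith
    _ ≤ P.real ({ω | (√(N:ℝ))⁻¹ * ∑ k ∈ Finset.range N, X k ω ∈ U} \
      {ω | 2 * (N:ℝ) < ∑ k ∈ Finset.range N, X k ω ^ 2}) := le_measureReal_sdiff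
    _ ≤ _ := measureReal_mono hset

end Pool.Agent.K300
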