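import Mathlib

/-! Chebyshev's inequality for the number of events that occur. -/

open Set MeasureTheory

set_option linter.unusedSectionVars false

namespace Pool.Agent.K300

variable {Ω : Type*} [MeasurableSpace Ω] {P : Measure Ω} [IsProbabilityMeasure P] {α : Type*}

/-- indicator of an event -/
noncomputable def one (G : Set Ω) (ω : Ω) : ℝ := G.indicator (fun _ => (1:ℝ)) ω

lemma one_nonneg' (G : Set Ω) (ω : Ω) : 0 ≤ one G ω := indicator_nonneg (fun _ _ => zero_le_one) ω

lemma measurable_one {G : Set Ω} (hG : MeasurableSet G) : Measurable (one G) :=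
  measurable_const.indicator hG

lemma integrable_one {G : Set Ω} (hG : MeasurableSet G) : Integrable (one G) P :=
  (integrable_const (1:ℝ)).indicator hG

lemma integral_one {G : Set Ω} (hG : MeasurableSet G) : ∫ ω, one G ω ∂P = P.real G := by
  unfold one
  rw [integral_indicator hG, setIntegral_const, smul_eq_mul, mul_one]

lemma one_mul_one (G H : Set Ω) (ω : Ω) : one G ω * one H ω = one (G ∩ H) ω := by
  unfold one
  by_cases h1 : ω ∈ G <;> by_cases h2 : ω ∈ H <;> simp [h1, h2]

theorem count_lower [DecidableEq α] (J : Finset α) (G : α → Set Ω)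
    (hG : ∀ j ∈ J, MeasurableSet (G j)) {p₀ : ℝ} {D : ℕ} (hp0 : 0 < p₀)
    (hp : ∀ j ∈ J, p₀ ≤ P.real (G j)) (near : α → Finset α) (hD : ∀ j ∈ J, (near j).card ≤ D)
    (hind : ∀ i ∈ J, ∀ j ∈ J, j ∉ near i → P.real (G i ∩ G j) = P.real (G i) * P.real (G j))
    (hJ : 0 < J.card) :
    P.real {ω | ∑ j ∈ J, one (G j) ω < p₀ * J.card / 2} ≤ 4 * D / (p₀ ^ 2 * J.card) := by
  have hJ' : (0:ℝ) < J.card := by exact_mod_cast hJ
  set S : Ω → ℝ := fun ω => ∑ j ∈ J, (one (G j) ω - P.real (G j)) with hS
  have hij : ∀ i ∈ J, ∀ j ∈ J, Integrable (fun ω => (one (G i) ω - P.real (G i)) *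
      (one (G j) ω - P.real (G j))) P ∧ ∫ ω, (one (G i) ω - P.real (G i)) *
      (one (G j) ω - P.real (G j)) ∂P = P.real (G i ∩ G j) - P.real (G i) * P.real (G j) := by
    intro i hi j hj
    have e : (fun ω => (one (G i) ω - P.real (G i)) * (one (G j) ω - P.real (G j))) =
        fun ω => one (G i ∩ G j) ω - P.real (G j) * one (G i) ω - P.real (G i) * one (G j) ω +
          P.real (G i) * P.real (G j) := by
      ext ω
      rw [← one_mul_one]; ring
    have i1 := integrable_one (P := P) ((hG i hi).inter (hG j hj))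
    have i2 := (integrable_one (P := P) (hG i hi)).const_mul (P.real (G j))
    have i3 := (integrable_one (P := P) (hG j hj)).const_mul (P.real (G i))
    have i12 : Integrable (fun ω => one (G i ∩ G j) ω - P.real (G j) * one (G i) ω) P := i1.sub i2
    have i123 : Integrable (fun ω => one (G i ∩ G j) ω - P.real (G j) * one (G i) ω -
        P.real (G i) * one (G j) ω) P := i12.sub i3
    rw [e]
    refine ⟨i123.add (integrable_const _), ?_⟩
    rw [integral_add i123 (integrable_const _), integral_sub i12 i3, integral_sub i1 i2, integral_const_mul, integral_const_mul, integral_one (hG i hi),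
      integral_one (hG j hj), integral_one ((hG i hi).inter (hG j hj)), integral_const,
      probReal_univ, one_smul]
    ring
  have hSsq : (fun ω => S ω ^ 2) = fun ω => ∑ i ∈ J, ∑ j ∈ J,
      (one (G i) ω - P.real (G i)) * (one (G j) ω - P.real (G j)) := by
    ext ω
    rw [hS, sq, Finset.sum_mul_sum]
  have hSi : Integrable (fun ω => S ω ^ 2) P := by
    rw [hSsq]
    exact integrable_finsetSum _ fun i hi => integrable_finsetSum _ fun j hj => (hij i hi j hj).1
  have hSe : ∫ ω, S ω ^ 2 ∂P ≤ J.card * D := by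
    rw [hSsq, integral_finsetSum _ fun i hi => integrable_finsetSum _ fun j hj => (hij i hi j hj).1]
    have h1 : ∀ i ∈ J, ∫ ω, ∑ j ∈ J, (one (G i) ω - P.real (G i)) *
        (one (G j) ω - P.real (G j)) ∂P ≤ D := by
      intro i hi
      rw [integral_finsetSum _ fun j hj => (hij i hi j hj).1]
      have h2 : ∀ j ∈ J, ∫ ω, (one (G i) ω - P.real (G i)) * (one (G j) ω - P.real (G j)) ∂P ≤
          if j ∈ near i then 1 else 0 := by
        intro j hj
        rw [(hij i hi j hj).2]
        split_ifs with hn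
        · have h3 : P.real (G i ∩ G j) ≤ 1 := measureReal_le_one
          have h4 : 0 ≤ P.real (G i) * P.real (G j) := mul_nonneg measureReal_nonneg measureReal_nonneg
          linarith
        · rw [hind i hi j hj hn, sub_self]
      refine (Finset.sum_le_sum h2).trans ?_
      rw [← Finset.sum_filter, Finset.sum_const, nsmul_eq_mul, mul_one]
      have h5 : (J.filter fun j => j ∈ near i).card ≤ (near i).card :=
        Finset.card_le_card fun j hj => (Finset.mem_filter.1 hj).2
      exact_mod_cast h5.trans (hD i hi)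
    refine (Finset.sum_le_sum h1).trans ?_
    rw [Finset.sum_const, nsmul_eq_mul]
  set R : ℝ := (p₀ * J.card / 2) ^ 2 with hR
  have hR0 : 0 < R := by positivity
  have h4 := mul_meas_ge_le_integral_of_nonneg (ae_of_all P fun ω => sq_nonneg (S ω)) hSi R
  have h5 : P.real {ω | ∑ j ∈ J, one (G j) ω < p₀ * J.card / 2} ≤ P.real {ω | R ≤ S ω ^ 2} := by
    refine measureReal_mono ?_
    intro ω hω
    simp only [mem_ofPred_eq] at hω ⊢
    have h6 : (J.card : ℝ) * p₀ ≤ ∑ j ∈ J, P.real (G j) := by
      have := Finset.sum_le_sum hp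
      simpa using this
    have h7 : S ω ≤ -(p₀ * J.card / 2) := by
      simp only [hS, Finset.sum_sub_distrib]
      linarith
    rw [hR]
    nlinarith [show 0 < p₀ * J.card / 2 by positivity]
  have h6 : R * P.real {ω | ∑ j ∈ J, one (G j) ω < p₀ * J.card / 2} ≤ J.card * D :=
    (mul_le_mul_of_nonneg_left h5 hR0.le).trans (h4.trans hSe)
  rw [le_div_iff₀ (by positivity)]
  have h7 : R = p₀ ^ 2 * J.card * J.card / 4 := by rw [hR]; ring
  rw [h7] at h6
  have h8 : (J.card : ℝ) * (p₀ ^ 2 * J.card * P.real {ω | ∑ j ∈ J, one (G j) ω <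
      p₀ * J.card / 2}) ≤ J.card * (4 * D) := by linarith
  have := le_of_mul_le_mul_left h8 hJ'
  linarith

theorem count_upper (J : Finset α) (B : α → Set Ω) (hB : ∀ j ∈ J, MeasurableSet (B j)) {ε : ℝ}
    (hε : ∀ j ∈ J, P.real (B j) ≤ ε) {p₀ : ℝ} (hp0 : 0 < p₀) (hJ : 0 < J.card) :
    P.real {ω | p₀ * J.card / 4 ≤ ∑ j ∈ J, one (B j) ω} ≤ 4 * ε / p₀ := by
  have hJ' : (0:ℝ) < J.card := by exact_mod_cast hJ
  have hi : Integrable (fun ω => ∑ j ∈ J, one (B j) ω) P :=
    integrable_finsetSum _ fun j hj => integrable_one (hB j hj)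
  have h1 := mul_meas_ge_le_integral_of_nonneg
    (ae_of_all P fun ω => Finset.sum_nonneg fun j _ => one_nonneg' (B j) ω) hi (p₀ * J.card / 4)
  rw [integral_finsetSum _ fun j hj => integrable_one (hB j hj)] at h1
  have h2 : ∑ j ∈ J, ∫ ω, one (B j) ω ∂P ≤ J.card * ε := by
    have : ∀ j ∈ J, ∫ ω, one (B j) ω ∂P ≤ ε := fun j hj => by
      rw [integral_one (hB j hj)]; exact hε j hj
    have := Finset.sum_le_sum this
    simpa using this
  rw [le_div_iff₀ hp0]
  have h3 : (J.card : ℝ) * (p₀ * P.real {ω | p₀ * J.card / 4 ≤ ∑ j ∈ J, one (B j) ω}) ≤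
      J.card * (4 * ε) := by
    have := h1.trans h2
    linarith
  have := le_of_mul_le_mul_left h3 hJ'
  linarith

end Pool.Agent.K300
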