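import Mathlib

/-! Cutoff of a smooth planar field. -/

open Set Filter Topology

namespace Pool.Agent.K300

/-- cutoff of a smooth field outside a big ball -/
lemma exists_cutoff {F : ℝ × ℝ → ℝ × ℝ} (hF : ContDiff ℝ 2 F) (R : ℝ) :
    ∃ X : ℝ × ℝ → ℝ × ℝ, ContDiff ℝ 2 X ∧ (∃ K : NNReal, LipschitzWith K X) ∧
      (∃ M : NNReal, ∀ x, ‖X x‖ ≤ M) ∧ ∀ p, ‖p‖ ≤ R → X =ᶠ[𝓝 p] F := by
  set r := max R 0 with hr
  let χ : ContDiffBump (0 : ℝ × ℝ) := ⟨r + 1, r + 2, by positivity, by linarith⟩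
  have hX : ContDiff ℝ 2 (fun x => χ x • F x) := (χ.contDiff).smul hF
  have hs : HasCompactSupport (fun x => χ x • F x) := χ.hasCompactSupport.smul_right
  refine ⟨fun x => χ x • F x, hX, hX.lipschitzWith_of_hasCompactSupport hs (by norm_num), ?_, ?_⟩
  · obtain ⟨M, hM⟩ := hs.exists_bound_of_continuous hX.continuous
    refine ⟨⟨max M 0, le_max_right _ _⟩, fun x => (hM x).trans (le_max_left _ _)⟩
  · intro p hp
    have h1 : Metric.ball (0 : ℝ × ℝ) (r + 1) ∈ 𝓝 p := by
      refine Metric.isOpen_ball.mem_nhds ?_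
      rw [mem_ball_zero_iff]
      have : R ≤ r := le_max_left _ _
      linarith
    filter_upwards [h1] with x hx
    rw [χ.one_of_mem_closedBall (Metric.ball_subset_closedBall hx), one_smul]

end Pool.Agent.K300
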