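import Mathlib

/-! Events which depend on finitely many coordinates of an independent family. -/

open Set MeasureTheory ProbabilityTheory

set_option linter.unusedSectionVars false

namespace Pool.Agent.K300

variable {Ω ι : Type*} [MeasurableSpace Ω] {P : Measure Ω} {X : ι → Ω → ℝ}

/-- a measurable set of configurations which depends on the coordinates in `T` -/
structure DepOn (T : Finset ι) (Φ : Set (ι → ℝ)) : Prop where
  meas : MeasurableSet Φ
  dep : ∀ ξ ξ' : ι → ℝ, (∀ i ∈ T, ξ i = ξ' i) → (ξ ∈ Φ ↔ ξ' ∈ Φ)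

/-- the event defined by a set of configurations -/
def ev (X : ι → Ω → ℝ) (Φ : Set (ι → ℝ)) : Set Ω := {ω | (fun i => X i ω) ∈ Φ}

lemma measurableSet_ev (hX : ∀ i, Measurable (X i)) {Φ : Set (ι → ℝ)} (h : MeasurableSet Φ) :
    MeasurableSet (ev X Φ) :=
  h.preimage (measurable_pi_lambda _ hX)

lemma DepOn.mono {S T : Finset ι} {Φ : Set (ι → ℝ)} (h : DepOn S Φ) (hST : S ⊆ T) : DepOn T Φ :=
  ⟨h.meas, fun ξ ξ' hh => h.dep ξ ξ' fun i hi => hh i (hST hi)⟩

lemma DepOn.inter {T : Finset ι} {Φ Ψ : Set (ι → ℝ)} (h : DepOn T Φ) (h' : DepOn T Ψ) :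
    DepOn T (Φ ∩ Ψ) :=
  ⟨h.meas.inter h'.meas, fun ξ ξ' hh => and_congr (h.dep ξ ξ' hh) (h'.dep ξ ξ' hh)⟩

lemma DepOn.biInter {J : Type*} (A : Finset J) {T : Finset ι} {Φ : J → Set (ι → ℝ)}
    (h : ∀ j ∈ A, DepOn T (Φ j)) : DepOn T (⋂ j ∈ A, Φ j) := by
  refine ⟨A.measurableSet_biInter fun j hj => (h j hj).meas, fun ξ ξ' hh => ?_⟩
  simp only [mem_iInter]
  exact forall₂_congr fun j hj => (h j hj).dep ξ ξ' hh

open Classical in
/-- extension by zero -/
noncomputable def ext0 (T : Finset ι) (x : T → ℝ) (i : ι) : ℝ := if h : i ∈ T then x ⟨i, h⟩ else 0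

lemma measurable_ext0 (T : Finset ι) : Measurable (ext0 T) := by
  refine measurable_pi_iff.2 fun i => ?_
  unfold ext0
  by_cases h : i ∈ T
  · simp only [h, dif_pos]; exact measurable_pi_apply _
  · simp only [h, dif_neg, not_false_eq_true]; exact measurable_const

lemma DepOn.ev_eq {T : Finset ι} {Φ : Set (ι → ℝ)} (h : DepOn T Φ) :
    ev X Φ = (fun ω (i : T) => X i ω) ⁻¹' (ext0 T ⁻¹' Φ) := by
  ext ω
  simp only [ev, mem_ofPred_eq, mem_preimage]
  refine h.dep _ _ fun i hi => ?_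
  unfold ext0
  rw [dif_pos hi]

lemma DepOn.indep (hX : ∀ i, Measurable (X i)) (hind : iIndepFun X P) {S T : Finset ι}
    (hST : Disjoint S T) {Φ Ψ : Set (ι → ℝ)} (h : DepOn S Φ) (h' : DepOn T Ψ) :
    P.real (ev X (Φ ∩ Ψ)) = P.real (ev X Φ) * P.real (ev X Ψ) := by
  have h1 := (hind.indepFun_finset S T hST hX).measure_inter_preimage_eq_mul
    (ext0 S ⁻¹' Φ) (ext0 T ⁻¹' Ψ) (h.meas.preimage (measurable_ext0 S))
    (h'.meas.preimage (measurable_ext0 T))
  rw [← h.ev_eq, ← h'.ev_eq] at h1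
  have e : ev X (Φ ∩ Ψ) = ev X Φ ∩ ev X Ψ := rfl
  rw [e, measureReal_def, h1, ENNReal.toReal_mul]
  rfl

lemma DepOn.prod [DecidableEq ι] [IsProbabilityMeasure P] (hX : ∀ i, Measurable (X i))
    (hind : iIndepFun X P) {J : Type*} [DecidableEq J] (A : Finset J) {T : J → Finset ι}
    {Φ : J → Set (ι → ℝ)} (hT : ∀ i j, i ≠ j → Disjoint (T i) (T j))
    (h : ∀ j, DepOn (T j) (Φ j)) :
    P.real (ev X (⋂ j ∈ A, Φ j)) = ∏ j ∈ A, P.real (ev X (Φ j)) := by
  induction A using Finset.induction_on with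
  | empty => simp [ev]
  | insert a A ha ih =>
    rw [Finset.set_biInter_insert, Finset.prod_insert ha, ← ih]
    refine DepOn.indep hX hind (T := A.biUnion T) ?_ (h a) (DepOn.biInter A fun j hj =>
      (h j).mono (Finset.subset_biUnion_of_mem T hj))
    rw [Finset.disjoint_biUnion_right]
    intro j hj
    exact hT a j fun he => ha (he ▸ hj)

end Pool.Agent.K300
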