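import Pool.Agent.K300.Sup
import Pool.Agent.K300.Cell

/-! The deterministic part: approximation of the polynomial by the target in a cell. -/

open Set

namespace Pool.Agent.K300

/-! ### Elementary facts on a cell -/

lemma le_xl {K : ℕ} (hK : K ≠ 0) {x : ℝ} (hx : x ^ K ≤ 1 / 2) : x ≤ xl K 2 := by
  have h1 := xl_pow hK (ℓ := 2) (by norm_num)
  have h2 := xl_pos K (ℓ := 2) (by norm_num)
  refine le_of_pow_le_pow_left₀ hK h2.le ?_
  rw [h1]; norm_num; linarith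

lemma xl_gap {K : ℕ} (hK : K ≠ 0) : 1 / (2 * (K:ℝ)) ≤ 1 - xl K 2 := by
  have hK' : (1:ℝ) ≤ K := by exact_mod_cast Nat.one_le_iff_ne_zero.2 hK
  have h1 := xl_pow hK (ℓ := 2) (by norm_num)
  have h0 : 1 / (2 * (K:ℝ)) ≤ 1 / 2 := by
    rw [div_le_div_iff₀ (by positivity) (by norm_num)]; linarith
  have h2 := one_add_mul_le_pow (a := -(1 / (2 * (K:ℝ)))) (by linarith) K
  have h3 : (1:ℝ) + K * -(1 / (2 * (K:ℝ))) = 1 / 2 := by field_simp; norm_num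
  have h4 : xl K 2 ≤ 1 + -(1 / (2 * (K:ℝ))) := by
    refine le_of_pow_le_pow_left₀ hK (by linarith) ?_
    have h5 : ((8:ℝ) + 2) / 20 = 1 / 2 := by norm_num
    rw [h1, h5]
    rwa [h3] at h2
  linarith

lemma xl_le_one {K : ℕ} (hK : K ≠ 0) : xl K 2 ≤ 1 := by
  have := xl_gap hK
  have : 0 ≤ 1 / (2 * (K:ℝ)) := by positivity
  linarith

lemma one_sub_le {K : ℕ} (hK : 2 ≤ K) {x : ℝ} (h0 : 0 ≤ x) (hx : 3 / 10 ≤ x ^ K) :
    1 - x ≤ 2 / K := by
  by_contra hc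
  push Not at hc
  have hK' : (2:ℝ) ≤ K := by exact_mod_cast hK
  have h1 : x ^ K ≤ (1 - 2 / (K:ℝ)) ^ K := pow_le_pow_left₀ h0 (by linarith) K
  have h2 := Real.one_sub_div_pow_le_exp_neg (n := K) (t := 2) hK'
  have h3 : Real.exp (-2) < 3 / 10 := by
    rw [Real.exp_neg, inv_lt_comm₀ (Real.exp_pos _) (by norm_num)]
    have h4 := Real.exp_one_gt_d9
    have h5 : Real.exp 2 = Real.exp 1 * Real.exp 1 := by rw [← Real.exp_add]; norm_num
    rw [h5]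
    nlinarith
  linarith

lemma gap_comp {K : ℕ} (hK : 2 ≤ K) {x : ℝ} (h0 : 0 ≤ x) (hx : 3 / 10 ≤ x ^ K) :
    1 - x ≤ 4 * (1 - xl K 2) := by
  have h1 := one_sub_le hK h0 hx
  have h2 := xl_gap (K := K) (by omega)
  have h3 : 4 * (1 / (2 * (K:ℝ))) = 2 / K := by
    have : (K:ℝ) ≠ 0 := by positivity
    field_simp; norm_num
  linarith

/-- a sum of terms over a cell, squared, against the energy -/
lemma cell_sup {K L n : ℕ} (hK : 2 ≤ K) (hL : 2 ≤ L) {S : Finset (ℕ × ℕ)}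
    (hS : ∀ m ∈ S, m.1 ≤ n ∧ m.2 ≤ n) (c : ℕ × ℕ → ℝ) {p : ℝ × ℝ} (hp : p ∈ cellBox K L) :
    (∑ m ∈ S, c m * (p.1 ^ m.1 * p.2 ^ m.2)) ^ 2 ≤ 16 * en n (xl K 2) (xl L 2) S c := by
  obtain ⟨h1, h2, h3, h4⟩ := hp
  exact sup_bound hS c h1 (le_xl (by omega) h3.2) (xl_le_one (by omega)) (gap_comp hK h1 h3.1)
    h2 (le_xl (by omega) h4.2) (xl_le_one (by omega)) (gap_comp hL h2 h4.1)

/-! ### Classes -/

/-- the classes of exponents: blocks and parities -/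
def cls (K L : ℕ) (q : Fin 4 × Fin 4 × Fin 2) : Finset (ℕ × ℕ) :=
  (Finset.Ico ((q.1.val + 1) * K) ((q.1.val + 2) * K) ×ˢ
    Finset.Ico ((q.2.1.val + 1) * L) ((q.2.1.val + 2) * L)).filter
      fun m => (m.1 + m.2) % 2 = q.2.2.val

lemma sum_parity (a i r n : ℕ) (hr : r < 2) :
    ∑ j ∈ Finset.Ico a (a + 2 * n), (if (i + j) % 2 = r then 1 else 0) = n := by
  induction n with
  | zero => simp
  | succ n ih =>
    have e : a + 2 * (n + 1) = (a + 2 * n + 1) + 1 := by ring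
    rw [e, Finset.sum_Ico_succ_top (by omega), Finset.sum_Ico_succ_top (by omega), ih]
    split_ifs <;> omega

lemma two_card_cls {K L : ℕ} (hL : Even L) (q : Fin 4 × Fin 4 × Fin 2) :
    2 * (cls K L q).card = K * L := by
  obtain ⟨L', rfl⟩ := hL
  unfold cls
  rw [Finset.card_filter, Finset.sum_product]
  have h1 : ∀ i ∈ Finset.Ico ((q.1.val + 1) * K) ((q.1.val + 2) * K),
      ∑ j ∈ Finset.Ico ((q.2.1.val + 1) * (L' + L')) ((q.2.1.val + 2) * (L' + L')),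
        (if ((i, j).1 + (i, j).2) % 2 = q.2.2.val then 1 else 0) = L' := by
    intro i _
    have e : (q.2.1.val + 2) * (L' + L') = (q.2.1.val + 1) * (L' + L') + 2 * L' := by ring
    rw [e]
    exact sum_parity _ i _ L' q.2.2.2
  rw [Finset.sum_congr rfl h1, Finset.sum_const, Nat.card_Ico, smul_eq_mul]
  have e : (q.1.val + 2) * K - (q.1.val + 1) * K = K := by
    rw [← Nat.sub_mul]
    have : q.1.val + 2 - (q.1.val + 1) = 1 := by omega
    rw [this, one_mul]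
  rw [e]; ring

/-- the sign pattern of the reflected polynomials -/
noncomputable def sg (m : ℕ × ℕ) : ℝ := -(-1) ^ (m.1 + m.2)

lemma abs_sg (m : ℕ × ℕ) : |sg m| = 1 := by
  unfold sg; rw [abs_neg, abs_pow, abs_neg, abs_one, one_pow]

lemma sg_sq (m : ℕ × ℕ) : sg m ^ 2 = 1 := by
  rw [← sq_abs, abs_sg]; norm_num

noncomputable def sgq (q : Fin 4 × Fin 4 × Fin 2) : ℝ := if q.2.2 = 0 then -1 else 1

lemma abs_sgq (q : Fin 4 × Fin 4 × Fin 2) : |sgq q| = 1 := by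
  unfold sgq; split_ifs <;> simp

lemma sg_cls {K L : ℕ} {q : Fin 4 × Fin 4 × Fin 2} {m : ℕ × ℕ} (hm : m ∈ cls K L q) :
    sg m = sgq q := by
  have h := (Finset.mem_filter.1 hm).2
  unfold sg sgq
  split_ifs with h0
  · rw [h0] at h
    have : Even (m.1 + m.2) := Nat.even_iff.2 h
    rw [this.neg_one_pow]
  · have h1 : q.2.2.val = 1 := by
      have := q.2.2.2
      have : q.2.2.val ≠ 0 := fun h => h0 (Fin.ext h)
      omega
    rw [h1] at h
    have : Odd (m.1 + m.2) := Nat.odd_iff.2 h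
    rw [this.neg_one_pow]; norm_num

lemma cls_disjoint {K L : ℕ} (q q' : Fin 4 × Fin 4 × Fin 2) (h : q ≠ q') :
    Disjoint (cls K L q) (cls K L q') := by
  rw [Finset.disjoint_left]
  intro m hm hm'
  simp only [cls, Finset.mem_filter, Finset.mem_product, Finset.mem_Ico] at hm hm'
  obtain ⟨⟨⟨a1, a2⟩, ⟨a3, a4⟩⟩, a5⟩ := hm
  obtain ⟨⟨⟨b1, b2⟩, ⟨b3, b4⟩⟩, b5⟩ := hm'
  apply h
  have key : ∀ {K x : ℕ} {s t : ℕ}, (s + 1) * K ≤ x → x < (s + 2) * K → (t + 1) * K ≤ x →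
      x < (t + 2) * K → s = t := by
    intro K x s t c1 c2 c3 c4
    by_contra hne
    rcases Nat.lt_or_gt_of_ne hne with h | h
    · have : (s + 2) * K ≤ (t + 1) * K := Nat.mul_le_mul_right _ (by omega)
      omega
    · have : (t + 2) * K ≤ (s + 1) * K := Nat.mul_le_mul_right _ (by omega)
      omega
  refine Prod.ext (Fin.ext (key a1 a2 b1 b2)) (Prod.ext (Fin.ext (key a3 a4 b3 b4)) (Fin.ext ?_))
  rw [← a5, ← b5]

/-- the exponents of degree at most `n` -/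
def tri (n : ℕ) : Finset (ℕ × ℕ) :=
  (Finset.range (n + 1) ×ˢ Finset.range (n + 1)).filter fun m => m.1 + m.2 ≤ n

lemma mem_tri {n : ℕ} {m : ℕ × ℕ} : m ∈ tri n ↔ m.1 + m.2 ≤ n := by
  simp only [tri, Finset.mem_filter, Finset.mem_product, Finset.mem_range]
  constructor
  · exact fun h => h.2
  · intro h
    exact ⟨⟨by omega, by omega⟩, h⟩

/-- the window -/
def Wd (b K L : ℕ) (m : ℕ × ℕ) : Prop :=
  K ≤ m.1 * 2 ^ b ∧ m.1 < K * 2 ^ b ∧ L ≤ m.2 * 2 ^ b ∧ m.2 < L * 2 ^ b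

instance (b K L : ℕ) : DecidablePred (Wd b K L) := fun m => by unfold Wd; infer_instance

/-- all classes -/
def allCls (K L : ℕ) : Finset (ℕ × ℕ) := Finset.univ.biUnion (cls K L)

def restS (n b K L : ℕ) : Finset (ℕ × ℕ) := ((tri n).filter (Wd b K L)) \ allCls K L

def outS (n b K L : ℕ) : Finset (ℕ × ℕ) := (tri n).filter fun m => ¬ Wd b K L m

lemma cls_Wd {b K L : ℕ} (hb : 3 ≤ b) (hK : 0 < K) (hL : 0 < L) {q : Fin 4 × Fin 4 × Fin 2}
    {m : ℕ × ℕ} (hm : m ∈ cls K L q) : Wd b K L m := by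
  simp only [cls, Finset.mem_filter, Finset.mem_product, Finset.mem_Ico] at hm
  obtain ⟨⟨⟨a1, a2⟩, ⟨a3, a4⟩⟩, -⟩ := hm
  have h8 : 8 ≤ 2 ^ b := by
    calc 8 = 2 ^ 3 := by norm_num
      _ ≤ 2 ^ b := Nat.pow_le_pow_right (by norm_num) hb
  have q1 := q.1.2
  have q2 := q.2.1.2
  have key : ∀ {K x s : ℕ}, 0 < K → s < 4 → (s + 1) * K ≤ x → x < (s + 2) * K →
      K ≤ x * 2 ^ b ∧ x < K * 2 ^ b := by
    intro K x s hK hs c1 c2
    have h1 : K ≤ x := le_trans (by nlinarith) c1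
    refine ⟨h1.trans (Nat.le_mul_of_pos_right _ (by positivity)), c2.trans_le ?_⟩
    calc (s + 2) * K ≤ 8 * K := Nat.mul_le_mul_right _ (by omega)
      _ = K * 8 := by ring
      _ ≤ K * 2 ^ b := Nat.mul_le_mul_left _ h8
  obtain ⟨h1, h2⟩ := key hK q1 a1 a2
  obtain ⟨h3, h4⟩ := key hL q2 a3 a4
  exact ⟨h1, h2, h3, h4⟩

lemma cls_tri {n K L : ℕ} (h : 5 * (K + L) ≤ n) {q : Fin 4 × Fin 4 × Fin 2}
    {m : ℕ × ℕ} (hm : m ∈ cls K L q) : m ∈ tri n := by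
  simp only [cls, Finset.mem_filter, Finset.mem_product, Finset.mem_Ico] at hm
  obtain ⟨⟨⟨a1, a2⟩, ⟨a3, a4⟩⟩, -⟩ := hm
  rw [mem_tri]
  have q1 := q.1.2
  have q2 := q.2.1.2
  have h1 : m.1 < 5 * K := a2.trans_le (Nat.mul_le_mul_right _ (by omega))
  have h2 : m.2 < 5 * L := a4.trans_le (Nat.mul_le_mul_right _ (by omega))
  omega

/-- decomposition of the sum over all exponents -/
lemma sum_tri {n b K L : ℕ} (hb : 3 ≤ b) (hK : 0 < K) (hL : 0 < L) (h : 5 * (K + L) ≤ n)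
    (f : ℕ × ℕ → ℝ) : ∑ m ∈ tri n, f m =
      ∑ q, ∑ m ∈ cls K L q, f m + ∑ m ∈ restS n b K L, f m + ∑ m ∈ outS n b K L, f m := by
  have h1 : ∑ m ∈ tri n, f m = ∑ m ∈ (tri n).filter (Wd b K L), f m +
      ∑ m ∈ outS n b K L, f m := (Finset.sum_filter_add_sum_filter_not _ _ _).symm
  have h2 : allCls K L ⊆ (tri n).filter (Wd b K L) := by
    intro m hm
    obtain ⟨q, -, hq⟩ := Finset.mem_biUnion.1 hm
    exact Finset.mem_filter.2 ⟨cls_tri h hq, cls_Wd hb hK hL hq⟩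
  have h3 : ∑ m ∈ (tri n).filter (Wd b K L), f m = ∑ m ∈ restS n b K L, f m +
      ∑ m ∈ allCls K L, f m := (Finset.sum_sdiff h2).symm
  have h4 : ∑ m ∈ allCls K L, f m = ∑ q, ∑ m ∈ cls K L q, f m :=
    Finset.sum_biUnion fun q _ q' _ hqq => cls_disjoint q q' hqq
  rw [h1, h3, h4]; ring

end Pool.Agent.K300
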