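import Pool.Agent.K300.Det

/-! The deterministic part: the polynomial is close to the target in a good cell. -/

open Set

namespace Pool.Agent.K300

/-- the mean of `ξ` over a class -/
noncomputable def cmean (K L : ℕ) (q : Fin 4 × Fin 4 × Fin 2) (ξ : ℕ × ℕ → ℝ) : ℝ :=
  (∑ m ∈ cls K L q, ξ m) / (cls K L q).card

/-- conditions on the coefficients of one component which imply that it is close to the target -/
structure Good (n b K L : ℕ) (M : ℝ) (tgt : Fin 4 → Fin 4 → ℝ) (ξ : ℕ × ℕ → ℝ) : Prop where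
  mean : ∀ q : Fin 4 × Fin 4 × Fin 2,
    |sgq q * cmean K L q ξ * √((K * L : ℕ) : ℝ) - tgt q.1 q.2.1| ≤ 1
  fluct : ∀ q : Fin 4 × Fin 4 × Fin 2,
    en n (xl K 2) (xl L 2) (cls K L q) (fun m => ξ m - cmean K L q ξ) ≤ 8 * (cls K L q).card
  rest : en n (xl K 2) (xl L 2) (restS n b K L) (fun m => sg m * ξ m) ≤ 8 * (K * L : ℕ)
  out : en n (xl K 2) (xl L 2) (outS n b K L) (fun m => sg m * ξ m) ≤ (K * L : ℕ)
  off : ∀ p ∈ cellBox K L, |M * ∑ m ∈ tri n, sg m * (p.1 ^ m.1 * p.2 ^ m.2)| ≤ √((K * L : ℕ) : ℝ)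

/-- the block average of the powers -/
noncomputable def avg (K : ℕ) (x : ℝ) : ℝ := (∑ i ∈ Finset.range K, x ^ i) / K

lemma le_one_of_pow {K : ℕ} (hK : K ≠ 0) {x : ℝ} (hx : x ^ K ≤ 1 / 2) : x ≤ 1 :=
  (le_xl hK hx).trans (xl_le_one hK)

lemma avg_ge {K : ℕ} (hK : K ≠ 0) {x : ℝ} (h0 : 0 ≤ x) (hx : x ^ K ∈ Icc (3 / 10 : ℝ) (1 / 2)) :
    3 / 10 ≤ avg K x := by
  have hK' : (0:ℝ) < K := by positivity
  unfold avg
  rw [le_div_iff₀ hK']
  have h1 : ∀ i ∈ Finset.range K, (3 / 10 : ℝ) ≤ x ^ i := fun i hi =>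
    hx.1.trans (pow_le_pow_of_le_one h0 (le_one_of_pow hK hx.2) (Finset.mem_range.1 hi).le)
  have := Finset.sum_le_sum h1
  simp only [Finset.sum_const, Finset.card_range, nsmul_eq_mul] at this
  linarith

lemma sum_block (K a : ℕ) (x : ℝ) :
    ∑ i ∈ Finset.Ico ((a + 1) * K) ((a + 2) * K), x ^ i =
      (x ^ K) ^ (a + 1) * ∑ i ∈ Finset.range K, x ^ i := by
  rw [Finset.sum_Ico_eq_sum_range]
  have e : (a + 2) * K - (a + 1) * K = K := by
    rw [← Nat.sub_mul]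
    have : a + 2 - (a + 1) = 1 := by omega
    rw [this, one_mul]
  rw [e, Finset.mul_sum]
  refine Finset.sum_congr rfl fun i _ => ?_
  rw [pow_add, ← pow_mul, mul_comm K (a + 1)]

/-- the sum of the class sums, weighted by the target coefficients -/
lemma sum_cls (K L : ℕ) (hK : K ≠ 0) (hL : L ≠ 0) (tgt : Fin 4 → Fin 4 → ℝ) (x y : ℝ) :
    ∑ q : Fin 4 × Fin 4 × Fin 2, tgt q.1 q.2.1 / (K * L : ℕ) *
      ∑ m ∈ cls K L q, x ^ m.1 * y ^ m.2 =
      avg K x * avg L y *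
        ∑ a : Fin 4, ∑ b : Fin 4, tgt a b * ((x ^ K) ^ (a.val + 1) * (y ^ L) ^ (b.val + 1)) := by
  have hK' : (K:ℝ) ≠ 0 := by exact_mod_cast hK
  have hL' : (L:ℝ) ≠ 0 := by exact_mod_cast hL
  rw [Fintype.sum_prod_type, Finset.mul_sum]
  refine Finset.sum_congr rfl fun a _ => ?_
  rw [Fintype.sum_prod_type, Finset.mul_sum]
  refine Finset.sum_congr rfl fun b _ => ?_
  simp only [← Finset.mul_sum]
  have h1 : ∑ r : Fin 2, ∑ m ∈ cls K L (a, b, r), x ^ m.1 * y ^ m.2 =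
      (∑ i ∈ Finset.Ico ((a.val + 1) * K) ((a.val + 2) * K), x ^ i) *
        ∑ j ∈ Finset.Ico ((b.val + 1) * L) ((b.val + 2) * L), y ^ j := by
    rw [Finset.sum_mul_sum, ← Finset.sum_product', Fin.sum_univ_two]
    unfold cls
    have h2 := Finset.sum_filter_add_sum_filter_not
      (Finset.Ico ((a.val + 1) * K) ((a.val + 2) * K) ×ˢ
        Finset.Ico ((b.val + 1) * L) ((b.val + 2) * L))
      (fun m : ℕ × ℕ => (m.1 + m.2) % 2 = 0) (fun m : ℕ × ℕ => x ^ m.1 * y ^ m.2)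
    rw [← h2]
    congr 1
    refine Finset.sum_congr (Finset.filter_congr fun m _ => ?_) fun _ _ => rfl
    simp only [Fin.val_one]
    omega
  rw [h1, sum_block, sum_block]
  unfold avg
  push_cast
  field_simp

/-- a good component is close to the target -/
theorem Good.near {n b K L : ℕ} {M : ℝ} {tgt : Fin 4 → Fin 4 → ℝ} {ξ : ℕ × ℕ → ℝ}
    (h : Good n b K L M tgt ξ) (hb : 3 ≤ b) (hK : 2 ≤ K) (hL : 2 ≤ L) (hLe : Even L)
    (hn : 5 * (K + L) ≤ n) {p : ℝ × ℝ} (hp : p ∈ cellBox K L) :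
    |∑ m ∈ tri n, sg m * (ξ m + M) * (p.1 ^ m.1 * p.2 ^ m.2) -
      √((K * L : ℕ) : ℝ) * (avg K p.1 * avg L p.2 * ∑ a : Fin 4, ∑ b : Fin 4,
        tgt a b * ((p.1 ^ K) ^ (a.val + 1) * (p.2 ^ L) ^ (b.val + 1)))| ≤
      289 * √((K * L : ℕ) : ℝ) := by
  have hKL : (0:ℝ) < ((K * L : ℕ) : ℝ) := by
    have : 0 < K * L := Nat.mul_pos (by omega) (by omega)
    exact_mod_cast this
  set Λ := √((K * L : ℕ) : ℝ) with hΛ
  have hΛ0 : 0 < Λ := Real.sqrt_pos.2 hKL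
  have hΛsq : Λ ^ 2 = ((K * L : ℕ) : ℝ) := Real.sq_sqrt hKL.le
  obtain ⟨hp1, hp2, hp3, hp4⟩ := hp
  have hx1 : p.1 ≤ 1 := le_one_of_pow (by omega) hp3.2
  have hy1 : p.2 ≤ 1 := le_one_of_pow (by omega) hp4.2
  set f : ℕ × ℕ → ℝ := fun m => p.1 ^ m.1 * p.2 ^ m.2 with hf
  have hf0 : ∀ m, 0 ≤ f m := fun m => mul_nonneg (pow_nonneg hp1 _) (pow_nonneg hp2 _)
  have hf1 : ∀ m, f m ≤ 1 := fun m => mul_le_one₀ (pow_le_one₀ hp1 hx1) (pow_nonneg hp2 _)
    (pow_le_one₀ hp2 hy1)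
  have hcard : ∀ q, 2 * ((cls K L q).card : ℝ) = ((K * L : ℕ) : ℝ) := fun q => by
    exact_mod_cast two_card_cls hLe q
  have hStri : ∀ S : Finset (ℕ × ℕ), S ⊆ tri n → ∀ m ∈ S, m.1 ≤ n ∧ m.2 ≤ n := by
    intro S hS m hm
    have := mem_tri.1 (hS hm)
    omega
  -- decomposition
  have e1 : ∑ m ∈ tri n, sg m * (ξ m + M) * f m =
      ∑ m ∈ tri n, sg m * ξ m * f m + M * ∑ m ∈ tri n, sg m * f m := by
    rw [Finset.mul_sum, ← Finset.sum_add_distrib]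
    refine Finset.sum_congr rfl fun m _ => by ring
  have e2 := sum_tri hb (by omega) (by omega) hn (fun m => sg m * ξ m * f m)
  have e3 : ∀ q : Fin 4 × Fin 4 × Fin 2, ∑ m ∈ cls K L q, sg m * ξ m * f m =
      sgq q * cmean K L q ξ * ∑ m ∈ cls K L q, f m +
      sgq q * ∑ m ∈ cls K L q, (ξ m - cmean K L q ξ) * f m := by
    intro q
    rw [Finset.mul_sum, Finset.mul_sum, ← Finset.sum_add_distrib]
    refine Finset.sum_congr rfl fun m hm => ?_
    rw [sg_cls hm]; ring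
  -- the four errors
  have b1 : |∑ q : Fin 4 × Fin 4 × Fin 2, sgq q * cmean K L q ξ * ∑ m ∈ cls K L q, f m -
      Λ * ∑ q : Fin 4 × Fin 4 × Fin 2, tgt q.1 q.2.1 / (K * L : ℕ) * ∑ m ∈ cls K L q, f m| ≤
      16 * Λ := by
    rw [Finset.mul_sum, ← Finset.sum_sub_distrib]
    refine (Finset.abs_sum_le_sum_abs _ _).trans ?_
    have h1 : ∀ q ∈ (Finset.univ : Finset (Fin 4 × Fin 4 × Fin 2)),
        |sgq q * cmean K L q ξ * ∑ m ∈ cls K L q, f m -
          Λ * (tgt q.1 q.2.1 / (K * L : ℕ) * ∑ m ∈ cls K L q, f m)| ≤ Λ / 2 := by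
      intro q _
      have h2 : sgq q * cmean K L q ξ * ∑ m ∈ cls K L q, f m -
          Λ * (tgt q.1 q.2.1 / (K * L : ℕ) * ∑ m ∈ cls K L q, f m) =
          (sgq q * cmean K L q ξ * Λ - tgt q.1 q.2.1) * ((∑ m ∈ cls K L q, f m) / Λ) := by
        rw [← hΛsq]; field_simp
      rw [h2, abs_mul]
      have h3 : 0 ≤ ∑ m ∈ cls K L q, f m := Finset.sum_nonneg fun m _ => hf0 m
      have h4 : ∑ m ∈ cls K L q, f m ≤ (cls K L q).card := by
        have := Finset.sum_le_sum (s := cls K L q) fun m _ => hf1 m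
        simpa using this
      have h5 : (∑ m ∈ cls K L q, f m) / Λ ≤ Λ / 2 := by
        rw [div_le_div_iff₀ hΛ0 (by norm_num)]
        nlinarith [hcard q]
      rw [abs_of_nonneg (div_nonneg h3 hΛ0.le)]
      calc _ ≤ 1 * ((∑ m ∈ cls K L q, f m) / Λ) :=
            mul_le_mul_of_nonneg_right (h.mean q) (div_nonneg h3 hΛ0.le)
        _ ≤ _ := by linarith
    refine (Finset.sum_le_sum h1).trans ?_
    simp only [Finset.sum_const, Finset.card_univ, Fintype.card_prod, Fintype.card_fin,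
      nsmul_eq_mul]
    push_cast
    linarith
  have b2 : |∑ q : Fin 4 × Fin 4 × Fin 2, sgq q * ∑ m ∈ cls K L q, (ξ m - cmean K L q ξ) * f m| ≤
      256 * Λ := by
    refine (Finset.abs_sum_le_sum_abs _ _).trans ?_
    have h1 : ∀ q ∈ (Finset.univ : Finset (Fin 4 × Fin 4 × Fin 2)),
        |sgq q * ∑ m ∈ cls K L q, (ξ m - cmean K L q ξ) * f m| ≤ 8 * Λ := by
      intro q _
      rw [abs_mul, abs_sgq, one_mul]
      have h2 := cell_sup hK hL (hStri (cls K L q) fun m hm => cls_tri hn hm)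
        (fun m => ξ m - cmean K L q ξ) (p := p) ⟨hp1, hp2, hp3, hp4⟩
      have h3 := h.fluct q
      refine abs_le_of_sq_le_sq ?_ (by positivity)
      have h4 := hcard q
      calc _ ≤ _ := h2
        _ ≤ (8 * Λ) ^ 2 := by rw [mul_pow, hΛsq]; linarith
    refine (Finset.sum_le_sum h1).trans ?_
    simp only [Finset.sum_const, Finset.card_univ, Fintype.card_prod, Fintype.card_fin,
      nsmul_eq_mul]
    push_cast
    linarith
  have b3 : |∑ m ∈ restS n b K L, sg m * ξ m * f m| ≤ 12 * Λ := by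
    have h2 := cell_sup hK hL (hStri (restS n b K L)
      ((Finset.sdiff_subset).trans (Finset.filter_subset _ _)))
      (fun m => sg m * ξ m) (p := p) ⟨hp1, hp2, hp3, hp4⟩
    refine abs_le_of_sq_le_sq ?_ (by positivity)
    calc _ ≤ _ := h2
      _ ≤ (12 * Λ) ^ 2 := by rw [mul_pow, hΛsq]; linarith [h.rest]
  have b4 : |∑ m ∈ outS n b K L, sg m * ξ m * f m| ≤ 4 * Λ := by
    have h2 := cell_sup hK hL (hStri (outS n b K L) (Finset.filter_subset _ _))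
      (fun m => sg m * ξ m) (p := p) ⟨hp1, hp2, hp3, hp4⟩
    refine abs_le_of_sq_le_sq ?_ (by positivity)
    calc _ ≤ _ := h2
      _ ≤ (4 * Λ) ^ 2 := by rw [mul_pow, hΛsq]; linarith [h.out]
  have b5 : |M * ∑ m ∈ tri n, sg m * f m| ≤ Λ := h.off p ⟨hp1, hp2, hp3, hp4⟩
  have e4 := sum_cls K L (by omega) (by omega) tgt p.1 p.2
  rw [← e4]
  have e5 : ∑ m ∈ tri n, sg m * (ξ m + M) * (p.1 ^ m.1 * p.2 ^ m.2) =
      ∑ m ∈ tri n, sg m * (ξ m + M) * f m := rfl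
  rw [e5, e1, e2, Finset.sum_congr rfl fun q _ => e3 q, Finset.sum_add_distrib]
  have e6 : ∑ q : Fin 4 × Fin 4 × Fin 2, tgt q.1 q.2.1 / (K * L : ℕ) *
      ∑ m ∈ cls K L q, p.1 ^ m.1 * p.2 ^ m.2 =
      ∑ q : Fin 4 × Fin 4 × Fin 2, tgt q.1 q.2.1 / (K * L : ℕ) * ∑ m ∈ cls K L q, f m := rfl
  rw [e6]
  rw [abs_le] at b1 b2 b3 b4 b5 ⊢
  constructor <;> linarith [b1.1, b1.2, b2.1, b2.2, b3.1, b3.2, b4.1, b4.2, b5.1, b5.2]

/-- the scale of the target -/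
noncomputable def hh : ℝ := 2000000

/-- target coefficients of the first component -/
noncomputable def tgt0 (a b : Fin 4) : ℝ :=
  hh * (![![1932 / 5, 20, 0, 0], ![-3034, 0, 0, 0], ![7680, 0, 0, 0], ![-6400, 0, 0, 0]] a b)

/-- target coefficients of the second component -/
noncomputable def tgt1 (a b : Fin 4) : ℝ :=
  hh * (![![2012 / 5, -3034, 7680, -6400], ![-20, 0, 0, 0], ![0, 0, 0, 0], ![0, 0, 0, 0]] a b)

lemma sum_tgt0 (X Y : ℝ) : ∑ a : Fin 4, ∑ b : Fin 4,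
    tgt0 a b * (X ^ (a.val + 1) * Y ^ (b.val + 1)) =
      hh * (X * Y * tp (20 * X - 8) (20 * Y - 8)) := by
  simp only [tgt0, Fin.sum_univ_four, tp]
  simp
  ring

lemma sum_tgt1 (X Y : ℝ) : ∑ a : Fin 4, ∑ b : Fin 4,
    tgt1 a b * (X ^ (a.val + 1) * Y ^ (b.val + 1)) =
      hh * (X * Y * tq (20 * X - 8) (20 * Y - 8)) := by
  simp only [tgt1, Fin.sum_univ_four, tq]
  simp
  ring

end Pool.Agent.K300
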