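import Pool.Agent.K300.Det2

/-! A good cell contains a limit cycle. -/

open Set

namespace Pool.Agent.K300

lemma closedOrbit_neg {V : ℝ × ℝ → ℝ × ℝ} {C : Set (ℝ × ℝ)}
    (h : ClosedOrbit (fun p => -V (-p)) C) : ClosedOrbit V (Neg.neg '' C) := by
  obtain ⟨γ, T, hT, hd, hp, ⟨s, t, hst⟩, rfl⟩ := h
  refine ⟨fun t => -γ t, T, hT, fun t => ?_, fun t => by simp only [hp], ⟨s, t, ?_⟩, ?_⟩
  · have := (hd t).neg
    simp only [neg_neg] at this
    exact this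
  · intro h; exact hst (neg_injective h)
  · rw [← range_comp]; rfl

lemma limitCycle_neg {V : ℝ × ℝ → ℝ × ℝ} {C : Set (ℝ × ℝ)}
    (h : LimitCycle (fun p => -V (-p)) C) : LimitCycle V (Neg.neg '' C) := by
  obtain ⟨hC, U, hU, hCU, hiso⟩ := h
  refine ⟨closedOrbit_neg hC, Neg.neg ⁻¹' U, hU.preimage continuous_neg, ?_, ?_⟩
  · rintro _ ⟨p, hp, rfl⟩
    simpa using hCU hp
  · rintro D hD ⟨v, hv, hvU⟩
    have hD' : ClosedOrbit (fun p => -(fun q => -V (-q)) (-p)) D := by simpa using hD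
    have h1 := closedOrbit_neg (V := fun q => -V (-q)) (C := D) hD'
    have h2 := hiso _ h1 ⟨-v, ⟨v, hv, rfl⟩, hvU⟩
    rw [← h2, ← image_comp]
    simp

/-- the random field -/
noncomputable def fieldP (n : ℕ) (a b : ℕ × ℕ → ℝ) (p : ℝ × ℝ) : ℝ × ℝ :=
  (∑ m ∈ tri n, a m * (p.1 ^ m.1 * p.2 ^ m.2), ∑ m ∈ tri n, b m * (p.1 ^ m.1 * p.2 ^ m.2))

lemma polyF_sg (n : ℕ) (a b : ℕ × ℕ → ℝ) :
    polyF (tri n) (fun m => sg m * a m) (fun m => sg m * b m) = fun p => -fieldP n a b (-p) := by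
  ext1 p
  have key : ∀ a : ℕ × ℕ → ℝ, ∑ m ∈ tri n, sg m * a m * (p.1 ^ m.1 * p.2 ^ m.2) =
      -∑ m ∈ tri n, a m * ((-p.1) ^ m.1 * (-p.2) ^ m.2) := by
    intro a
    rw [← Finset.sum_neg_distrib]
    refine Finset.sum_congr rfl fun m _ => ?_
    unfold sg
    rw [neg_pow p.1, neg_pow p.2, pow_add]
    ring
  exact Prod.ext (key a) (key b)

/-- **A good cell contains a limit cycle.** -/
theorem good_limitCycle {n₀ n b K L : ℕ} {M M' σ σ' : ℝ} (hσ : 0 < σ) (hσ' : 0 < σ')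
    {ξ η : ℕ × ℕ → ℝ} (h0 : Good n₀ b K L M tgt0 ξ) (h1 : Good n₀ b K L M' tgt1 η) (hb : 3 ≤ b)
    (hK : 2 ≤ K) (hL : 2 ≤ L) (hLe : Even L) (hn : 5 * (K + L) ≤ n₀) (hn₀ : n₀ ≤ n)
    (t0 : ∀ p ∈ cellBox K L, |∑ m ∈ tri n \ tri n₀, sg m * (ξ m + M) *
      (p.1 ^ m.1 * p.2 ^ m.2)| ≤ √((K * L : ℕ) : ℝ))
    (t1 : ∀ p ∈ cellBox K L, |∑ m ∈ tri n \ tri n₀, sg m * (η m + M') *
      (p.1 ^ m.1 * p.2 ^ m.2)| ≤ √((K * L : ℕ) : ℝ)) :
    ∃ C, LimitCycle (fieldP n (fun m => σ * (ξ m + M)) (fun m => σ' * (η m + M'))) C ∧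
      ∀ p ∈ C, -p ∈ cellBox K L := by
  have hKL : (0:ℝ) < ((K * L : ℕ) : ℝ) := by
    have : 0 < K * L := Nat.mul_pos (by omega) (by omega)
    exact_mod_cast this
  set Λ := √((K * L : ℕ) : ℝ) with hΛ
  have hΛ0 : 0 < Λ := Real.sqrt_pos.2 hKL
  have hsub : tri n₀ ⊆ tri n := by
    intro m hm
    rw [mem_tri] at hm ⊢
    omega
  have hfac : ∀ p ∈ cellBox K L, ∀ t : ℝ, ∀ E : ℝ, |E - Λ * (avg K p.1 * avg L p.2 *
      (hh * (p.1 ^ K * p.2 ^ L * t)))| ≤ 290 * Λ → (mg ≤ t → 0 < E) ∧ (t ≤ -mg → E < 0) := by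
    intro p hp t E hE
    obtain ⟨hp1, hp2, hp3, hp4⟩ := hp
    have g1 := avg_ge (K := K) (by omega) hp1 hp3
    have g2 := avg_ge (K := L) (by omega) hp2 hp4
    have w : (3 / 10 : ℝ) ^ 4 ≤ avg K p.1 * avg L p.2 * (p.1 ^ K * p.2 ^ L) := by
      calc (3 / 10 : ℝ) ^ 4 = (3 / 10) * (3 / 10) * ((3 / 10) * (3 / 10)) := by norm_num
        _ ≤ _ := by
          refine mul_le_mul (mul_le_mul g1 g2 (by norm_num) (by linarith))
            (mul_le_mul hp3.1 hp4.1 (by norm_num) (by linarith [hp3.1])) (by norm_num) ?_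
          exact mul_nonneg (by linarith) (by linarith)
    set w' := avg K p.1 * avg L p.2 * (p.1 ^ K * p.2 ^ L) with hw'
    have e : Λ * (avg K p.1 * avg L p.2 * (hh * (p.1 ^ K * p.2 ^ L * t))) =
        Λ * (hh * (w' * t)) := by rw [hw']; ring
    rw [e, abs_le] at hE
    constructor
    · intro ht
      have h2 : (3 / 10 : ℝ) ^ 4 * mg ≤ w' * t := mul_le_mul w ht (by unfold mg; norm_num)
        (by linarith [show (0:ℝ) < (3 / 10) ^ 4 by norm_num])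
      have h3 : 500 ≤ hh * (w' * t) := by
        unfold hh
        unfold mg at h2
        norm_num at h2
        linarith
      have h4 : Λ * 500 ≤ Λ * (hh * (w' * t)) := mul_le_mul_of_nonneg_left h3 hΛ0.le
      linarith [hE.1]
    · intro ht
      have h2 : (3 / 10 : ℝ) ^ 4 * mg ≤ w' * (-t) := mul_le_mul w (by linarith)
        (by unfold mg; norm_num) (by linarith [show (0:ℝ) < (3 / 10) ^ 4 by norm_num])
      have h3 : hh * (w' * t) ≤ -500 := by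
        unfold hh
        unfold mg at h2
        norm_num at h2
        linarith
      have h4 : Λ * (hh * (w' * t)) ≤ Λ * (-500) := mul_le_mul_of_nonneg_left h3 hΛ0.le
      linarith [hE.2]
  set A : ℕ × ℕ → ℝ := fun m => sg m * (σ * (ξ m + M)) with hA
  set B : ℕ × ℕ → ℝ := fun m => sg m * (σ' * (η m + M')) with hB
  have hP : ∀ p, (polyF (tri n) A B p).1 =
      σ * ∑ m ∈ tri n, sg m * (ξ m + M) * (p.1 ^ m.1 * p.2 ^ m.2) := by
    intro p
    simp only [polyF, hA]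
    rw [Finset.mul_sum]
    exact Finset.sum_congr rfl fun m _ => by ring
  have hQ : ∀ p, (polyF (tri n) A B p).2 =
      σ' * ∑ m ∈ tri n, sg m * (η m + M') * (p.1 ^ m.1 * p.2 ^ m.2) := by
    intro p
    simp only [polyF, hB]
    rw [Finset.mul_sum]
    exact Finset.sum_congr rfl fun m _ => by ring
  have n0 : ∀ p ∈ cellBox K L, |∑ m ∈ tri n, sg m * (ξ m + M) * (p.1 ^ m.1 * p.2 ^ m.2) -
      Λ * (avg K p.1 * avg L p.2 * (hh * (p.1 ^ K * p.2 ^ L *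
        tp (20 * p.1 ^ K - 8) (20 * p.2 ^ L - 8))))| ≤ 290 * Λ := by
    intro p hp
    have g1 := h0.near hb hK hL hLe hn hp
    rw [sum_tgt0] at g1
    have g2 := t0 p hp
    rw [← Finset.sum_sdiff hsub]
    rw [abs_le] at g1 g2 ⊢
    constructor <;> linarith [g1.1, g1.2, g2.1, g2.2]
  have n1 : ∀ p ∈ cellBox K L, |∑ m ∈ tri n, sg m * (η m + M') * (p.1 ^ m.1 * p.2 ^ m.2) -
      Λ * (avg K p.1 * avg L p.2 * (hh * (p.1 ^ K * p.2 ^ L *
        tq (20 * p.1 ^ K - 8) (20 * p.2 ^ L - 8))))| ≤ 290 * Λ := by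
    intro p hp
    have g1 := h1.near hb hK hL hLe hn hp
    rw [sum_tgt1] at g1
    have g2 := t1 p hp
    rw [← Finset.sum_sdiff hsub]
    rw [abs_le] at g1 g2 ⊢
    constructor <;> linarith [g1.1, g1.2, g2.1, g2.2]
  have hex : ∃ C, LimitCycle (polyF (tri n) A B) C ∧ C ⊆ cellBox K L := by
    refine cell_limitCycle (by omega) (by omega) ?_ ?_ ?_ ?_ <;> intro p hp ht
    · rw [hP]
      exact mul_pos hσ ((hfac p hp _ _ (n0 p hp)).1 ht)
    · rw [hP]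
      exact mul_neg_of_pos_of_neg hσ ((hfac p hp _ _ (n0 p hp)).2 ht)
    · rw [hQ]
      exact mul_pos hσ' ((hfac p hp _ _ (n1 p hp)).1 ht)
    · rw [hQ]
      exact mul_neg_of_pos_of_neg hσ' ((hfac p hp _ _ (n1 p hp)).2 ht)
  obtain ⟨C, hC, hCb⟩ := hex
  rw [polyF_sg] at hC
  refine ⟨Neg.neg '' C, limitCycle_neg hC, ?_⟩
  rintro _ ⟨p, hp, rfl⟩
  rw [neg_neg]
  exact hCb hp

/-- boxes of different cells are disjoint -/
lemma cellBox_disjoint {k l k' l' : ℕ} {p : ℝ × ℝ} (h : p ∈ cellBox (2 ^ k) (2 ^ l))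
    (h' : p ∈ cellBox (2 ^ k') (2 ^ l')) : k = k' ∧ l = l' := by
  have key : ∀ {x : ℝ} {k k' : ℕ}, x ^ (2 ^ k) ∈ Icc (3 / 10 : ℝ) (1 / 2) →
      x ^ (2 ^ k') ∈ Icc (3 / 10 : ℝ) (1 / 2) → k < k' → False := by
    intro x k k' h1 h2 hlt
    obtain ⟨d, rfl⟩ := Nat.exists_eq_add_of_lt hlt
    have e : 2 ^ (k + d + 1) = 2 ^ k * (2 * 2 ^ d) := by ring
    rw [e, pow_mul] at h2
    have h3 : (x ^ (2 ^ k)) ^ (2 * 2 ^ d) ≤ (x ^ (2 ^ k)) ^ 2 :=
      pow_le_pow_of_le_one (by linarith [h1.1]) (by linarith [h1.2])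
        (by have := Nat.one_le_two_pow (n := d); omega)
    have h4 : (x ^ (2 ^ k)) ^ 2 ≤ (1 / 2) ^ 2 := pow_le_pow_left₀ (by linarith [h1.1]) h1.2 2
    have := h2.1
    norm_num at h4
    linarith
  obtain ⟨-, -, h3, h4⟩ := h
  obtain ⟨-, -, h3', h4'⟩ := h'
  constructor
  · rcases lt_trichotomy k k' with h | h | h
    · exact (key h3 h3' h).elim
    · exact h
    · exact (key h3' h3 h).elim
  · rcases lt_trichotomy l l' with h | h | h
    · exact (key h4 h4' h).elim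
    · exact h
    · exact (key h4' h4 h).elim

end Pool.Agent.K300
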