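import Pool.Agent.K300.Clt

/-! Fluctuations around the empirical mean, conditionally on a symmetric event. -/

open Set Filter Topology MeasureTheory ProbabilityTheory
open scoped ENNReal

set_option linter.unusedSectionVars false

namespace Pool.Agent.K300

variable {κ : Type} [Fintype κ] [DecidableEq κ] {ν : Measure ℝ} [IsProbabilityMeasure ν]

lemma map_perm (π : Equiv.Perm κ) :
    (Measure.pi (fun _ : κ => ν)).map (fun x k => x (π k)) = Measure.pi (fun _ : κ => ν) := by
  refine map_family (X := fun (i : κ) (x : κ → ℝ) => x i) (fun i => measurable_pi_apply i) ?_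
    (fun i => (measurePreserving_eval (fun _ : κ => ν) (π i)).map_eq) π.injective
  exact iIndepFun_pi (X := fun (_ : κ) (t : ℝ) => t) (μ := fun _ : κ => ν)
    (fun i => aemeasurable_id)

/-- symmetric events -/
def Sym (A : Set (κ → ℝ)) : Prop := ∀ (π : Equiv.Perm κ) (x : κ → ℝ), (fun k => x (π k)) ∈ A ↔ x ∈ A

/-- the second moments on `A` -/
noncomputable def mom (ν : Measure ℝ) (A : Set (κ → ℝ)) (m m' : κ) : ℝ :=
  ∫ x in A, x m * x m' ∂(Measure.pi (fun _ : κ => ν))

lemma mom_perm {A : Set (κ → ℝ)} (hA : MeasurableSet A) (hs : Sym A) (π : Equiv.Perm κ)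
    (m m' : κ) : mom ν A (π m) (π m') = mom ν A m m' := by
  unfold mom
  rw [← integral_indicator hA, ← integral_indicator hA]
  have h1 : Measurable (A.indicator fun x : κ → ℝ => x m * x m') :=
    (by fun_prop : Measurable fun x : κ → ℝ => x m * x m').indicator hA
  have h2 : AEMeasurable (fun (x : κ → ℝ) k => x (π k)) (Measure.pi (fun _ : κ => ν)) :=
    (by fun_prop : Measurable fun (x : κ → ℝ) k => x (π k)).aemeasurable
  conv_rhs => rw [← map_perm (ν := ν) π]
  rw [integral_map h2 h1.aestronglyMeasurable]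
  refine integral_congr_ae (ae_of_all _ fun x => ?_)
  by_cases hx : x ∈ A
  · have hx' := (hs π x).2 hx
    simp only [indicator_of_mem hx, indicator_of_mem hx']
  · have hx' := fun h => hx ((hs π x).1 h)
    simp only [indicator_of_notMem hx, indicator_of_notMem hx']

lemma mom_comm (A : Set (κ → ℝ)) (m m' : κ) : mom ν A m m' = mom ν A m' m := by
  unfold mom
  simp only [mul_comm]

lemma mom_diag {A : Set (κ → ℝ)} (hA : MeasurableSet A) (hs : Sym A) (m m' : κ) :
    mom ν A m m = mom ν A m' m' := by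
  have := mom_perm (ν := ν) hA hs (Equiv.swap m m') m m
  rw [Equiv.swap_apply_left] at this
  exact this.symm

lemma exists_perm {m m' n n' : κ} (h : m ≠ m') (h' : n ≠ n') :
    ∃ π : Equiv.Perm κ, π m = n ∧ π m' = n' := by
  set σ := Equiv.swap m n with hσ
  have h1 : σ m = n := Equiv.swap_apply_left m n
  have h2 : σ m' ≠ n := by
    rw [← h1]; exact fun he => h (σ.injective he).symm
  refine ⟨σ.trans (Equiv.swap (σ m') n'), ?_, ?_⟩
  · rw [Equiv.trans_apply, h1, Equiv.swap_apply_of_ne_of_ne h2.symm h']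
  · rw [Equiv.trans_apply, Equiv.swap_apply_left]

lemma mom_off {A : Set (κ → ℝ)} (hA : MeasurableSet A) (hs : Sym A) {m m' n n' : κ} (h : m ≠ m')
    (h' : n ≠ n') : mom ν A m m' = mom ν A n n' := by
  obtain ⟨π, h1, h2⟩ := exists_perm h h'
  have := mom_perm (ν := ν) hA hs π m m'
  rw [h1, h2] at this
  exact this.symm

lemma integrable_sq (hν : Integrable (fun x : ℝ => x ^ 2) ν) (m : κ) :
    Integrable (fun x : κ → ℝ => x m ^ 2) (Measure.pi (fun _ : κ => ν)) :=
  (measurePreserving_eval (fun _ : κ => ν) m).integrable_comp_of_integrable hν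

lemma integrable_prod (hν : Integrable (fun x : ℝ => x ^ 2) ν) (m m' : κ) :
    Integrable (fun x : κ → ℝ => x m * x m') (Measure.pi (fun _ : κ => ν)) := by
  refine Integrable.mono' ((integrable_sq hν m).add (integrable_sq hν m'))
    (by fun_prop : Measurable fun x : κ → ℝ => x m * x m').aestronglyMeasurable
    (ae_of_all _ fun x => ?_)
  simp only [Real.norm_eq_abs, abs_mul, Pi.add_apply]
  nlinarith [sq_nonneg (|x m| - |x m'|), sq_abs (x m), sq_abs (x m'), sq_nonneg (x m),
    sq_nonneg (x m')]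

lemma abs_mom_le (hν : Integrable (fun x : ℝ => x ^ 2) ν) {A : Set (κ → ℝ)}
    (hA : MeasurableSet A) (hs : Sym A) (m m' : κ) : |mom ν A m m'| ≤ mom ν A m m := by
  have h1 : mom ν A m m = ∫ x in A, (x m ^ 2 + x m' ^ 2) / 2 ∂(Measure.pi (fun _ : κ => ν)) := by
    have e : (fun x : κ → ℝ => (x m ^ 2 + x m' ^ 2) / 2) =
        fun x => (1 / 2 : ℝ) * (x m * x m) + (1 / 2 : ℝ) * (x m' * x m') := by
      ext x; ring
    rw [e, integral_add ((integrable_prod hν m m).integrableOn.const_mul _)
      ((integrable_prod hν m' m').integrableOn.const_mul _), integral_const_mul, integral_const_mul]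
    have := mom_diag (ν := ν) hA hs m m'
    unfold mom at this ⊢
    rw [← this]; ring
  rw [h1]
  unfold mom
  refine (abs_integral_le_integral_abs).trans ?_
  refine integral_mono (integrable_prod hν m m').integrableOn.abs
    (((integrable_sq hν m).integrableOn.add (integrable_sq hν m').integrableOn).div_const 2)
    fun x => ?_
  simp only [abs_mul]
  nlinarith [sq_nonneg (|x m| - |x m'|), sq_abs (x m), sq_abs (x m')]

lemma sum_sq_expand (A : Set (κ → ℝ)) (hν : Integrable (fun x : ℝ => x ^ 2) ν) (b : κ → ℝ) :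
    ∫ x in A, (∑ m, b m * x m) ^ 2 ∂(Measure.pi (fun _ : κ => ν)) =
      ∑ m, ∑ m', b m * b m' * mom ν A m m' := by
  have e : (fun x : κ → ℝ => (∑ m, b m * x m) ^ 2) =
      fun x => ∑ m, ∑ m', b m * b m' * (x m * x m') := by
    ext x
    rw [sq, Finset.sum_mul_sum]
    refine Finset.sum_congr rfl fun m _ => Finset.sum_congr rfl fun m' _ => ?_
    ring
  rw [e, integral_finsetSum _ fun m _ => integrable_finsetSum _ fun m' _ =>
    (integrable_prod hν m m').integrableOn.const_mul _]
  refine Finset.sum_congr rfl fun m _ => ?_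
  rw [integral_finsetSum _ fun m' _ => (integrable_prod hν m m').integrableOn.const_mul _]
  refine Finset.sum_congr rfl fun m' _ => ?_
  rw [integral_const_mul]
  rfl

/-- **fluctuations on a symmetric event** -/
lemma fluct_le (hν : Integrable (fun x : ℝ => x ^ 2) ν) {A : Set (κ → ℝ)}
    (hA : MeasurableSet A) (hs : Sym A) (hN : 0 < Fintype.card κ)
    (hbd : ∀ x ∈ A, ∑ k, x k ^ 2 ≤ 2 * Fintype.card κ) (a : κ → ℝ) :
    ∫ x in A, (∑ m, a m * (x m - (∑ k, x k) / Fintype.card κ)) ^ 2 ∂(Measure.pi (fun _ : κ => ν)) ≤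
      4 * (Measure.pi (fun _ : κ => ν)).real A * ∑ m, a m ^ 2 := by
  set μ := Measure.pi (fun _ : κ => ν) with hμ
  have hN' : (0:ℝ) < Fintype.card κ := by exact_mod_cast hN
  obtain ⟨m₀⟩ : Nonempty κ := Fintype.card_pos_iff.1 hN
  set ρ := mom ν A m₀ m₀ with hρ
  have hdiag : ∀ m, mom ν A m m = ρ := fun m => mom_diag hA hs m m₀
  -- bound for rho
  have hρ2 : ρ ≤ 2 * μ.real A := by
    have h1 : (Fintype.card κ : ℝ) * ρ = ∫ x in A, ∑ k, x k ^ 2 ∂μ := by
      rw [integral_finsetSum _ fun m _ => (integrable_sq hν m).integrableOn]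
      have h2 : ∀ m ∈ (Finset.univ : Finset κ), ∫ x in A, x m ^ 2 ∂μ = ρ := by
        intro m _
        rw [← hdiag m]
        unfold mom
        simp only [sq]
        rfl
      rw [Finset.sum_congr rfl h2]
      simp
    have h3 : ∫ x in A, ∑ k, x k ^ 2 ∂μ ≤ ∫ x in A, (2 * Fintype.card κ : ℝ) ∂μ := by
      refine setIntegral_mono_on (integrable_finsetSum _ fun m _ =>
        (integrable_sq hν m)).integrableOn (integrable_const _).integrableOn hA hbd
    rw [setIntegral_const, smul_eq_mul, ← h1] at h3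
    nlinarith [h3]
  have hρ0 : 0 ≤ ρ := (abs_nonneg _).trans (abs_mom_le hν hA hs m₀ m₀)
  -- off-diagonal value
  obtain ⟨θ, hθ, hoff⟩ : ∃ θ, |θ| ≤ ρ ∧ ∀ m m' : κ, m ≠ m' → mom ν A m m' = θ := by
    by_cases hsub : ∃ m m' : κ, m ≠ m'
    · obtain ⟨m, m', hmm⟩ := hsub
      refine ⟨mom ν A m m', ?_, fun n n' h => mom_off hA hs h hmm⟩
      rw [← hdiag m]
      exact abs_mom_le hν hA hs m m'
    · exact ⟨0, by simpa using hρ0, fun m m' h => absurd ⟨m, m', h⟩ hsub⟩
  set abar := (∑ k, a k) / Fintype.card κ with habar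
  set b : κ → ℝ := fun m => a m - abar with hb
  have hsumb : ∑ m, b m = 0 := by
    simp only [hb, Finset.sum_sub_distrib, Finset.sum_const, Finset.card_univ, nsmul_eq_mul]
    rw [habar]; field_simp; ring
  have hform : ∀ x : κ → ℝ, ∑ m, a m * (x m - (∑ k, x k) / Fintype.card κ) = ∑ m, b m * x m := by
    intro x
    simp only [hb, mul_sub, sub_mul, Finset.sum_sub_distrib, ← Finset.sum_mul, ← Finset.mul_sum]
    rw [habar]; ring
  have hsq : ∑ m, b m ^ 2 ≤ ∑ m, a m ^ 2 := by
    have h1 : ∑ m, b m ^ 2 = ∑ m, a m ^ 2 - (Fintype.card κ : ℝ) * abar ^ 2 := by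
      have e : ∀ m, b m ^ 2 = a m ^ 2 - 2 * abar * a m + abar ^ 2 := by
        intro m; simp only [hb]; ring
      simp only [e, Finset.sum_add_distrib, Finset.sum_sub_distrib, ← Finset.mul_sum,
        Finset.sum_const, Finset.card_univ, nsmul_eq_mul]
      have : ∑ k, a k = Fintype.card κ * abar := by rw [habar]; field_simp
      rw [this]; ring
    rw [h1]
    have : 0 ≤ (Fintype.card κ : ℝ) * abar ^ 2 := by positivity
    linarith
  have hmain : ∫ x in A, (∑ m, b m * x m) ^ 2 ∂μ = (ρ - θ) * ∑ m, b m ^ 2 := by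
    rw [sum_sq_expand A hν b]
    have h1 : ∀ m m', b m * b m' * mom ν A m m' =
        θ * (b m * b m') + (if m = m' then (ρ - θ) * (b m * b m') else 0) := by
      intro m m'
      by_cases h : m = m'
      · subst h
        rw [if_pos rfl, hdiag]; ring
      · rw [if_neg h, hoff m m' h]; ring
    simp only [h1, Finset.sum_add_distrib, Finset.sum_ite_eq, Finset.mem_univ, if_true]
    have h2 : ∑ m, ∑ m', θ * (b m * b m') = 0 := by
      simp only [← Finset.mul_sum, hsumb, mul_zero, Finset.sum_const_zero]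
    rw [h2, zero_add, Finset.mul_sum]
    refine Finset.sum_congr rfl fun m _ => ?_
    ring
  simp only [hform]
  rw [hmain]
  have h3 : ρ - θ ≤ 2 * ρ := by linarith [neg_abs_le θ]
  have h4 : 0 ≤ ∑ m, b m ^ 2 := Finset.sum_nonneg fun m _ => sq_nonneg _
  have h5 : 0 ≤ μ.real A := measureReal_nonneg
  calc (ρ - θ) * ∑ m, b m ^ 2 ≤ (4 * μ.real A) * ∑ m, b m ^ 2 := by
        refine mul_le_mul_of_nonneg_right ?_ h4
        linarith
    _ ≤ 4 * μ.real A * ∑ m, a m ^ 2 := by
        refine mul_le_mul_of_nonneg_left hsq (by positivity)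

lemma sym_win (a : ℝ) : Sym (win κ a) := by
  intro π x
  unfold win
  simp only [mem_ofPred_eq]
  rw [Equiv.sum_comp π x, Equiv.sum_comp π (fun k => x k ^ 2)]

/-- the energy of the fluctuations of `x` around its mean -/
noncomputable def energy {τ : Type} (s : Finset τ) (W : τ → ℝ) (a : τ → κ → ℝ) (x : κ → ℝ) : ℝ :=
  ∑ t ∈ s, W t * (∑ m, a t m * (x m - (∑ k, x k) / Fintype.card κ)) ^ 2

lemma measurable_energy {τ : Type} (s : Finset τ) (W : τ → ℝ) (a : τ → κ → ℝ) :
    Measurable (energy (κ := κ) s W a) := by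
  unfold energy
  fun_prop

/-- the window event with small fluctuations has a probability bounded from below -/
theorem exch_event (hν : Integrable (fun x : ℝ => x ^ 2) ν) {v p : ℝ}
    (hp : p ≤ (Measure.pi (fun _ : κ => ν)).real (win κ v)) (hN : 0 < Fintype.card κ)
    {τ : Type} (s : Finset τ) (W : τ → ℝ) (hW : ∀ t ∈ s, 0 ≤ W t) (a : τ → κ → ℝ)
    (hWa : ∑ t ∈ s, W t * ∑ m, a t m ^ 2 ≤ Fintype.card κ) :
    p / 2 ≤ (Measure.pi (fun _ : κ => ν)).real
      (win κ v ∩ {x | energy s W a x ≤ 8 * Fintype.card κ}) := by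
  set μ := Measure.pi (fun _ : κ => ν) with hμ
  set A := win κ v with hA
  have hAm : MeasurableSet A := measurableSet_win κ v
  have hN' : (0:ℝ) < Fintype.card κ := by exact_mod_cast hN
  have hZm : Measurable (energy (κ := κ) s W a) := measurable_energy s W a
  have hZ0 : ∀ x, 0 ≤ energy (κ := κ) s W a x := fun x =>
    Finset.sum_nonneg fun t ht => mul_nonneg (hW t ht) (sq_nonneg _)
  have hint1 : ∀ t, Integrable (fun x : κ → ℝ =>
      (∑ m, a t m * (x m - (∑ k, x k) / Fintype.card κ)) ^ 2) μ := by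
    intro t
    have e : (fun x : κ → ℝ => (∑ m, a t m * (x m - (∑ k, x k) / Fintype.card κ)) ^ 2) =
        fun x => ∑ m, ∑ m', (a t m - (∑ k, a t k) / Fintype.card κ) *
          (a t m' - (∑ k, a t k) / Fintype.card κ) * (x m * x m') := by
      ext x
      have h0 : ∑ m, a t m * (x m - (∑ k, x k) / Fintype.card κ) =
          ∑ m, (a t m - (∑ k, a t k) / Fintype.card κ) * x m := by
        simp only [mul_sub, sub_mul, Finset.sum_sub_distrib, ← Finset.sum_mul, ← Finset.mul_sum]
        ring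
      rw [h0, sq, Finset.sum_mul_sum]
      refine Finset.sum_congr rfl fun m _ => Finset.sum_congr rfl fun m' _ => ?_
      ring
    rw [e]
    exact integrable_finsetSum _ fun m _ => integrable_finsetSum _ fun m' _ =>
      (integrable_prod hν m m').const_mul _
  have hZi : Integrable (energy (κ := κ) s W a) μ :=
    integrable_finsetSum _ fun t _ => (hint1 t).const_mul _
  have h1 : ∫ x in A, energy s W a x ∂μ ≤ 4 * μ.real A * Fintype.card κ := by
    unfold energy
    rw [integral_finsetSum _ fun t _ => (hint1 t).integrableOn.const_mul _]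
    calc ∑ t ∈ s, ∫ x in A, W t * (∑ m, a t m * (x m - (∑ k, x k) / Fintype.card κ)) ^ 2 ∂μ
        ≤ ∑ t ∈ s, W t * (4 * μ.real A * ∑ m, a t m ^ 2) := by
          refine Finset.sum_le_sum fun t ht => ?_
          rw [integral_const_mul]
          exact mul_le_mul_of_nonneg_left (fluct_le hν hAm (sym_win v) hN (fun x hx => hx.2) _)
            (hW t ht)
      _ = 4 * μ.real A * ∑ t ∈ s, W t * ∑ m, a t m ^ 2 := by
          rw [Finset.mul_sum]
          refine Finset.sum_congr rfl fun t _ => ?_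
          ring
      _ ≤ _ := mul_le_mul_of_nonneg_left hWa (by positivity)
  -- Markov
  have h2 : 8 * (Fintype.card κ : ℝ) * (μ.restrict A).real
      {x | 8 * (Fintype.card κ : ℝ) ≤ energy s W a x} ≤ ∫ x in A, energy s W a x ∂μ :=
    mul_meas_ge_le_integral_of_nonneg (ae_of_all _ hZ0) hZi.integrableOn _
  have hm2 : MeasurableSet {x : κ → ℝ | 8 * (Fintype.card κ : ℝ) ≤ energy s W a x} :=
    measurableSet_le measurable_const hZm
  rw [measureReal_restrict_apply hm2] at h2
  have h3 : μ.real ({x | 8 * (Fintype.card κ : ℝ) ≤ energy s W a x} ∩ A) ≤ μ.real A / 2 := by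
    have := h2.trans h1
    have h4 : 8 * (Fintype.card κ : ℝ) * μ.real ({x | 8 * (Fintype.card κ : ℝ) ≤ energy s W a x} ∩ A)
        ≤ 8 * (Fintype.card κ : ℝ) * (μ.real A / 2) := by linarith
    exact le_of_mul_le_mul_left h4 (by positivity)
  have h5 : A ⊆ (A ∩ {x | energy s W a x ≤ 8 * Fintype.card κ}) ∪
      ({x | 8 * (Fintype.card κ : ℝ) ≤ energy s W a x} ∩ A) := by
    intro x hx
    rcases le_total (energy s W a x) (8 * Fintype.card κ) with h | h
    · exact Or.inl ⟨hx, h⟩
    · exact Or.inr ⟨h, hx⟩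
  have h6 := (measureReal_mono (μ := μ) h5).trans (measureReal_union_le _ _)
  linarith

end Pool.Agent.K300
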