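import Pool.Agent.K300.Scale

/-! The lower bound for the number of limit cycles of random polynomial systems. -/

open Set MeasureTheory ProbabilityTheory Filter Topology
open scoped ENNReal

namespace Pool.Agent.K300

/-- the scale of a degree -/
def jn (n : ℕ) : ℕ := Nat.log 2 (Nat.log 4 n) - 1

lemma jn_ge {J n : ℕ} (h : deg J ≤ n) : J ≤ jn n := by
  unfold deg at h
  have h1 : 2 ^ (J + 1) ≤ Nat.log 4 n := (Nat.le_log_iff_pow_le (by norm_num) (by
    have : 0 < 4 ^ 2 ^ (J + 1) := by positivity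
    omega)).2 h
  have h2 : J + 1 ≤ Nat.log 2 (Nat.log 4 n) := (Nat.le_log_iff_pow_le (by norm_num) (by
    have : 0 < 2 ^ (J + 1) := by positivity
    omega)).2 h1
  unfold jn
  omega

lemma tendsto_jn : Tendsto jn atTop atTop :=
  tendsto_atTop.2 fun J => eventually_atTop.2 ⟨deg J, fun _ hn => jn_ge hn⟩

lemma deg_jn {n : ℕ} (h : 16 ≤ n) : deg (jn n) ≤ n := by
  have h1 : 2 ≤ Nat.log 4 n := (Nat.le_log_iff_pow_le (by norm_num) (by omega)).2 (by omega)
  have h2 : 1 ≤ Nat.log 2 (Nat.log 4 n) :=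
    (Nat.le_log_iff_pow_le (by norm_num) (by omega)).2 (by omega)
  have h3 : jn n + 1 = Nat.log 2 (Nat.log 4 n) := by unfold jn; omega
  unfold deg
  rw [h3]
  exact (Nat.pow_le_pow_right (by norm_num) (Nat.pow_log_le_self 2 (by omega))).trans
    (Nat.pow_log_le_self 4 (by omega))

lemma log_sq_le {n : ℕ} (h : 16 ≤ n) : Real.log n ^ 2 ≤ 32 * 4 ^ jn n := by
  have h1 : 2 ≤ Nat.log 4 n := (Nat.le_log_iff_pow_le (by norm_num) (by omega)).2 (by omega)
  have h2 : 1 ≤ Nat.log 2 (Nat.log 4 n) :=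
    (Nat.le_log_iff_pow_le (by norm_num) (by omega)).2 (by omega)
  have h3 : jn n + 1 = Nat.log 2 (Nat.log 4 n) := by unfold jn; omega
  have h4 : Nat.log 4 n < 2 ^ (jn n + 2) := by
    have := Nat.lt_pow_succ_log_self (b := 2) (by norm_num) (Nat.log 4 n)
    rw [Nat.succ_eq_add_one, ← h3] at this
    exact this
  have h5 : n < 4 ^ 2 ^ (jn n + 2) := by
    have := Nat.lt_pow_succ_log_self (b := 4) (by norm_num) n
    rw [Nat.succ_eq_add_one] at this
    exact this.trans_le (Nat.pow_le_pow_right (by norm_num) (by omega))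
  have h6 : (n:ℝ) ≤ (4:ℝ) ^ 2 ^ (jn n + 2) := by exact_mod_cast h5.le
  have hn0 : (0:ℝ) < n := by
    have : 0 < n := by omega
    exact_mod_cast this
  have h7 : Real.log n ≤ 2 ^ (jn n + 2) * Real.log 4 := by
    have := Real.log_le_log hn0 h6
    rw [Real.log_pow] at this
    push_cast at this
    exact this
  have h8 : Real.log 4 ≤ 1387 / 1000 := by
    have e : (4:ℝ) = 2 ^ 2 := by norm_num
    rw [e, Real.log_pow]
    have := Real.log_two_lt_d9
    push_cast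
    linarith
  have h9 : 0 ≤ Real.log n := Real.log_nonneg (by
    have : 1 ≤ n := by omega
    exact_mod_cast this)
  have h10 : 0 < Real.log 4 := Real.log_pos (by norm_num)
  calc Real.log n ^ 2 ≤ (2 ^ (jn n + 2) * Real.log 4) ^ 2 := pow_le_pow_left₀ h9 h7 2
    _ = 16 * 4 ^ jn n * Real.log 4 ^ 2 := by
        rw [mul_pow, ← pow_mul, mul_comm (jn n + 2) 2, pow_mul, pow_add]
        norm_num
        ring
    _ ≤ 16 * 4 ^ jn n * 2 := by
        refine mul_le_mul_of_nonneg_left ?_ (by positivity)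
        calc Real.log 4 ^ 2 ≤ (1387 / 1000) ^ 2 := pow_le_pow_left₀ h10.le h8 2
          _ ≤ 2 := by norm_num
    _ = _ := by ring

/-- the normalised variables -/
theorem std_of_iid {Ω : Type*} [MeasurableSpace Ω] {P : Measure Ω} [IsProbabilityMeasure P]
    {a : Fin 2 → ℕ × ℕ → Ω → ℝ} (hm : ∀ c m, Measurable (a c m))
    (hind : iIndepFun (fun i : Fin 2 × (ℕ × ℕ) => a i.1 i.2) P)
    (hid : ∀ c m, IdentDistrib (a c m) (a c (0, 0)) P P)
    (hL2 : ∀ c, MemLp (a c (0, 0)) 2 P) (hvar : ∀ c, Var[a c (0, 0); P] ≠ 0) :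
    ∃ (M σ : Fin 2 → ℝ) (X : Ix → Ω → ℝ) (ν : Fin 2 → Measure ℝ),
      (∀ c, 0 < σ c) ∧ (∀ c, IsProbabilityMeasure (ν c)) ∧ Std P X ν ∧
      (∀ c m ω, a c m ω = σ c * (X (c, m) ω + M c)) := by
  set μ : Fin 2 → ℝ := fun c => P[a c (0, 0)] with hμ
  set σ : Fin 2 → ℝ := fun c => √(Var[a c (0, 0); P]) with hσ
  have hv : ∀ c, 0 < Var[a c (0, 0); P] := fun c =>
    lt_of_le_of_ne (variance_nonneg _ _) (Ne.symm (hvar c))
  have hσ0 : ∀ c, 0 < σ c := fun c => Real.sqrt_pos.2 (hv c)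
  set X : Ix → Ω → ℝ := fun i ω => (a i.1 i.2 ω - μ i.1) / σ i.1 with hX
  have hXm : ∀ i, Measurable (X i) := fun i => ((hm i.1 i.2).sub_const _).div_const _
  refine ⟨fun c => μ c / σ c, σ, X, fun c => P.map (X (c, (0, 0))), hσ0,
    fun c => Measure.isProbabilityMeasure_map (hXm _).aemeasurable, ⟨hXm, ?_, ?_, ?_, ?_⟩, ?_⟩
  · exact hind.comp (fun i x => (x - μ i.1) / σ i.1) fun i => by fun_prop
  · intro i
    exact ((hid i.1 i.2).comp (u := fun x => (x - μ i.1) / σ i.1) (by fun_prop)).map_eq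
  · intro c
    rw [integral_map (hXm _).aemeasurable (by fun_prop)]
    have hint : Integrable (a c (0, 0)) P := (hL2 c).integrable (by norm_num)
    simp only [hX]
    rw [integral_div, integral_sub hint (integrable_const _)]
    simp [hμ]
  · intro c
    rw [integral_map (hXm _).aemeasurable (by fun_prop)]
    simp only [hX, div_pow]
    rw [integral_div]
    have h1 : ∫ ω, (a c (0, 0) ω - μ c) ^ 2 ∂P = Var[a c (0, 0); P] :=
      (variance_eq_integral (hm c (0, 0)).aemeasurable).symm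
    rw [h1]
    simp only [hσ]
    rw [Real.sq_sqrt (hv c).le, div_self (hvar c)]
  · intro c m ω
    simp only [hX]
    have := (hσ0 c).ne'
    field_simp
    ring

theorem main.{u} : ∃ c : ℝ, 0 < c ∧ ∀ {Ω : Type u} [MeasurableSpace Ω] (P : Measure Ω)
    [IsProbabilityMeasure P] (a : Fin 2 → ℕ × ℕ → Ω → ℝ), (∀ c m, Measurable (a c m)) →
    iIndepFun (fun i : Fin 2 × (ℕ × ℕ) => a i.1 i.2) P →
    (∀ c m, IdentDistrib (a c m) (a c (0, 0)) P P) →
    (∀ c, MemLp (a c (0, 0)) 2 P) → (∀ c, Var[a c (0, 0); P] ≠ 0) →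
    (∀ᵐ ω ∂P, ∀ᶠ n : ℕ in atTop, ENNReal.ofReal (c * Real.log n ^ 2) ≤
      lcCount n (fun m => a 0 m ω) (fun m => a 1 m ω)) ∧
    Tendsto (fun n : ℕ => P {ω | lcCount n (fun m => a 0 m ω) (fun m => a 1 m ω) <
      ENNReal.ofReal (c * Real.log n ^ 2)}) atTop (𝓝 0) ∧
    (∀ᶠ n : ℕ in atTop, ENNReal.ofReal (c * Real.log n ^ 2) ≤
      ∫⁻ ω, lcCount n (fun m => a 0 m ω) (fun m => a 1 m ω) ∂P) := by
  obtain ⟨p₀, hp₀, hp⟩ := exists_p0.{u}
  refine ⟨p₀ / 256, by positivity, ?_⟩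
  intro Ω _ P _ a hm hind hid hL2 hvar
  obtain ⟨M, σ, X, ν, hσ, hν, hStd, haX⟩ := std_of_iid hm hind hid hL2 hvar
  have := hν
  obtain ⟨N₀, hN₀⟩ := hp ν hStd.mean hStd.var
  -- the scale from which on everything works
  have hT : ∀ c, ∀ᶠ j : ℕ in atTop, ∀ s : ℕ, deg j ≤ s →
      (2 + 2 * |M c|) * 2 * (1 + (s : ℝ)) ^ 7 * (1 / 2) ^ (Nat.sqrt s) ≤ 1 := by
    intro c
    obtain ⟨s₀, hs₀⟩ := eventually_atTop.1 (tail_bound (M c))
    refine eventually_atTop.2 ⟨s₀, fun j hj s hs => hs₀ s₀ le_rfl s ?_⟩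
    have h1 : j ≤ deg j := by
      unfold deg
      calc j ≤ 2 ^ (j + 1) := (Nat.lt_two_pow_self).le.trans
            (Nat.pow_le_pow_right (by norm_num) (by omega))
        _ ≤ 4 ^ 2 ^ (j + 1) := (Nat.lt_pow_self (by norm_num)).le
    omega
  have hM : ∀ c, ∀ᶠ j : ℕ in atTop, 16 * M c ^ 2 ≤ (2:ℝ) ^ j := fun c =>
    (tendsto_pow_atTop_atTop_of_one_lt (by norm_num : (1:ℝ) < 2)).eventually_ge_atTop _
  obtain ⟨j₀, hj₀⟩ := eventually_atTop.1 ((((hT 0).and (hT 1)).and ((hM 0).and (hM 1))).and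
    ((eventually_ge_atTop 3).and (eventually_ge_atTop N₀)))
  have hforall : ∀ (p : Fin 2 → Prop), p 0 → p 1 → ∀ c, p c := by
    intro p h0 h1 c
    rcases c with ⟨c, hc⟩
    interval_cases c
    · exact h0
    · exact h1
  set C : ℝ := 1024 / p₀ ^ 2 + 16 / p₀ + 8 with hC
  have hC0 : 0 < C := by positivity
  have hBad : ∀ j ≥ j₀, P (Bad X p₀ j) ≤ ENNReal.ofReal (C / 2 ^ j) := by
    intro j hj
    obtain ⟨-, h3, hN⟩ := hj₀ j hj
    refine hStd.prob_Bad hp₀ h3 fun q hq => ?_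
    obtain ⟨h1, h2, h3', h4⟩ := mem_cells hq
    have hj1 : 1 ≤ 2 ^ j := Nat.one_le_two_pow
    refine hN₀ P X hStd (deg j) (bw j) (2 ^ q.1) (2 ^ q.2) (by positivity) (by positivity)
      ((even_two).pow_of_ne_zero (by omega)) (five_le (by omega) hq) ?_
    calc N₀ ≤ j := hN
      _ ≤ 2 ^ j := (Nat.lt_two_pow_self).le
      _ ≤ 2 ^ q.1 := (h1.trans (Nat.lt_two_pow_self).le)
  have hcnt : ∀ n : ℕ, 16 ≤ n → j₀ ≤ jn n → ∀ ω, ω ∉ Bad X p₀ (jn n) →
      ENNReal.ofReal (2 * (p₀ / 256) * Real.log n ^ 2) ≤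
        lcCount n (fun m => a 0 m ω) (fun m => a 1 m ω) := by
    intro n hn hj ω hω
    obtain ⟨⟨⟨t0, t1⟩, m0, m1⟩, h3, -⟩ := hj₀ _ hj
    have h1 := count_of_notBad h3 hσ (hforall _ m0 m1)
      (hforall (fun c => ∀ s : ℕ, deg (jn n) ≤ s →
        (2 + 2 * |M c|) * 2 * (1 + (s : ℝ)) ^ 7 * (1 / 2) ^ (Nat.sqrt s) ≤ 1) t0 t1)
      hω (deg_jn hn)
    have e0 : (fun m => a 0 m ω) = fun m => σ 0 * (X (0, m) ω + M 0) := funext fun m => haX 0 m ω
    have e1 : (fun m => a 1 m ω) = fun m => σ 1 * (X (1, m) ω + M 1) := funext fun m => haX 1 m ω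
    rw [e0, e1]
    refine (ENNReal.ofReal_le_ofReal ?_).trans h1
    have := log_sq_le hn
    have h2 := mul_le_mul_of_nonneg_left this (show 0 ≤ p₀ / 128 by positivity)
    linarith
  have hlogc : ∀ n : ℕ, ENNReal.ofReal (p₀ / 256 * Real.log n ^ 2) ≤
      ENNReal.ofReal (2 * (p₀ / 256) * Real.log n ^ 2) := by
    intro n
    refine ENNReal.ofReal_le_ofReal ?_
    have : 0 ≤ p₀ / 256 * Real.log n ^ 2 := by positivity
    linarith
  have hlim : Tendsto (fun n : ℕ => ENNReal.ofReal (C / 2 ^ jn n)) atTop (𝓝 0) := by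
    have h1 : Tendsto (fun j : ℕ => C / 2 ^ j) atTop (𝓝 0) :=
      tendsto_const_nhds.div_atTop (tendsto_pow_atTop_atTop_of_one_lt (by norm_num : (1:ℝ) < 2))
    have h2 := ENNReal.tendsto_ofReal (h1.comp tendsto_jn)
    rw [ENNReal.ofReal_zero] at h2
    exact h2
  refine ⟨?_, ?_, ?_⟩
  · -- almost surely
    have hsum : ∑' j : ℕ, P (Bad X p₀ (j + j₀)) ≠ ∞ := by
      refine ne_top_of_le_ne_top ?_ (ENNReal.tsum_le_tsum fun j => hBad (j + j₀) (by omega))
      have hs : Summable fun j : ℕ => C / 2 ^ (j + j₀) := by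
        have h1 : Summable fun j : ℕ => (C / 2 ^ j₀) * (1 / 2 : ℝ) ^ j :=
          (summable_geometric_of_lt_one (by norm_num) (by norm_num)).mul_left _
        refine h1.congr fun j => ?_
        rw [pow_add, one_div, inv_pow]
        field_simp
      rw [← ENNReal.ofReal_tsum_of_nonneg (fun j => by positivity) hs]
      exact ENNReal.ofReal_ne_top
    filter_upwards [ae_eventually_notMem hsum] with ω hω
    obtain ⟨J, hJ⟩ := eventually_atTop.1 hω
    filter_upwards [tendsto_jn.eventually_ge_atTop (J + j₀), eventually_ge_atTop 16] with n h1 h2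
    refine (hlogc n).trans (hcnt n h2 (by omega) ω ?_)
    have := hJ (jn n - j₀) (by omega)
    rwa [Nat.sub_add_cancel (by omega)] at this
  · -- in probability
    refine tendsto_of_tendsto_of_tendsto_of_le_of_le' tendsto_const_nhds hlim
      (Eventually.of_forall fun n => bot_le) ?_
    filter_upwards [tendsto_jn.eventually_ge_atTop j₀, eventually_ge_atTop 16] with n h1 h2
    refine (measure_mono ?_).trans (hBad _ h1)
    intro ω hω
    by_contra hc
    exact absurd hω (not_lt.2 ((hlogc n).trans (hcnt n h2 h1 ω hc)))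
  · -- in mean
    have h3 : ∀ᶠ n : ℕ in atTop, ENNReal.ofReal (C / 2 ^ jn n) < 2⁻¹ :=
      hlim.eventually (gt_mem_nhds (by simp))
    filter_upwards [tendsto_jn.eventually_ge_atTop j₀, eventually_ge_atTop 16, h3] with n h1 h2 h4
    have hmeas : MeasurableSet (Bad X p₀ (jn n)) := hStd.measurableSet_Bad (hj₀ _ h1).2.1
    have h5 : (2⁻¹ : ℝ≥0∞) ≤ P (Bad X p₀ (jn n))ᶜ := by
      rw [prob_compl_eq_one_sub hmeas]
      have h6 : P (Bad X p₀ (jn n)) ≤ 2⁻¹ := (hBad _ h1).trans h4.le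
      calc (2⁻¹ : ℝ≥0∞) = 1 - 2⁻¹ := by rw [ENNReal.one_sub_inv_two]
        _ ≤ _ := tsub_le_tsub_left h6 1
    calc ENNReal.ofReal (p₀ / 256 * Real.log n ^ 2)
        = ENNReal.ofReal (2 * (p₀ / 256) * Real.log n ^ 2) * 2⁻¹ := by
          have e : 2 * (p₀ / 256) * Real.log n ^ 2 = (p₀ / 256 * Real.log n ^ 2) * 2 := by ring
          have e3 : ENNReal.ofReal ((p₀ / 256 * Real.log n ^ 2) * 2) =
              ENNReal.ofReal (p₀ / 256 * Real.log n ^ 2) * ENNReal.ofReal 2 :=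
            ENNReal.ofReal_mul (by positivity)
          have : ENNReal.ofReal 2 * 2⁻¹ = 1 := by
            rw [ENNReal.ofReal_ofNat]
            exact ENNReal.mul_inv_cancel (by norm_num) (by norm_num)
          rw [e, e3, mul_assoc, this, mul_one]
      _ ≤ ENNReal.ofReal (2 * (p₀ / 256) * Real.log n ^ 2) * P (Bad X p₀ (jn n))ᶜ := by gcongr
      _ = ∫⁻ _ in (Bad X p₀ (jn n))ᶜ, ENNReal.ofReal (2 * (p₀ / 256) * Real.log n ^ 2) ∂P := by
          rw [setLIntegral_const]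
      _ ≤ ∫⁻ ω in (Bad X p₀ (jn n))ᶜ, lcCount n (fun m => a 0 m ω) (fun m => a 1 m ω) ∂P :=
          setLIntegral_mono' hmeas.compl fun ω hω => hcnt n h2 h1 ω hω
      _ ≤ _ := setLIntegral_le_lintegral _ _

end Pool.Agent.K300
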