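import Pool.Agent.K300.Det2

/-! The contribution of the mean of the coefficients is bounded. -/

open Set

namespace Pool.Agent.K300

lemma sum_tri_eq (n : ℕ) (f : ℕ × ℕ → ℝ) :
    ∑ m ∈ tri n, f m = ∑ i ∈ Finset.range (n + 1), ∑ j ∈ Finset.range (n + 1 - i), f (i, j) := by
  rw [tri, Finset.sum_filter, Finset.sum_product]
  refine Finset.sum_congr rfl fun i _ => ?_
  simp only
  rw [← Finset.sum_filter]
  refine Finset.sum_congr ?_ fun _ _ => rfl
  ext j
  simp only [Finset.mem_filter, Finset.mem_range]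
  omega

lemma tt_le (t : ℕ) : t * (t + 1) ≤ 2 * 2 ^ t := by
  induction t with
  | zero => simp
  | succ t ih =>
    rcases Nat.lt_or_ge t 2 with h | h
    · interval_cases t <;> norm_num
    · rw [pow_succ]
      nlinarith

lemma abs_geom_le {a : ℝ} (h0 : -1 ≤ a) (h1 : a ≤ 0) (k : ℕ) :
    |∑ i ∈ Finset.range k, a ^ i| ≤ 2 := by
  have h2 := geom_sum_mul_neg a k
  have h3 : |∑ i ∈ Finset.range k, a ^ i| * (1 - a) = |1 - a ^ k| := by
    rw [← h2, abs_mul, abs_of_pos (show 0 < 1 - a by linarith)]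
  have h4 : |1 - a ^ k| ≤ 2 := by
    have : |a ^ k| ≤ 1 := by
      rw [abs_pow]
      exact pow_le_one₀ (abs_nonneg _) (abs_le.2 ⟨by linarith, by linarith⟩)
    rw [abs_le] at this ⊢
    constructor <;> linarith [this.1, this.2]
  have h5 : 0 ≤ |∑ i ∈ Finset.range k, a ^ i| := abs_nonneg _
  nlinarith

lemma off_bound {n K L : ℕ} (hK : 1 ≤ K) (hL : 1 ≤ L) (h : (max K L) ^ 2 ≤ n) {p : ℝ × ℝ}
    (hp : p ∈ cellBox K L) : |∑ m ∈ tri n, sg m * (p.1 ^ m.1 * p.2 ^ m.2)| ≤ 4 := by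
  obtain ⟨hp1, hp2, hp3, hp4⟩ := hp
  have hx1 : p.1 ≤ 1 := le_one_of_pow (by omega) hp3.2
  have hy1 : p.2 ≤ 1 := le_one_of_pow (by omega) hp4.2
  set a := -p.1 with ha
  set b := -p.2 with hb
  have ha0 : -1 ≤ a := by linarith
  have ha1 : a ≤ 0 := by linarith
  have hb0 : -1 ≤ b := by linarith
  have hb1 : b ≤ 0 := by linarith
  have e1 : ∑ m ∈ tri n, sg m * (p.1 ^ m.1 * p.2 ^ m.2) = -∑ m ∈ tri n, a ^ m.1 * b ^ m.2 := by
    rw [← Finset.sum_neg_distrib]
    refine Finset.sum_congr rfl fun m _ => ?_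
    unfold sg
    rw [ha, hb, neg_pow p.1, neg_pow p.2, pow_add]
    ring
  rw [e1, abs_neg, sum_tri_eq]
  set s := ∑ i ∈ Finset.range (n + 1), ∑ j ∈ Finset.range (n + 1 - i), a ^ (i, j).1 * b ^ (i, j).2
    with hs
  have e2 : s * (1 - b) = ∑ i ∈ Finset.range (n + 1), a ^ i -
      ∑ i ∈ Finset.range (n + 1), a ^ i * b ^ (n + 1 - i) := by
    rw [hs, Finset.sum_mul, ← Finset.sum_sub_distrib]
    refine Finset.sum_congr rfl fun i _ => ?_
    simp only
    rw [← Finset.mul_sum, mul_assoc, geom_sum_mul_neg]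
    ring
  -- the second sum
  set z := max p.1 p.2 with hz
  have hz0 : 0 ≤ z := hp1.trans (le_max_left _ _)
  have hz1 : z ≤ 1 := max_le hx1 hy1
  have h3 : |∑ i ∈ Finset.range (n + 1), a ^ i * b ^ (n + 1 - i)| ≤ (n + 1 : ℕ) * z ^ (n + 1) := by
    refine (Finset.abs_sum_le_sum_abs _ _).trans ?_
    have : ∀ i ∈ Finset.range (n + 1), |a ^ i * b ^ (n + 1 - i)| ≤ z ^ (n + 1) := by
      intro i hi
      rw [abs_mul, abs_pow, abs_pow, ha, hb, abs_neg, abs_neg, abs_of_nonneg hp1,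
        abs_of_nonneg hp2]
      have e : z ^ (n + 1) = z ^ i * z ^ (n + 1 - i) := by
        rw [← pow_add]; congr 1
        have := Finset.mem_range.1 hi
        omega
      rw [e]
      exact mul_le_mul (pow_le_pow_left₀ hp1 (le_max_left _ _) _)
        (pow_le_pow_left₀ hp2 (le_max_right _ _) _) (pow_nonneg hp2 _) (pow_nonneg hz0 _)
    refine (Finset.sum_le_sum this).trans ?_
    simp
  set N := max K L with hN
  have hN1 : 1 ≤ N := hK.trans (le_max_left _ _)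
  have hzN : z ^ N ≤ 1 / 2 := by
    rcases le_total p.1 p.2 with g | g
    · rw [hz, max_eq_right g]
      exact (pow_le_pow_of_le_one hp2 hy1 (le_max_right K L)).trans hp4.2
    · rw [hz, max_eq_left g]
      exact (pow_le_pow_of_le_one hp1 hx1 (le_max_left K L)).trans hp3.2
  set t := (n + 1) / N with ht
  have h4 : N ≤ t := by
    rw [ht, Nat.le_div_iff_mul_le (by omega)]
    nlinarith
  have h5 : n + 1 < N * (t + 1) := by
    have := Nat.lt_div_mul_add (a := n + 1) (b := N) (by omega)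
    rw [← ht] at this
    nlinarith
  have h6 : z ^ (n + 1) ≤ (1 / 2) ^ t := by
    have h7 : N * t ≤ n + 1 := Nat.mul_div_le _ _
    calc z ^ (n + 1) ≤ z ^ (N * t) := pow_le_pow_of_le_one hz0 hz1 h7
      _ = (z ^ N) ^ t := by rw [pow_mul]
      _ ≤ _ := pow_le_pow_left₀ (pow_nonneg hz0 _) hzN _
  have h7 : ((n + 1 : ℕ) : ℝ) ≤ 2 * 2 ^ t := by
    have h8 : n + 1 ≤ 2 * 2 ^ t := by
      have := tt_le t
      have : N * (t + 1) ≤ t * (t + 1) := Nat.mul_le_mul_right _ h4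
      omega
    exact_mod_cast h8
  have h8 : ((n + 1 : ℕ) : ℝ) * z ^ (n + 1) ≤ 2 := by
    calc ((n + 1 : ℕ) : ℝ) * z ^ (n + 1) ≤ (2 * 2 ^ t) * (1 / 2) ^ t :=
          mul_le_mul h7 h6 (pow_nonneg hz0 _) (by positivity)
      _ = 2 * (2 * (1 / 2)) ^ t := by rw [mul_pow]; ring
      _ = 2 := by norm_num
  have h9 := abs_geom_le ha0 ha1 (n + 1)
  have h10 : |s| * (1 - b) ≤ 4 := by
    have : |s| * (1 - b) = |s * (1 - b)| := by
      rw [abs_mul, abs_of_pos (show 0 < 1 - b by linarith)]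
    rw [this, e2]
    refine (abs_sub _ _).trans ?_
    linarith
  have h11 : 0 ≤ |s| := abs_nonneg _
  nlinarith

end Pool.Agent.K300
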