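import Pool.Agent.K300.Prob2

/-! The contribution of the exponents outside the window is small with high probability. -/

open Set MeasureTheory ProbabilityTheory

set_option linter.unusedSectionVars false

namespace Pool.Agent.K300

variable {Ω : Type*} [MeasurableSpace Ω] {P : Measure Ω} [IsProbabilityMeasure P]
  {X : Ix → Ω → ℝ} {ν : Fin 2 → Measure ℝ} [∀ c, IsProbabilityMeasure (ν c)]

lemma sum_bad_le {K b : ℕ} (hK : 2 ^ b ≤ K) (N : ℕ) :
    ∑ i ∈ (Finset.range N).filter (fun i => i * 2 ^ b < K ∨ K * 2 ^ b ≤ i), xl K 2 ^ i ≤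
      4 * K / 2 ^ b := by
  have hb0 : 0 < 2 ^ b := by positivity
  have hK0 : K ≠ 0 := by omega
  have h0 := (xl_pos K (ℓ := 2) (by norm_num)).le
  have h1 := xl_le_one hK0
  have hKr : (2:ℝ) ^ b ≤ K := by exact_mod_cast hK
  have hbr : (0:ℝ) < 2 ^ b := by positivity
  have hsub : (Finset.range N).filter (fun i => i * 2 ^ b < K ∨ K * 2 ^ b ≤ i) ⊆
      (Finset.range (K / 2 ^ b + 1)) ∪ (Finset.range N).image (fun i => K * 2 ^ b + i) := by
    intro i hi
    rw [Finset.mem_filter, Finset.mem_range] at hi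
    rw [Finset.mem_union]
    rcases hi.2 with h | h
    · left
      rw [Finset.mem_range, Nat.lt_succ_iff, Nat.le_div_iff_mul_le hb0]
      exact h.le
    · right
      rw [Finset.mem_image]
      exact ⟨i - K * 2 ^ b, by rw [Finset.mem_range]; omega, by omega⟩
  have hpos : ∀ i, 0 ≤ xl K 2 ^ i := fun i => pow_nonneg h0 i
  calc _ ≤ ∑ i ∈ (Finset.range (K / 2 ^ b + 1)) ∪ (Finset.range N).image (fun i => K * 2 ^ b + i),
        xl K 2 ^ i := Finset.sum_le_sum_of_subset_of_nonneg hsub fun i _ _ => hpos i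
    _ ≤ ∑ i ∈ Finset.range (K / 2 ^ b + 1), xl K 2 ^ i +
        ∑ i ∈ (Finset.range N).image (fun i => K * 2 ^ b + i), xl K 2 ^ i := by
        rw [← Finset.sum_union_inter]
        exact le_add_of_nonneg_right (Finset.sum_nonneg fun i _ => hpos i)
    _ ≤ 2 * K / 2 ^ b + 2 * K / 2 ^ b := by
        refine add_le_add ?_ ?_
        · calc _ ≤ ∑ i ∈ Finset.range (K / 2 ^ b + 1), (1:ℝ) :=
                Finset.sum_le_sum fun i _ => pow_le_one₀ h0 h1
            _ = ((K / 2 ^ b : ℕ) : ℝ) + 1 := by simp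
            _ ≤ K / 2 ^ b + K / 2 ^ b := by
                refine add_le_add ?_ ?_
                · have := Nat.cast_div_le (α := ℝ) (m := K) (n := 2 ^ b)
                  simpa using this
                · rw [le_div_iff₀ hbr, one_mul]; exact hKr
            _ = _ := by ring
        · rw [Finset.sum_image fun i _ j _ h => by simpa using h]
          have e : ∀ i, xl K 2 ^ (K * 2 ^ b + i) = xl K 2 ^ (K * 2 ^ b) * xl K 2 ^ i := fun i =>
            pow_add _ _ _
          simp only [e, ← Finset.mul_sum]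
          have h2 := sum_pow_le hK0 N
          have h3 : xl K 2 ^ (K * 2 ^ b) ≤ 1 / 2 ^ b := by
            rw [pow_mul, xl_pow hK0 (by norm_num)]
            have e2 : ((8:ℝ) + 2) / 20 = 1 / 2 := by norm_num
            rw [e2]
            calc ((1:ℝ) / 2) ^ 2 ^ b ≤ (1 / 2) ^ b :=
                  pow_le_pow_of_le_one (by norm_num) (by norm_num) b.lt_two_pow_self.le
              _ = 1 / 2 ^ b := by rw [div_pow, one_pow]
          refine (mul_le_mul h3 h2 (Finset.sum_nonneg fun i _ => hpos i) (by positivity)).trans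
            (le_of_eq ?_)
          ring
    _ = _ := by ring

lemma sum_out_le {n b K L : ℕ} (hK : 2 ^ b ≤ K) (hL : 2 ^ b ≤ L) :
    ∑ m ∈ outS n b K L, xl K 2 ^ m.1 * xl L 2 ^ m.2 ≤ 16 / 2 ^ b * (K * L : ℕ) := by
  have hb0 : 0 < 2 ^ b := by positivity
  have hK0 : K ≠ 0 := by omega
  have hL0 : L ≠ 0 := by omega
  have h0 := (xl_pos K (ℓ := 2) (by norm_num)).le
  have h0' := (xl_pos L (ℓ := 2) (by norm_num)).le
  have hf : ∀ m : ℕ × ℕ, 0 ≤ xl K 2 ^ m.1 * xl L 2 ^ m.2 := fun m =>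
    mul_nonneg (pow_nonneg h0 _) (pow_nonneg h0' _)
  set A := (Finset.range (n + 1)).filter (fun i => i * 2 ^ b < K ∨ K * 2 ^ b ≤ i) with hA
  set B := (Finset.range (n + 1)).filter (fun i => i * 2 ^ b < L ∨ L * 2 ^ b ≤ i) with hB
  have hsub : outS n b K L ⊆ (A ×ˢ Finset.range (n + 1)) ∪ (Finset.range (n + 1) ×ˢ B) := by
    intro m hm
    rw [outS, Finset.mem_filter, mem_tri] at hm
    obtain ⟨h1, h2⟩ := hm
    unfold Wd at h2
    simp only [hA, hB, Finset.mem_union, Finset.mem_product, Finset.mem_filter, Finset.mem_range]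
    by_contra hc
    push Not at hc
    obtain ⟨c1, c2⟩ := hc
    apply h2
    have r1 : m.1 < n + 1 := by omega
    have r2 : m.2 < n + 1 := by omega
    have d1 := c2 r1 r2
    by_cases g : m.1 * 2 ^ b < K ∨ K * 2 ^ b ≤ m.1
    · exact absurd (c1 ⟨r1, g⟩) (by omega)
    · push Not at g
      exact ⟨g.1, g.2, d1.1, d1.2⟩
  have sA := sum_bad_le hK (n + 1)
  have sB := sum_bad_le hL (n + 1)
  rw [← hA] at sA
  rw [← hB] at sB
  have rA := sum_pow_le hK0 (n + 1)
  have rB := sum_pow_le hL0 (n + 1)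
  calc _ ≤ ∑ m ∈ (A ×ˢ Finset.range (n + 1)) ∪ (Finset.range (n + 1) ×ˢ B),
        xl K 2 ^ m.1 * xl L 2 ^ m.2 :=
        Finset.sum_le_sum_of_subset_of_nonneg hsub fun m _ _ => hf m
    _ ≤ ∑ m ∈ A ×ˢ Finset.range (n + 1), xl K 2 ^ m.1 * xl L 2 ^ m.2 +
        ∑ m ∈ Finset.range (n + 1) ×ˢ B, xl K 2 ^ m.1 * xl L 2 ^ m.2 := by
        rw [← Finset.sum_union_inter]
        exact le_add_of_nonneg_right (Finset.sum_nonneg fun m _ => hf m)
    _ ≤ 4 * K / 2 ^ b * (2 * L) + 2 * K * (4 * L / 2 ^ b) := by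
        rw [Finset.sum_product, Finset.sum_product, ← Finset.sum_mul_sum, ← Finset.sum_mul_sum]
        refine add_le_add ?_ ?_
        · exact mul_le_mul sA rB (Finset.sum_nonneg fun i _ => pow_nonneg h0' i) (by positivity)
        · exact mul_le_mul rA sB (Finset.sum_nonneg fun i _ => pow_nonneg h0' i) (by positivity)
    _ = _ := by push_cast; ring

/-- probability of the event outside the window -/
lemma Std.prob_O (h : Std P X ν) {n b K L : ℕ} (hK : 2 ^ b ≤ K) (hL : 2 ^ b ≤ L) (c : Fin 2) :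
    P.real (ev X (PhiO n b K L c))ᶜ ≤ 16 / 2 ^ b := by
  have hb0 : 0 < 2 ^ b := by positivity
  have hK0 : K ≠ 0 := by omega
  have hL0 : L ≠ 0 := by omega
  have hKL : (0:ℝ) < ((K * L : ℕ) : ℝ) := by
    have : 0 < K * L := Nat.mul_pos (by omega) (by omega)
    exact_mod_cast this
  have h1 := h.markov (grid_le (outS_sub n b K L)) (xl_pos K (ℓ := 2) (by norm_num)).le
    (xl_le_one hK0) (xl_pos L (ℓ := 2) (by norm_num)).le (xl_le_one hL0) c
    (R := (K * L : ℕ)) hKL
  have h2 := sum_out_le (n := n) hK hL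
  refine h1.trans ?_
  rw [div_le_iff₀ hKL]
  exact h2

/-- the bad event outside the window -/
def Bd (n b K L : ℕ) : Set (Ix → ℝ) := (PhiO n b K L 0)ᶜ ∪ (PhiO n b K L 1)ᶜ

lemma Std.prob_B (h : Std P X ν) {n b K L : ℕ} (hK : 2 ^ b ≤ K) (hL : 2 ^ b ≤ L) :
    P.real (ev X (Bd n b K L)) ≤ 32 / 2 ^ b := by
  have e : ev X (Bd n b K L) = (ev X (PhiO n b K L 0))ᶜ ∪ (ev X (PhiO n b K L 1))ᶜ := rfl
  rw [e]
  refine (measureReal_union_le _ _).trans ?_
  have h0 := h.prob_O (n := n) hK hL 0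
  have h1 := h.prob_O (n := n) hK hL 1
  have : (32:ℝ) / 2 ^ b = 16 / 2 ^ b + 16 / 2 ^ b := by ring
  rw [this]
  exact add_le_add h0 h1

lemma measurableSet_Bd (n b K L : ℕ) : MeasurableSet (Bd n b K L) :=
  (depOn_en _ _ _ _ _ 0).meas.compl.union (depOn_en _ _ _ _ _ 1).meas.compl

/-- a configuration which is good and not bad satisfies the deterministic conditions -/
lemma good_of_mem {n b K L : ℕ} {M : ℝ} {ξ : Ix → ℝ} (hG : ξ ∈ Gd n b K L)
    (hB : ξ ∉ Bd n b K L) (hK : 1 ≤ K) (hL : 1 ≤ L) (hn : (max K L) ^ 2 ≤ n)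
    (hM : 16 * M ^ 2 ≤ (K * L : ℕ)) (c : Fin 2) :
    Good n b K L M (tgtc c) (fun m => ξ (c, m)) := by
  unfold Gd at hG
  simp only [Finset.mem_univ, iInter_true, mem_iInter] at hG
  refine ⟨fun q => (hG (Sum.inl (c, q))).1, fun q => (hG (Sum.inl (c, q))).2, hG (Sum.inr c),
    ?_, ?_⟩
  · unfold Bd at hB
    rw [mem_union, not_or, notMem_compl_iff, notMem_compl_iff] at hB
    have : c = 0 ∨ c = 1 := by
      rcases c with ⟨c, hc⟩
      interval_cases c
      · left; rfl
      · right; rfl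
    rcases this with rfl | rfl
    · exact hB.1
    · exact hB.2
  · intro p hp
    rw [abs_mul]
    have h1 := off_bound hK hL hn hp
    have h2 : |M| * 4 ≤ √((K * L : ℕ) : ℝ) := by
      refine Real.le_sqrt_of_sq_le ?_
      rw [mul_pow, sq_abs]
      linarith
    exact (mul_le_mul_of_nonneg_left h1 (abs_nonneg _)).trans h2

end Pool.Agent.K300
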