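import Pool.Agent.K300.Dep
import Pool.Agent.K300.Exch
import Pool.Agent.K300.Off

/-! Probabilities of the events of a cell. -/

open Set MeasureTheory ProbabilityTheory

set_option linter.unusedSectionVars false

namespace Pool.Agent.K300

/-- indices: component and exponent -/
abbrev Ix := Fin 2 × (ℕ × ℕ)

/-- independent random variables; those of the component `c` have the law `ν c`, of mean zero and
variance one -/
structure Std {Ω : Type*} [MeasurableSpace Ω] (P : Measure Ω) (X : Ix → Ω → ℝ)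
    (ν : Fin 2 → Measure ℝ) : Prop where
  meas : ∀ i, Measurable (X i)
  indep : iIndepFun X P
  law : ∀ i, P.map (X i) = ν i.1
  mean : ∀ c, ∫ x, x ∂(ν c) = 0
  var : ∀ c, ∫ x, x ^ 2 ∂(ν c) = 1

variable {Ω : Type*} [MeasurableSpace Ω] {P : Measure Ω} [IsProbabilityMeasure P]
  {X : Ix → Ω → ℝ} {ν : Fin 2 → Measure ℝ} [∀ c, IsProbabilityMeasure (ν c)]

/-- the event of a class -/
def PhiC (n K L : ℕ) (tgt : Fin 4 → Fin 4 → ℝ) (c : Fin 2) (q : Fin 4 × Fin 4 × Fin 2) :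
    Set (Ix → ℝ) :=
  {ξ | |sgq q * cmean K L q (fun m => ξ (c, m)) * √((K * L : ℕ) : ℝ) - tgt q.1 q.2.1| ≤ 1} ∩
  {ξ | en n (xl K 2) (xl L 2) (cls K L q)
      (fun m => ξ (c, m) - cmean K L q (fun m => ξ (c, m))) ≤ 8 * (cls K L q).card}

/-- the event of the rest of the window -/
def PhiR (n b K L : ℕ) (c : Fin 2) : Set (Ix → ℝ) :=
  {ξ | en n (xl K 2) (xl L 2) (restS n b K L) (fun m => sg m * ξ (c, m)) ≤ 8 * (K * L : ℕ)}

/-- the event outside the window -/
def PhiO (n b K L : ℕ) (c : Fin 2) : Set (Ix → ℝ) :=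
  {ξ | en n (xl K 2) (xl L 2) (outS n b K L) (fun m => sg m * ξ (c, m)) ≤ (K * L : ℕ)}

lemma measurable_cmean (K L : ℕ) (q : Fin 4 × Fin 4 × Fin 2) (c : Fin 2) :
    Measurable fun ξ : Ix → ℝ => cmean K L q (fun m => ξ (c, m)) := by
  unfold cmean
  fun_prop

lemma depOn_PhiC (n K L : ℕ) (tgt : Fin 4 → Fin 4 → ℝ) (c : Fin 2) (q : Fin 4 × Fin 4 × Fin 2) :
    DepOn (({c} : Finset (Fin 2)) ×ˢ cls K L q) (PhiC n K L tgt c q) := by
  have hm := measurable_cmean K L q c
  refine ⟨?_, ?_⟩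
  · unfold PhiC
    refine MeasurableSet.inter ?_ ?_
    · exact measurableSet_le (by fun_prop) measurable_const
    · refine measurableSet_le ?_ measurable_const
      unfold en
      fun_prop
  · intro ξ ξ' h
    have h1 : ∀ m ∈ cls K L q, ξ (c, m) = ξ' (c, m) := fun m hm =>
      h (c, m) (Finset.mem_product.2 ⟨Finset.mem_singleton_self c, hm⟩)
    have h2 : cmean K L q (fun m => ξ (c, m)) = cmean K L q (fun m => ξ' (c, m)) := by
      unfold cmean
      rw [Finset.sum_congr rfl h1]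
    have h3 : en n (xl K 2) (xl L 2) (cls K L q)
        (fun m => ξ (c, m) - cmean K L q (fun m => ξ (c, m))) =
        en n (xl K 2) (xl L 2) (cls K L q)
        (fun m => ξ' (c, m) - cmean K L q (fun m => ξ' (c, m))) := by
      unfold en
      rw [h2]
      refine Finset.sum_congr rfl fun t _ => ?_
      congr 2
      refine Finset.sum_congr rfl fun m hm => ?_
      simp only [h1 m hm]
    simp only [PhiC, mem_inter_iff, mem_ofPred_eq]
    rw [h2] at h3 ⊢
    rw [h3]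

lemma depOn_en (n : ℕ) (x y R : ℝ) (S : Finset (ℕ × ℕ)) (c : Fin 2) :
    DepOn (({c} : Finset (Fin 2)) ×ˢ S)
      {ξ : Ix → ℝ | en n x y S (fun m => sg m * ξ (c, m)) ≤ R} := by
  refine ⟨?_, ?_⟩
  · refine measurableSet_le ?_ measurable_const
    unfold en
    fun_prop
  · intro ξ ξ' h
    have h1 : ∀ m ∈ S, ξ (c, m) = ξ' (c, m) := fun m hm =>
      h (c, m) (Finset.mem_product.2 ⟨Finset.mem_singleton_self c, hm⟩)
    have h3 : en n x y S (fun m => sg m * ξ (c, m)) = en n x y S (fun m => sg m * ξ' (c, m)) := by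
      unfold en
      refine Finset.sum_congr rfl fun t _ => ?_
      congr 2
      refine Finset.sum_congr rfl fun m hm => ?_
      simp only [h1 m hm]
    simp only [mem_ofPred_eq, h3]

lemma depOn_PhiR (n b K L : ℕ) (c : Fin 2) :
    DepOn (({c} : Finset (Fin 2)) ×ˢ restS n b K L) (PhiR n b K L c) := depOn_en _ _ _ _ _ _

/-! ### Second moments -/

lemma Std.integrable_sq (h : Std P X ν) (i : Ix) : Integrable (fun ω => X i ω ^ 2) P := by
  have h1 : Integrable (fun x : ℝ => x ^ 2) (ν i.1) := by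
    by_contra hni
    have := integral_undef hni
    rw [h.var] at this
    exact one_ne_zero this
  rw [← h.law i] at h1
  exact h1.comp_measurable (h.meas i)

lemma Std.integrable_sq_law (h : Std P X ν) (c : Fin 2) :
    Integrable (fun x : ℝ => x ^ 2) (ν c) := by
  by_contra hni
  have := integral_undef hni
  rw [h.var] at this
  exact one_ne_zero this

lemma Std.integrable_mul (h : Std P X ν) (i j : Ix) : Integrable (fun ω => X i ω * X j ω) P := by
  have hi := h.meas i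
  have hj := h.meas j
  refine Integrable.mono' ((h.integrable_sq i).add (h.integrable_sq j))
    (hi.mul hj).aestronglyMeasurable (ae_of_all _ fun x => ?_)
  simp only [Real.norm_eq_abs, abs_mul, Pi.add_apply]
  nlinarith [sq_nonneg (|X i x| - |X j x|), sq_abs (X i x), sq_abs (X j x), sq_nonneg (X i x),
    sq_nonneg (X j x)]

lemma Std.integral_mul (h : Std P X ν) (i j : Ix) :
    ∫ ω, X i ω * X j ω ∂P = if i = j then 1 else 0 := by
  split_ifs with hij
  · subst hij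
    rw [← h.var i.1, ← h.law i, integral_map (h.meas i).aemeasurable (by fun_prop)]
    simp only [sq]
  · have h1 := (h.indep.indepFun hij).integral_fun_mul_eq_mul_integral
      (h.meas i).aestronglyMeasurable (h.meas j).aestronglyMeasurable
    rw [h1]
    have h2 : ∫ ω, X i ω ∂P = 0 := by
      rw [← h.mean i.1, ← h.law i, integral_map (h.meas i).aemeasurable (by fun_prop)]
    rw [h2, zero_mul]

lemma Std.integral_sq_sum (h : Std P X ν) (S : Finset (ℕ × ℕ)) (b : ℕ × ℕ → ℝ) (c : Fin 2) :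
    Integrable (fun ω => (∑ m ∈ S, b m * X (c, m) ω) ^ 2) P ∧
    ∫ ω, (∑ m ∈ S, b m * X (c, m) ω) ^ 2 ∂P = ∑ m ∈ S, b m ^ 2 := by
  have e : (fun ω => (∑ m ∈ S, b m * X (c, m) ω) ^ 2) =
      fun ω => ∑ m ∈ S, ∑ m' ∈ S, b m * b m' * (X (c, m) ω * X (c, m') ω) := by
    ext ω
    rw [sq, Finset.sum_mul_sum]
    refine Finset.sum_congr rfl fun m _ => Finset.sum_congr rfl fun m' _ => ?_
    ring
  rw [e]
  refine ⟨integrable_finsetSum _ fun m _ => integrable_finsetSum _ fun m' _ =>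
    (h.integrable_mul _ _).const_mul _, ?_⟩
  rw [integral_finsetSum _ fun m _ => integrable_finsetSum _ fun m' _ =>
    (h.integrable_mul _ _).const_mul _]
  refine Finset.sum_congr rfl fun m hm => ?_
  rw [integral_finsetSum _ fun m' _ => (h.integrable_mul _ _).const_mul _]
  simp only [integral_const_mul, h.integral_mul]
  rw [Finset.sum_eq_single m]
  · simp [sq]
  · intro m' _ hne
    rw [if_neg, mul_zero]
    intro he
    exact hne (Prod.ext_iff.1 he).2.symm
  · intro hm'; exact absurd hm hm'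

lemma Std.en_moment (h : Std P X ν) {n : ℕ} {S : Finset (ℕ × ℕ)}
    (hS : ∀ m ∈ S, m.1 ≤ n ∧ m.2 ≤ n) (x y : ℝ) (c : Fin 2) :
    Integrable (fun ω => en n x y S (fun m => sg m * X (c, m) ω)) P ∧
    ∫ ω, en n x y S (fun m => sg m * X (c, m) ω) ∂P = ∑ m ∈ S, x ^ m.1 * y ^ m.2 := by
  have e : (fun ω => en n x y S (fun m => sg m * X (c, m) ω)) =
      fun ω => ∑ t ∈ grid n, aw2 n x y t * (∑ m ∈ S, (sg m * ind m t) * X (c, m) ω) ^ 2 := by
    ext ω
    unfold en
    refine Finset.sum_congr rfl fun t _ => ?_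
    congr 2
    exact Finset.sum_congr rfl fun m _ => by ring
  rw [e]
  have h1 := fun t => h.integral_sq_sum S (fun m => sg m * ind m t) c
  refine ⟨integrable_finsetSum _ fun t _ => (h1 t).1.const_mul _, ?_⟩
  rw [integral_finsetSum _ fun t _ => (h1 t).1.const_mul _]
  simp only [integral_const_mul]
  have h2 : ∀ t ∈ grid n, aw2 n x y t * ∫ ω, (∑ m ∈ S, (sg m * ind m t) * X (c, m) ω) ^ 2 ∂P =
      ∑ m ∈ S, aw2 n x y t * ind m t := by
    intro t _
    rw [(h1 t).2, Finset.mul_sum]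
    refine Finset.sum_congr rfl fun m _ => ?_
    rw [mul_pow, sg_sq, ind_sq]; ring
  rw [Finset.sum_congr rfl h2, Finset.sum_comm]
  refine Finset.sum_congr rfl fun m hm => ?_
  exact sum_aw2 (hS m hm).1 (hS m hm).2 x y

lemma en_nonneg {n : ℕ} {x y : ℝ} (h0 : 0 ≤ x) (h1 : x ≤ 1) (h2 : 0 ≤ y) (h3 : y ≤ 1)
    (S : Finset (ℕ × ℕ)) (c : ℕ × ℕ → ℝ) : 0 ≤ en n x y S c :=
  Finset.sum_nonneg fun t _ => mul_nonneg (aw2_nonneg h0 h1 h2 h3 t) (sq_nonneg _)

/-- Markov's inequality for the energy -/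
lemma Std.markov (h : Std P X ν) {n : ℕ} {S : Finset (ℕ × ℕ)}
    (hS : ∀ m ∈ S, m.1 ≤ n ∧ m.2 ≤ n) {x y : ℝ} (h0 : 0 ≤ x) (h1 : x ≤ 1) (h2 : 0 ≤ y)
    (h3 : y ≤ 1) (c : Fin 2) {R : ℝ} (hR : 0 < R) :
    P.real (ev X {ξ | en n x y S (fun m => sg m * ξ (c, m)) ≤ R})ᶜ ≤
      (∑ m ∈ S, x ^ m.1 * y ^ m.2) / R := by
  obtain ⟨hi, he⟩ := h.en_moment hS x y c
  have h4 := mul_meas_ge_le_integral_of_nonneg
    (ae_of_all P fun ω => en_nonneg (n := n) h0 h1 h2 h3 S (fun m => sg m * X (c, m) ω)) hi R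
  rw [he] at h4
  rw [le_div_iff₀ hR, mul_comm]
  refine le_trans (mul_le_mul_of_nonneg_left (measureReal_mono ?_) hR.le) h4
  intro ω hω
  simp only [ev, mem_compl_iff, mem_ofPred_eq, not_le] at hω
  exact hω.le

/-! ### Sums of powers -/

lemma sum_pow_le {K : ℕ} (hK : K ≠ 0) (N : ℕ) :
    ∑ i ∈ Finset.range N, xl K 2 ^ i ≤ 2 * K := by
  have h0 := (xl_pos K (ℓ := 2) (by norm_num)).le
  have hK' : (0:ℝ) < K := by positivity
  have h1 := xl_gap hK
  have h2 := geom_sum_mul_neg (xl K 2) N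
  have h3 : 0 ≤ xl K 2 ^ N := pow_nonneg h0 N
  have h4 : 0 ≤ ∑ i ∈ Finset.range N, xl K 2 ^ i := Finset.sum_nonneg fun i _ => pow_nonneg h0 i
  have h5 : (∑ i ∈ Finset.range N, xl K 2 ^ i) * (1 / (2 * K)) ≤ 1 := by
    calc _ ≤ (∑ i ∈ Finset.range N, xl K 2 ^ i) * (1 - xl K 2) :=
          mul_le_mul_of_nonneg_left h1 h4
      _ = 1 - xl K 2 ^ N := h2
      _ ≤ 1 := by linarith
  rw [mul_one_div, div_le_one (by positivity)] at h5
  exact h5

lemma sum_prod_le {K L n : ℕ} (hK : K ≠ 0) (hL : L ≠ 0) {S : Finset (ℕ × ℕ)}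
    (hS : S ⊆ grid n) : ∑ m ∈ S, xl K 2 ^ m.1 * xl L 2 ^ m.2 ≤ 4 * (K * L : ℕ) := by
  have h0 := (xl_pos K (ℓ := 2) (by norm_num)).le
  have h0' := (xl_pos L (ℓ := 2) (by norm_num)).le
  have h1 : ∑ m ∈ S, xl K 2 ^ m.1 * xl L 2 ^ m.2 ≤ ∑ m ∈ grid n, xl K 2 ^ m.1 * xl L 2 ^ m.2 :=
    Finset.sum_le_sum_of_subset_of_nonneg hS fun m _ _ =>
      mul_nonneg (pow_nonneg h0 _) (pow_nonneg h0' _)
  refine h1.trans ?_
  rw [grid, Finset.sum_product, ← Finset.sum_mul_sum]
  have h2 := sum_pow_le hK (n + 1)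
  have h3 := sum_pow_le hL (n + 1)
  have h4 : 0 ≤ ∑ i ∈ Finset.range (n + 1), xl L 2 ^ i :=
    Finset.sum_nonneg fun i _ => pow_nonneg h0' i
  have := mul_le_mul h2 h3 h4 (by positivity)
  push_cast
  linarith

lemma tri_sub_grid (n : ℕ) : tri n ⊆ grid n := Finset.filter_subset _ _

lemma grid_le {n : ℕ} {S : Finset (ℕ × ℕ)} (hS : S ⊆ grid n) : ∀ m ∈ S, m.1 ≤ n ∧ m.2 ≤ n := by
  intro m hm
  have := hS hm
  simp only [grid, Finset.mem_product, Finset.mem_range] at this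
  omega

lemma restS_sub (n b K L : ℕ) : restS n b K L ⊆ grid n :=
  (Finset.sdiff_subset.trans (Finset.filter_subset _ _)).trans (tri_sub_grid n)

lemma outS_sub (n b K L : ℕ) : outS n b K L ⊆ grid n :=
  (Finset.filter_subset _ _).trans (tri_sub_grid n)

/-- probability of the rest event -/
lemma Std.prob_R (h : Std P X ν) {n b K L : ℕ} (hK : K ≠ 0) (hL : L ≠ 0) (c : Fin 2) :
    1 / 2 ≤ P.real (ev X (PhiR n b K L c)) := by
  have hKL : (0:ℝ) < ((K * L : ℕ) : ℝ) := by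
    have : 0 < K * L := Nat.mul_pos (by omega) (by omega)
    exact_mod_cast this
  have h1 := h.markov (grid_le (restS_sub n b K L)) (xl_pos K (ℓ := 2) (by norm_num)).le
    (xl_le_one hK) (xl_pos L (ℓ := 2) (by norm_num)).le (xl_le_one hL) c
    (R := 8 * (K * L : ℕ)) (by positivity)
  have h2 := sum_prod_le hK hL (restS_sub n b K L)
  have h3 : (∑ m ∈ restS n b K L, xl K 2 ^ m.1 * xl L 2 ^ m.2) / (8 * (K * L : ℕ)) ≤ 1 / 2 := by
    rw [div_le_div_iff₀ (by positivity) (by norm_num)]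
    linarith
  have h4 := probReal_compl_eq_one_sub (μ := P) (measurableSet_ev h.meas
    (depOn_PhiR n b K L c).meas)
  have h5 : P.real (ev X (PhiR n b K L c))ᶜ ≤ 1 / 2 := h1.trans h3
  linarith

end Pool.Agent.K300
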