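import Pool.Agent.K300.Prob

/-! Lower bound for the probability of a good cell. -/

open Set MeasureTheory ProbabilityTheory

set_option linter.unusedSectionVars false

namespace Pool.Agent.K300

variable {Ω : Type*} [MeasurableSpace Ω] {P : Measure Ω} [IsProbabilityMeasure P]
  {X : Ix → Ω → ℝ} {ν : Fin 2 → Measure ℝ} [∀ c, IsProbabilityMeasure (ν c)]

/-- the centre of the window of a class -/
noncomputable def vq (tgt : Fin 4 → Fin 4 → ℝ) (q : Fin 4 × Fin 4 × Fin 2) : ℝ :=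
  sgq q * tgt q.1 q.2.1 / √2

lemma Std.prob_C (h : Std P X ν) {n K L : ℕ} (hK : K ≠ 0) (hL : L ≠ 0) (hLe : Even L)
    (hn : 5 * (K + L) ≤ n) {tgt : Fin 4 → Fin 4 → ℝ} {c : Fin 2} {q : Fin 4 × Fin 4 × Fin 2}
    {p : ℝ} {N₀ : ℕ} (hp : ∀ (κ : Type) [Fintype κ], N₀ ≤ Fintype.card κ →
      p ≤ (Measure.pi (fun _ : κ => ν c)).real (win κ (vq tgt q))) (hN : N₀ ≤ (cls K L q).card) :
    p / 2 ≤ P.real (ev X (PhiC n K L tgt c q)) := by
  classical
  have hKL : (0:ℝ) < ((K * L : ℕ) : ℝ) := by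
    have : 0 < K * L := Nat.mul_pos (by omega) (by omega)
    exact_mod_cast this
  have hcard : 2 * ((cls K L q).card : ℝ) = ((K * L : ℕ) : ℝ) := by
    exact_mod_cast two_card_cls hLe q
  have hN0 : (0:ℝ) < ((cls K L q).card : ℝ) := by linarith
  set κ : Type := {m // m ∈ cls K L q} with hκ
  have hcκ : Fintype.card κ = (cls K L q).card := Fintype.card_coe _
  set e : κ → Ix := fun m => (c, m.1) with he
  have hinj : Function.Injective e := by
    intro m m' hmm
    exact Subtype.ext (Prod.ext_iff.1 hmm).2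
  have x0 := (xl_pos K (ℓ := 2) (by norm_num)).le
  have x1 := xl_le_one hK
  have y0 := (xl_pos L (ℓ := 2) (by norm_num)).le
  have y1 := xl_le_one hL
  have hgrid : ∀ m ∈ cls K L q, m.1 ≤ n ∧ m.2 ≤ n := by
    intro m hm
    have := mem_tri.1 (cls_tri hn hm)
    omega
  have hWa : ∑ t ∈ grid n, aw2 n (xl K 2) (xl L 2) t *
      ∑ m : κ, (fun (t : ℕ × ℕ) (m : κ) => ind m.1 t) t m ^ 2 ≤ Fintype.card κ := by
    simp only [ind_sq]
    have h1 : ∀ t ∈ grid n, aw2 n (xl K 2) (xl L 2) t * ∑ m : κ, ind m.1 t =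
        ∑ m ∈ cls K L q, aw2 n (xl K 2) (xl L 2) t * ind m t := by
      intro t _
      rw [Finset.mul_sum]
      exact Finset.sum_coe_sort (cls K L q) (fun m => aw2 n (xl K 2) (xl L 2) t * ind m t)
    rw [Finset.sum_congr rfl h1, Finset.sum_comm]
    have h2 : ∀ m ∈ cls K L q, ∑ t ∈ grid n, aw2 n (xl K 2) (xl L 2) t * ind m t ≤ 1 := by
      intro m hm
      rw [sum_aw2 (hgrid m hm).1 (hgrid m hm).2]
      exact mul_le_one₀ (pow_le_one₀ x0 x1) (pow_nonneg y0 _) (pow_le_one₀ y0 y1)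
    refine (Finset.sum_le_sum h2).trans ?_
    rw [hcκ]; simp
  have hmain := exch_event (κ := κ) (ν := ν c) (h.integrable_sq_law c) (v := vq tgt q) (p := p)
    (hp κ (by rw [hcκ]; exact hN)) (by rw [hcκ]; exact_mod_cast hN0) (grid n)
    (aw2 n (xl K 2) (xl L 2)) (fun t _ => aw2_nonneg x0 x1 y0 y1 t) (fun t m => ind m.1 t) hWa
  rw [← map_family h.meas h.indep (fun k => h.law (e k)) hinj] at hmain
  have hmf : Measurable (fun ω k => X (e k) ω) := measurable_pi_lambda _ fun k => h.meas _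
  rw [map_measureReal_apply hmf ((measurableSet_win κ _).inter
    (measurableSet_le (measurable_energy _ _ _) measurable_const))] at hmain
  refine hmain.trans (measureReal_mono ?_)
  rintro ω ⟨⟨h1, -⟩, h3⟩
  simp only [mem_ofPred_eq, hcκ] at h1 h3
  have hsum : ∀ f : ℕ × ℕ → ℝ, ∑ k : κ, f k.1 = ∑ m ∈ cls K L q, f m := fun f =>
    Finset.sum_coe_sort (cls K L q) f
  have hs1 : ∑ k : κ, X (e k) ω = ∑ m ∈ cls K L q, X (c, m) ω := hsum fun m => X (c, m) ω
  rw [hs1] at h1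
  set N : ℝ := ((cls K L q).card : ℝ) with hNdef
  have hsqN : 0 < √N := Real.sqrt_pos.2 hN0
  have hsq2 : (0:ℝ) < √2 := by positivity
  have hsqNN : √N * √N = N := Real.mul_self_sqrt hN0.le
  have hsq22 : √2 * √2 = (2:ℝ) := Real.mul_self_sqrt (by norm_num)
  have hcm : cmean K L q (fun m => X (c, m) ω) = (∑ m ∈ cls K L q, X (c, m) ω) / N := rfl
  refine ⟨?_, ?_⟩
  · change |sgq q * cmean K L q (fun m => X (c, m) ω) * √((K * L : ℕ) : ℝ) - tgt q.1 q.2.1| ≤ 1
    rw [hcm, ← hcard, Real.sqrt_mul (by norm_num)]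
    have e1 : sgq q * ((∑ m ∈ cls K L q, X (c, m) ω) / N) * (√2 * √N) - tgt q.1 q.2.1 =
        sgq q * √2 * ((√N)⁻¹ * ∑ m ∈ cls K L q, X (c, m) ω - vq tgt q) := by
      have hss : sgq q * sgq q = 1 := by
        have := abs_sgq q
        rw [← abs_mul_abs_self, this]; norm_num
      have e2 : sgq q * √2 * ((√N)⁻¹ * ∑ m ∈ cls K L q, X (c, m) ω - vq tgt q) =
          sgq q * √2 * (√N)⁻¹ * ∑ m ∈ cls K L q, X (c, m) ω - sgq q * √2 * vq tgt q := by ring
      have e3 : sgq q * √2 * vq tgt q = tgt q.1 q.2.1 := by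
        unfold vq
        have : sgq q * √2 * (sgq q * tgt q.1 q.2.1 / √2) =
          (sgq q * sgq q) * tgt q.1 q.2.1 := by field_simp
        rw [this, hss, one_mul]
      rw [e2, e3]
      congr 1
      have e4 : (√N)⁻¹ = √N / N := by
        rw [eq_div_iff hN0.ne']
        nth_rewrite 2 [← hsqNN]
        field_simp
      rw [e4]; ring
    rw [e1, abs_mul, abs_mul, abs_sgq, one_mul, abs_of_pos hsq2]
    have hs2 : √2 ≤ 2 := by nlinarith
    calc √2 * |(√N)⁻¹ * ∑ m ∈ cls K L q, X (c, m) ω - vq tgt q| ≤ 2 * (1 / 2) :=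
          mul_le_mul hs2 h1.le (abs_nonneg _) (by norm_num)
      _ = 1 := by norm_num
  · change en n (xl K 2) (xl L 2) (cls K L q)
      (fun m => X (c, m) ω - cmean K L q (fun m => X (c, m) ω)) ≤ 8 * (cls K L q).card
    refine le_trans (le_of_eq ?_) h3
    unfold en energy
    refine Finset.sum_congr rfl fun t _ => ?_
    congr 2
    rw [hcκ, hs1, hcm, ← hsum]
    refine Finset.sum_congr rfl fun m _ => ?_
    simp only
    ring

/-- targets of the components -/
noncomputable def tgtc (c : Fin 2) : Fin 4 → Fin 4 → ℝ := if c = 0 then tgt0 else tgt1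

/-- index of the independent pieces of a cell -/
abbrev Jx := (Fin 2 × (Fin 4 × Fin 4 × Fin 2)) ⊕ Fin 2

def pieceS (n b K L : ℕ) : Jx → Finset Ix
  | Sum.inl cq => ({cq.1} : Finset (Fin 2)) ×ˢ cls K L cq.2
  | Sum.inr c => ({c} : Finset (Fin 2)) ×ˢ restS n b K L

def pieceE (n b K L : ℕ) : Jx → Set (Ix → ℝ)
  | Sum.inl cq => PhiC n K L (tgtc cq.1) cq.1 cq.2
  | Sum.inr c => PhiR n b K L c

lemma depOn_piece (n b K L : ℕ) (j : Jx) : DepOn (pieceS n b K L j) (pieceE n b K L j) := by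
  rcases j with cq | c
  · exact depOn_PhiC _ _ _ _ _ _
  · exact depOn_PhiR _ _ _ _ _

lemma piece_disjoint (n b K L : ℕ) (i j : Jx) (hij : i ≠ j) :
    Disjoint (pieceS n b K L i) (pieceS n b K L j) := by
  have h1 : ∀ (c c' : Fin 2) (q : Fin 4 × Fin 4 × Fin 2), Disjoint
      (({c} : Finset (Fin 2)) ×ˢ cls K L q) (({c'} : Finset (Fin 2)) ×ˢ restS n b K L) := by
    intro c c' q
    rw [Finset.disjoint_product]
    right
    rw [Finset.disjoint_left]
    intro m hm hm'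
    exact (Finset.mem_sdiff.1 hm').2 (Finset.mem_biUnion.2 ⟨q, Finset.mem_univ _, hm⟩)
  rcases i with ⟨c, q⟩ | c <;> rcases j with ⟨c', q'⟩ | c'
  · simp only [pieceS]
    rw [Finset.disjoint_product]
    by_cases hc : c = c'
    · right
      refine cls_disjoint q q' fun hq => hij ?_
      rw [hc, hq]
    · left
      simpa using hc
  · exact h1 c c' q
  · exact (h1 c' c q').symm
  · simp only [pieceS]
    rw [Finset.disjoint_product]
    left
    simpa using fun hc : c = c' => hij (by rw [hc])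

/-- the windowed good event of a cell -/
def Gd (n b K L : ℕ) : Set (Ix → ℝ) := ⋂ j ∈ (Finset.univ : Finset Jx), pieceE n b K L j

/-- the coordinates of a window -/
def WS (n b K L : ℕ) : Finset Ix := (Finset.univ : Finset (Fin 2)) ×ˢ (tri n).filter (Wd b K L)

lemma depOn_Gd {n b K L : ℕ} (hb : 3 ≤ b) (hK : 0 < K) (hL : 0 < L) (hn : 5 * (K + L) ≤ n) :
    DepOn (WS n b K L) (Gd n b K L) := by
  refine DepOn.biInter _ fun j _ => (depOn_piece n b K L j).mono ?_
  rcases j with ⟨c, q⟩ | c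
  · intro i hi
    have := (Finset.mem_product.1 hi).2
    exact Finset.mem_product.2 ⟨Finset.mem_univ _, Finset.mem_filter.2
      ⟨cls_tri hn this, cls_Wd hb hK hL this⟩⟩
  · intro i hi
    have := (Finset.mem_product.1 hi).2
    exact Finset.mem_product.2 ⟨Finset.mem_univ _, (Finset.mem_sdiff.1 this).1⟩

/-- **A cell is good with a probability bounded from below by an absolute constant.** -/
theorem exists_p0.{u} : ∃ p₀ : ℝ, 0 < p₀ ∧ ∀ (ν : Fin 2 → Measure ℝ)
    [∀ c, IsProbabilityMeasure (ν c)], (∀ c, ∫ x, x ∂(ν c) = 0) → (∀ c, ∫ x, x ^ 2 ∂(ν c) = 1) →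
      ∃ N₀ : ℕ,
      ∀ {Ω : Type u} [MeasurableSpace Ω] (P : Measure Ω) [IsProbabilityMeasure P]
        (X : Ix → Ω → ℝ), Std P X ν → ∀ n b K L : ℕ, K ≠ 0 → L ≠ 0 → Even L →
        5 * (K + L) ≤ n → N₀ ≤ K → p₀ ≤ P.real (ev X (Gd n b K L)) := by
  choose p hp hp2 using fun cq : Fin 2 × (Fin 4 × Fin 4 × Fin 2) =>
    clt_event (vq (tgtc cq.1) cq.2)
  set pj : Jx → ℝ := fun j => Sum.elim (fun cq => p cq / 2) (fun _ => 1 / 2) j with hpj
  have hpj0 : ∀ j, 0 < pj j := by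
    rintro (cq | c)
    · simp only [hpj, Sum.elim_inl]; have := hp cq; positivity
    · simp only [hpj, Sum.elim_inr]; norm_num
  refine ⟨∏ j, pj j, Finset.prod_pos fun j _ => hpj0 j, fun ν _ h0 h1 => ?_⟩
  choose N hN using fun cq : Fin 2 × (Fin 4 × Fin 4 × Fin 2) => hp2 cq (ν cq.1) (h0 cq.1) (h1 cq.1)
  refine ⟨2 * Finset.univ.sup N, ?_⟩
  intro Ω _ P _ X h n b K L hK hL hLe hn hN₀
  unfold Gd
  rw [DepOn.prod h.meas h.indep Finset.univ (piece_disjoint n b K L) (depOn_piece n b K L)]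
  refine Finset.prod_le_prod (fun j _ => (hpj0 j).le) ?_
  rintro (cq | c) _
  · refine h.prob_C hK hL hLe hn (hN cq) ?_
    have h2 : N cq ≤ Finset.univ.sup N := Finset.le_sup (Finset.mem_univ cq)
    have h3 := two_card_cls (K := K) hLe cq.2
    have h4 : K ≤ K * L := Nat.le_mul_of_pos_right _ (by omega)
    omega
  · exact h.prob_R hK hL c

end Pool.Agent.K300
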