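import Pool.Agent.GR.Flow

/-! A quarter of a turn through an L-shaped trap. -/

open Set Filter Topology

namespace Pool.Agent.K300

lemma ev_slope_pos {f : ℝ → ℝ} {f' t : ℝ} (h : HasDerivAt f f' t) (hf' : 0 < f') :
    ∀ᶠ s in 𝓝[≠] t, 0 < slope f t s :=
  (hasDerivAt_iff_tendsto_slope.1 h).eventually (lt_mem_nhds hf')

lemma ev_right_gt {f : ℝ → ℝ} {f' t : ℝ} (h : HasDerivAt f f' t) (hf' : 0 < f') :
    ∀ᶠ s in 𝓝[>] t, f t < f s := by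
  have h1 := (ev_slope_pos h hf').filter_mono (nhdsWithin_mono t (fun s hs => ne_of_gt hs) :
    𝓝[>] t ≤ 𝓝[≠] t)
  filter_upwards [h1, self_mem_nhdsWithin] with s hs hst
  rw [slope_def_field] at hs
  have h2 : 0 < s - t := sub_pos.2 hst
  have := (div_pos_iff_of_pos_right h2).1 hs
  linarith

lemma ev_left_lt {f : ℝ → ℝ} {f' t : ℝ} (h : HasDerivAt f f' t) (hf' : 0 < f') :
    ∀ᶠ s in 𝓝[<] t, f s < f t := by
  have h1 := (ev_slope_pos h hf').filter_mono (nhdsWithin_mono t (fun s hs => ne_of_lt hs) :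
    𝓝[<] t ≤ 𝓝[≠] t)
  filter_upwards [h1, self_mem_nhdsWithin] with s hs hst
  rw [slope_def_field] at hs
  have h2 : s - t < 0 := sub_neg.2 hst
  by_contra hc
  have := div_nonpos_of_nonneg_of_nonpos (sub_nonneg.2 (not_lt.1 hc)) h2.le
  linarith

lemma ev_right_lt {f : ℝ → ℝ} {f' t : ℝ} (h : HasDerivAt f f' t) (hf' : f' < 0) :
    ∀ᶠ s in 𝓝[>] t, f s < f t := by
  filter_upwards [ev_right_gt h.neg (neg_pos.2 hf')] with s hs
  simpa using hs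

lemma ev_left_gt {f : ℝ → ℝ} {f' t : ℝ} (h : HasDerivAt f f' t) (hf' : f' < 0) :
    ∀ᶠ s in 𝓝[<] t, f t < f s := by
  filter_upwards [ev_left_lt h.neg (neg_pos.2 hf')] with s hs
  simpa using hs

/-- the conditions on a planar field in a quadrant -/
structure Quad (W : ℝ × ℝ → ℝ × ℝ) (a₁ a₂ a₃ b₀ b₁ b₂ : ℝ) : Prop where
  ha1 : 0 < a₁
  ha12 : a₁ < a₂
  ha23 : a₂ < a₃
  hb0 : 0 < b₀
  hb01 : b₀ < b₁
  hb12 : b₁ < b₂
  top : ∀ x, 0 ≤ x → x ≤ a₃ → (W (x, b₂)).2 < 0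
  right : ∀ y, 0 ≤ y → y ≤ b₂ → (W (a₃, y)).1 < 0
  inTop : ∀ x, 0 ≤ x → x ≤ a₁ → 0 < (W (x, b₁)).2
  inRight : ∀ y, 0 ≤ y → y ≤ b₁ → 0 < (W (a₁, y)).1
  z1 : ∀ x y, 0 ≤ x → x ≤ a₂ → b₁ ≤ y → y ≤ b₂ → 0 < (W (x, y)).1
  z1' : ∀ x y, a₁ ≤ x → x ≤ a₂ → b₀ ≤ y → y ≤ b₁ → 0 < (W (x, y)).1
  z2 : ∀ x y, a₂ ≤ x → x ≤ a₃ → 0 ≤ y → y ≤ b₂ → (W (x, y)).2 < 0
  z2' : ∀ x y, a₁ ≤ x → x ≤ a₃ → 0 ≤ y → y ≤ b₀ → (W (x, y)).2 < 0

variable {W : ℝ × ℝ → ℝ × ℝ} {a₁ a₂ a₃ b₀ b₁ b₂ : ℝ} {z : ℝ → ℝ × ℝ}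

/-- the region -/
def reg (a₁ a₃ b₁ b₂ : ℝ) : Set (ℝ × ℝ) :=
  {p | 0 ≤ p.1 ∧ p.1 ≤ a₃ ∧ 0 ≤ p.2 ∧ p.2 ≤ b₂ ∧ (a₁ ≤ p.1 ∨ b₁ ≤ p.2)}

lemma isClosed_reg (a₁ a₃ b₁ b₂ : ℝ) : IsClosed (reg a₁ a₃ b₁ b₂) := by
  have h1 : IsClosed {p : ℝ × ℝ | 0 ≤ p.1} := isClosed_le continuous_const continuous_fst
  have h2 : IsClosed {p : ℝ × ℝ | p.1 ≤ a₃} := isClosed_le continuous_fst continuous_const
  have h3 : IsClosed {p : ℝ × ℝ | 0 ≤ p.2} := isClosed_le continuous_const continuous_snd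
  have h4 : IsClosed {p : ℝ × ℝ | p.2 ≤ b₂} := isClosed_le continuous_snd continuous_const
  have h5 : IsClosed {p : ℝ × ℝ | a₁ ≤ p.1} := isClosed_le continuous_const continuous_fst
  have h6 : IsClosed {p : ℝ × ℝ | b₁ ≤ p.2} := isClosed_le continuous_const continuous_snd
  exact h1.inter (h2.inter (h3.inter (h4.inter (h5.union h6))))

lemma hasDerivAt_fst {W : ℝ × ℝ → ℝ × ℝ} {z : ℝ → ℝ × ℝ} (hz : ∀ t, HasDerivAt z (W (z t)) t)
    (t : ℝ) : HasDerivAt (fun t => (z t).1) (W (z t)).1 t :=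
  (ContinuousLinearMap.fst ℝ ℝ ℝ).hasFDerivAt.comp_hasDerivAt t (hz t)

lemma hasDerivAt_snd {W : ℝ × ℝ → ℝ × ℝ} {z : ℝ → ℝ × ℝ} (hz : ∀ t, HasDerivAt z (W (z t)) t)
    (t : ℝ) : HasDerivAt (fun t => (z t).2) (W (z t)).2 t :=
  (ContinuousLinearMap.snd ℝ ℝ ℝ).hasFDerivAt.comp_hasDerivAt t (hz t)

lemma ev_lt_of_cont {f : ℝ → ℝ} {t c : ℝ} (hf : Continuous f) (h : f t < c) :
    ∀ᶠ s in 𝓝[>] t, f s < c :=
  (hf.continuousAt.eventually (gt_mem_nhds h)).filter_mono nhdsWithin_le_nhds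

lemma ev_gt_of_cont {f : ℝ → ℝ} {t c : ℝ} (hf : Continuous f) (h : c < f t) :
    ∀ᶠ s in 𝓝[>] t, c < f s :=
  (hf.continuousAt.eventually (lt_mem_nhds h)).filter_mono nhdsWithin_le_nhds

/-- one step of staying in the region -/
lemma Quad.step (hQ : Quad W a₁ a₂ a₃ b₀ b₁ b₂) (hz : ∀ t, HasDerivAt z (W (z t)) t) {t : ℝ}
    (ht : z t ∈ reg a₁ a₃ b₁ b₂) (hpos : 0 < (z t).2) : ∀ᶠ s in 𝓝[>] t, z s ∈ reg a₁ a₃ b₁ b₂ := by
  have hzc : Continuous z := continuous_iff_continuousAt.2 fun t => (hz t).continuousAt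
  have hxc : Continuous fun t => (z t).1 := continuous_fst.comp hzc
  have hyc : Continuous fun t => (z t).2 := continuous_snd.comp hzc
  obtain ⟨h1, h2, h3, h4, h5⟩ := ht
  have hx := hasDerivAt_fst hz t
  have hy := hasDerivAt_snd hz t
  have e0 : z t = ((z t).1, (z t).2) := rfl
  -- lower bound for x
  have A1 : ∀ᶠ s in 𝓝[>] t, 0 ≤ (z s).1 := by
    rcases h1.lt_or_eq with h | h
    · exact (ev_gt_of_cont hxc h).mono fun s hs => hs.le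
    · have hb : b₁ ≤ (z t).2 := by
        rcases h5 with h5 | h5
        · exact absurd (h5.trans_eq h.symm) (not_le.2 hQ.ha1)
        · exact h5
      have hp : 0 < (W (z t)).1 := by
        rw [e0]; exact hQ.z1 _ _ h1 (by rw [← h]; linarith [hQ.ha1, hQ.ha12]) hb h4
      filter_upwards [ev_right_gt hx hp] with s hs
      linarith
  have A2 : ∀ᶠ s in 𝓝[>] t, (z s).1 ≤ a₃ := by
    rcases h2.lt_or_eq with h | h
    · exact (ev_lt_of_cont hxc h).mono fun s hs => hs.le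
    · have hp : (W (z t)).1 < 0 := by
        rw [e0, h]; exact hQ.right _ h3 h4
      filter_upwards [ev_right_lt hx hp] with s hs
      linarith
  have A3 : ∀ᶠ s in 𝓝[>] t, 0 ≤ (z s).2 := (ev_gt_of_cont hyc hpos).mono fun s hs => hs.le
  have A4 : ∀ᶠ s in 𝓝[>] t, (z s).2 ≤ b₂ := by
    rcases h4.lt_or_eq with h | h
    · exact (ev_lt_of_cont hyc h).mono fun s hs => hs.le
    · have hp : (W (z t)).2 < 0 := by
        rw [e0, h]; exact hQ.top _ h1 h2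
      filter_upwards [ev_right_lt hy hp] with s hs
      linarith
  have A5 : ∀ᶠ s in 𝓝[>] t, (a₁ ≤ (z s).1 ∨ b₁ ≤ (z s).2) := by
    by_cases ha : a₁ < (z t).1
    · exact (ev_gt_of_cont hxc ha).mono fun s hs => Or.inl hs.le
    by_cases hb : b₁ < (z t).2
    · exact (ev_gt_of_cont hyc hb).mono fun s hs => Or.inr hs.le
    push Not at ha hb
    rcases h5 with h5 | h5
    · have h := le_antisymm ha h5
      have hp : 0 < (W (z t)).1 := by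
        rw [e0, h]; exact hQ.inRight _ h3 hb
      filter_upwards [ev_right_gt hx hp] with s hs
      left; linarith
    · have h := le_antisymm hb h5
      have hp : 0 < (W (z t)).2 := by
        rw [e0, h]; exact hQ.inTop _ h1 ha
      filter_upwards [ev_right_gt hy hp] with s hs
      right; linarith
  filter_upwards [A1, A2, A3, A4, A5] with s h1 h2 h3 h4 h5 using ⟨h1, h2, h3, h4, h5⟩

lemma Quad.stay (hQ : Quad W a₁ a₂ a₃ b₀ b₁ b₂) (hz : ∀ t, HasDerivAt z (W (z t)) t) {T : ℝ}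
    (h0 : z 0 ∈ reg a₁ a₃ b₁ b₂) (hpos : ∀ t, 0 ≤ t → t < T → 0 < (z t).2) :
    ∀ t ∈ Icc 0 T, z t ∈ reg a₁ a₃ b₁ b₂ := by
  have hzc : Continuous z := continuous_iff_continuousAt.2 fun t => (hz t).continuousAt
  have hcl : IsClosed ({t | z t ∈ reg a₁ a₃ b₁ b₂} ∩ Icc 0 T) :=
    ((isClosed_reg a₁ a₃ b₁ b₂).preimage hzc).inter isClosed_Icc
  exact hcl.Icc_subset_of_forall_mem_nhdsWithin h0 fun t ht =>
    hQ.step hz ht.1 (hpos t ht.2.1 ht.2.2)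

/-- the second zone is forward invariant -/
lemma Quad.stay2 (hQ : Quad W a₁ a₂ a₃ b₀ b₁ b₂) (hz : ∀ t, HasDerivAt z (W (z t)) t) {t₀ T : ℝ}
    (hreg : ∀ t ∈ Icc t₀ T, z t ∈ reg a₁ a₃ b₁ b₂)
    (h0 : a₂ ≤ (z t₀).1 ∨ (z t₀).2 ≤ b₀) :
    ∀ t ∈ Icc t₀ T, a₂ ≤ (z t).1 ∨ (z t).2 ≤ b₀ := by
  have hzc : Continuous z := continuous_iff_continuousAt.2 fun t => (hz t).continuousAt
  have hxc : Continuous fun t => (z t).1 := continuous_fst.comp hzc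
  have hyc : Continuous fun t => (z t).2 := continuous_snd.comp hzc
  have hcl : IsClosed ({t | a₂ ≤ (z t).1 ∨ (z t).2 ≤ b₀} ∩ Icc t₀ T) :=
    ((isClosed_le continuous_const hxc).union (isClosed_le hyc continuous_const)).inter isClosed_Icc
  refine hcl.Icc_subset_of_forall_mem_nhdsWithin h0 fun t ht => ?_
  have e0 : z t = ((z t).1, (z t).2) := rfl
  obtain ⟨h1, h2, h3, h4, h5⟩ := hreg t ⟨ht.2.1, ht.2.2.le⟩
  have hx := hasDerivAt_fst hz t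
  have hy := hasDerivAt_snd hz t
  by_cases ha : a₂ < (z t).1
  · exact (ev_gt_of_cont hxc ha).mono fun s hs => Or.inl hs.le
  by_cases hb : (z t).2 < b₀
  · exact (ev_lt_of_cont hyc hb).mono fun s hs => Or.inr hs.le
  push Not at ha hb
  rcases ht.1 with h | h
  · have h' := le_antisymm ha h
    have hp : 0 < (W (z t)).1 := by
      rw [e0, h']
      by_cases hy1 : b₁ ≤ (z t).2
      · exact hQ.z1 _ _ (by linarith [hQ.ha1, hQ.ha12]) le_rfl hy1 h4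
      · exact hQ.z1' _ _ hQ.ha12.le le_rfl hb (not_le.1 hy1).le
    filter_upwards [ev_right_gt hx hp] with s hs
    left; linarith
  · have h' := le_antisymm h hb
    have h6 : a₁ ≤ (z t).1 := by
      rcases h5 with h5 | h5
      · exact h5
      · have := hQ.hb01; linarith
    have hp : (W (z t)).2 < 0 := by
      rw [e0, h']
      exact hQ.z2' _ _ h6 (ha.trans hQ.ha23.le) hQ.hb0.le le_rfl
    filter_upwards [ev_right_lt hy hp] with s hs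
    right; linarith

lemma exists_pos_lower {K : Set (ℝ × ℝ)} (hK : IsCompact K) {f : ℝ × ℝ → ℝ} (hf : Continuous f)
    (h : ∀ p ∈ K, 0 < f p) : ∃ c, 0 < c ∧ ∀ p ∈ K, c ≤ f p := by
  rcases K.eq_empty_or_nonempty with rfl | hne
  · exact ⟨1, one_pos, fun p hp => absurd hp (notMem_empty p)⟩
  · obtain ⟨p, hp, hmin⟩ := hK.exists_isMinOn hne hf.continuousOn
    exact ⟨f p, h p hp, fun q hq => hmin hq⟩

lemma Quad.rates (hQ : Quad W a₁ a₂ a₃ b₀ b₁ b₂) (hW : Continuous W) :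
    ∃ c, 0 < c ∧ (∀ p ∈ reg a₁ a₃ b₁ b₂, p.1 ≤ a₂ → b₀ ≤ p.2 → c ≤ (W p).1) ∧
      (∀ p ∈ reg a₁ a₃ b₁ b₂, (a₂ ≤ p.1 ∨ p.2 ≤ b₀) → (W p).2 ≤ -c) := by
  have hcomp : IsCompact (reg a₁ a₃ b₁ b₂) := by
    refine IsCompact.of_isClosed_subset (isCompact_Icc (a := ((0:ℝ), (0:ℝ))) (b := (a₃, b₂)))
      (isClosed_reg _ _ _ _) ?_
    rintro p ⟨h1, h2, h3, h4, -⟩
    exact ⟨⟨h1, h3⟩, ⟨h2, h4⟩⟩
  have hK1 : IsCompact (reg a₁ a₃ b₁ b₂ ∩ {p : ℝ × ℝ | p.1 ≤ a₂ ∧ b₀ ≤ p.2}) :=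
    hcomp.inter_right ((isClosed_le continuous_fst continuous_const).inter
      (isClosed_le continuous_const continuous_snd))
  have hK2 : IsCompact (reg a₁ a₃ b₁ b₂ ∩ {p : ℝ × ℝ | a₂ ≤ p.1 ∨ p.2 ≤ b₀}) :=
    hcomp.inter_right ((isClosed_le continuous_const continuous_fst).union
      (isClosed_le continuous_snd continuous_const))
  obtain ⟨c, hc, h1⟩ := exists_pos_lower hK1 (f := fun p => (W p).1) (continuous_fst.comp hW) (by
    rintro p ⟨⟨h1, h2, h3, h4, h5⟩, h6, h7⟩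
    by_cases hy1 : b₁ ≤ p.2
    · exact hQ.z1 _ _ h1 h6 hy1 h4
    · exact hQ.z1' _ _ (h5.resolve_right hy1) h6 h7 (not_le.1 hy1).le)
  obtain ⟨d, hd, h2⟩ := exists_pos_lower hK2 (f := fun p => -(W p).2)
    (continuous_snd.comp hW).neg (by
    rintro p ⟨⟨h1, h2, h3, h4, h5⟩, h6⟩
    by_cases hx : a₂ ≤ p.1
    · exact neg_pos.2 (hQ.z2 _ _ hx h2 h3 h4)
    · have h7 := h6.resolve_left hx
      have h8 : ¬ b₁ ≤ p.2 := by have := hQ.hb01; linarith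
      exact neg_pos.2 (hQ.z2' _ _ (h5.resolve_right h8) h2 h3 h7))
  refine ⟨min c d, lt_min hc hd, fun p hp hx hy => (min_le_left _ _).trans (h1 p ⟨hp, hx, hy⟩),
    fun p hp h => ?_⟩
  have := h2 p ⟨hp, h⟩
  have := min_le_right c d
  linarith

/-- the solution reaches the horizontal axis -/
lemma Quad.reach (hQ : Quad W a₁ a₂ a₃ b₀ b₁ b₂) (hW : Continuous W)
    (hz : ∀ t, HasDerivAt z (W (z t)) t) (h0 : z 0 ∈ reg a₁ a₃ b₁ b₂) :
    ∃ t, 0 ≤ t ∧ (z t).2 ≤ 0 := by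
  by_contra hcon
  push Not at hcon
  obtain ⟨c, hc, hr1, hr2⟩ := hQ.rates hW
  have hreg : ∀ t, 0 ≤ t → z t ∈ reg a₁ a₃ b₁ b₂ := fun t ht =>
    hQ.stay hz (T := t) h0 (fun s hs _ => hcon s hs) t ⟨ht, le_rfl⟩
  -- the first zone is left
  have hexit : ∃ t, 0 ≤ t ∧ (a₂ ≤ (z t).1 ∨ (z t).2 ≤ b₀) := by
    by_contra hno
    push Not at hno
    set T := (a₂ + 1) / c with hT
    have hT0 : 0 < T := by
      have ha2 : 0 < a₂ := hQ.ha1.trans hQ.ha12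
      positivity
    have h1 : ∀ t ∈ Icc 0 T, c ≤ (W (z t)).1 := fun t ht =>
      hr1 _ (hreg t ht.1) (hno t ht.1).1.le (hno t ht.1).2.le
    have h2 := Convex.mul_sub_le_image_sub_of_le_deriv (convex_Icc (0:ℝ) T)
      (f := fun t => (z t).1) (C := c)
      (continuous_iff_continuousAt.2 fun t => (hasDerivAt_fst hz t).continuousAt).continuousOn
      (fun t _ => (hasDerivAt_fst hz t).differentiableAt.differentiableWithinAt)
      (fun t ht => by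
        rw [interior_Icc] at ht
        rw [(hasDerivAt_fst hz t).deriv]
        exact h1 t ⟨ht.1.le, ht.2.le⟩) 0 ⟨le_rfl, hT0.le⟩ T ⟨hT0.le, le_rfl⟩ hT0.le
    have h3 : c * (T - 0) = a₂ + 1 := by rw [hT]; field_simp; ring
    have h4 := (hno T hT0.le).1
    have h5 := h0.1
    linarith
  obtain ⟨t₀, ht₀, hz0⟩ := hexit
  set T := t₀ + (b₂ + 1) / c with hT
  have hb2 : 0 < b₂ := by have := hQ.hb0; have := hQ.hb01; have := hQ.hb12; linarith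
  have hT0 : t₀ < T := by rw [hT]; have : 0 < (b₂ + 1) / c := by positivity
                          linarith
  have h1 := hQ.stay2 hz (t₀ := t₀) (T := T) (fun t ht => hreg t (ht₀.trans ht.1)) hz0
  have h2 := Convex.image_sub_le_mul_sub_of_deriv_le (convex_Icc t₀ T)
    (f := fun t => (z t).2) (C := -c)
    (continuous_iff_continuousAt.2 fun t => (hasDerivAt_snd hz t).continuousAt).continuousOn
    (fun t _ => (hasDerivAt_snd hz t).differentiableAt.differentiableWithinAt)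
    (fun t ht => by
      rw [interior_Icc] at ht
      rw [(hasDerivAt_snd hz t).deriv]
      exact hr2 _ (hreg t (ht₀.trans ht.1.le)) (h1 t ⟨ht.1.le, ht.2.le⟩))
    t₀ ⟨le_rfl, hT0.le⟩ T ⟨hT0.le, le_rfl⟩ hT0.le
  have h3 : -c * (T - t₀) = -(b₂ + 1) := by rw [hT]; field_simp; ring
  have h4 := (hreg t₀ ht₀).2.2.2.1
  have h5 := hcon T (ht₀.trans hT0.le)
  linarith

/-- **Quarter turn.** -/
theorem Quad.quarter (hQ : Quad W a₁ a₂ a₃ b₀ b₁ b₂) (hW : Continuous W)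
    (hz : ∀ t, HasDerivAt z (W (z t)) t) {b : ℝ} (hb : b ∈ Icc b₁ b₂) (h0 : z 0 = (0, b)) :
    ∃ τ c, 0 < τ ∧ a₁ < c ∧ c < a₃ ∧ z τ = (c, 0) ∧ (∀ t, 0 ≤ t → t < τ → 0 < (z t).2) ∧
      (∀ t, 0 < t → t ≤ τ → 0 < (z t).1) ∧ (∀ t, 0 ≤ t → t ≤ τ → z t ∈ reg a₁ a₃ b₁ b₂) ∧
      (W (c, 0)).2 < 0 := by
  have hzc : Continuous z := continuous_iff_continuousAt.2 fun t => (hz t).continuousAt
  have hyc : Continuous fun t => (z t).2 := continuous_snd.comp hzc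
  have hb1 : 0 < b₁ := hQ.hb0.trans hQ.hb01
  have hbpos : 0 < b := hb1.trans_le hb.1
  have hreg0 : z 0 ∈ reg a₁ a₃ b₁ b₂ := by
    rw [h0]
    exact ⟨le_rfl, (hQ.ha1.trans (hQ.ha12.trans hQ.ha23)).le, hbpos.le, hb.2, Or.inr hb.1⟩
  obtain ⟨t₁, ht₁, hy1⟩ := hQ.reach hW hz hreg0
  have hcpt : IsCompact ({t | (z t).2 ≤ 0} ∩ Icc 0 t₁) :=
    (isCompact_Icc).inter_left (isClosed_le hyc continuous_const)
  obtain ⟨τ, hτ, hmin⟩ := hcpt.exists_isLeast ⟨t₁, hy1, ht₁, le_rfl⟩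
  have hpos : ∀ t, 0 ≤ t → t < τ → 0 < (z t).2 := by
    intro t h1 h2
    by_contra hc
    exact absurd (hmin ⟨not_lt.1 hc, h1, h2.le.trans hτ.2.2⟩) (not_le.2 h2)
  have hτ0 : 0 < τ := by
    rcases hτ.2.1.lt_or_eq with h | h
    · exact h
    · have h3 : (z τ).2 ≤ 0 := hτ.1
      rw [← h, h0] at h3
      exact absurd h3 (not_le.2 hbpos)
  have hregall := hQ.stay hz (T := τ) hreg0 hpos
  have hyτ : (z τ).2 = 0 := le_antisymm hτ.1 (hregall τ ⟨hτ0.le, le_rfl⟩).2.2.1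
  obtain ⟨h1, h2, h3, h4, h5⟩ := hregall τ ⟨hτ0.le, le_rfl⟩
  have h5' : a₁ ≤ (z τ).1 := by
    rcases h5 with h | h
    · exact h
    · rw [hyτ] at h; exact absurd h (not_le.2 hb1)
  have hb2 : 0 ≤ b₂ := (hb1.trans hQ.hb12).le
  have hev : ∀ {p : ℝ → Prop}, (∀ᶠ s in 𝓝[<] τ, p s) → ∃ s, 0 < s ∧ s < τ ∧ p s := by
    intro p hp
    have h6 : ∀ᶠ s in 𝓝[<] τ, s ∈ Ioo 0 τ := Ioo_mem_nhdsLT hτ0
    obtain ⟨s, hs1, hs2⟩ := (hp.and h6).exists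
    exact ⟨s, hs2.1, hs2.2, hs1⟩
  have hzτ : z τ = ((z τ).1, 0) := Prod.ext rfl hyτ
  refine ⟨τ, (z τ).1, hτ0, ?_, ?_, hzτ, hpos, ?_, fun t ht ht2 => hregall t ⟨ht, ht2⟩, ?_⟩
  · rcases h5'.lt_or_eq with h | h
    · exact h
    exfalso
    have hp : 0 < (W (z τ)).1 := by
      rw [hzτ, ← h]; exact hQ.inRight _ le_rfl hb1.le
    have e1 := ev_left_lt (hasDerivAt_fst hz τ) hp
    have e2 : ∀ᶠ s in 𝓝[<] τ, (z s).2 < b₁ :=
      (hyc.continuousAt.eventually (gt_mem_nhds (by simp only [hyτ]; exact hb1))).filter_mono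
        nhdsWithin_le_nhds
    obtain ⟨s, hs0, hs1, hs2, hs3⟩ := hev (e1.and e2)
    rcases (hregall s ⟨hs0.le, hs1.le⟩).2.2.2.2 with h7 | h7
    · rw [← h] at hs2; linarith
    · linarith
  · rcases h2.lt_or_eq with h | h
    · exact h
    exfalso
    have hp : (W (z τ)).1 < 0 := by
      rw [hzτ, h]; exact hQ.right _ le_rfl hb2
    obtain ⟨s, hs0, hs1, hs2⟩ := hev (ev_left_gt (hasDerivAt_fst hz τ) hp)
    have := (hregall s ⟨hs0.le, hs1.le⟩).2.1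
    rw [h] at hs2; linarith
  · intro t ht ht2
    rcases (hregall t ⟨ht.le, ht2⟩).1.lt_or_eq with h | h
    · exact h
    exfalso
    obtain ⟨g1, g2, g3, g4, g5⟩ := hregall t ⟨ht.le, ht2⟩
    have hb : b₁ ≤ (z t).2 := by
      rcases g5 with g5 | g5
      · exact absurd (g5.trans_eq h.symm) (not_le.2 hQ.ha1)
      · exact g5
    have hp : 0 < (W (z t)).1 := by
      have e0 : z t = ((z t).1, (z t).2) := rfl
      rw [e0]; exact hQ.z1 _ _ g1 (by rw [← h]; linarith [hQ.ha1, hQ.ha12]) hb g4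
    have h6 : ∀ᶠ s in 𝓝[<] t, s ∈ Ioo 0 t := Ioo_mem_nhdsLT ht
    obtain ⟨s, hs1, hs2⟩ := ((ev_left_lt (hasDerivAt_fst hz t) hp).and h6).exists
    have := (hregall s ⟨hs2.1.le, hs2.2.le.trans ht2⟩).1
    rw [← h] at hs1; linarith
  · exact hQ.z2' _ _ h5' h2 le_rfl hQ.hb0.le

end Pool.Agent.K300
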