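import Pool.Agent.K300.Return
import Pool.Agent.K300.AnFlow
import Pool.Agent.K300.Cutoff

/-! The racetrack theorem: sign conditions give a limit cycle. -/

open Set Filter Topology
open Pool.Agent.GR.Flow

namespace Pool.Agent.K300

/-- closed orbits: ranges of nonconstant periodic solutions -/
def ClosedOrbit (V : ℝ × ℝ → ℝ × ℝ) (C : Set (ℝ × ℝ)) : Prop :=
  ∃ γ : ℝ → ℝ × ℝ, ∃ T : ℝ, 0 < T ∧ (∀ t, HasDerivAt γ (V (γ t)) t) ∧ (∀ t, γ (t + T) = γ t) ∧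
    (∃ s t, γ s ≠ γ t) ∧ C = range γ

/-- limit cycles: closed orbits with a neighbourhood which meets no other closed orbit -/
def LimitCycle (V : ℝ × ℝ → ℝ × ℝ) (C : Set (ℝ × ℝ)) : Prop :=
  ClosedOrbit V C ∧ ∃ U, IsOpen U ∧ C ⊆ U ∧ ∀ D, ClosedOrbit V D → (D ∩ U).Nonempty → D = C

lemma exists_flow {X : C(ℝ × ℝ, ℝ × ℝ)} (hX : ContDiff ℝ 1 X) {K M : NNReal}
    (hK : LipschitzWith K X) (hM : ∀ x, ‖X x‖ ≤ M) : ∃ φ, IsFlowOf X φ ∧ Fl X φ := by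
  choose u hu0 hu using fun x => exists_solution hK hM x
  have hflow : IsFlowOf X (fun t x => u x t) := ⟨fun x => hu0 x, fun x t => hu x t⟩
  refine ⟨fun t x => u x t, hflow, X.continuous, hu0, fun p t => hu p t, ?_, ?_⟩
  · intro t s p
    exact hflow.add hK t s p
  · exact (contDiff_flow (X := X) (m := 1) one_ne_zero (by exact_mod_cast hX) hK hflow).continuous

lemma Fl.translate {W : ℝ × ℝ → ℝ × ℝ} {φ : ℝ → ℝ × ℝ → ℝ × ℝ} (h : Fl W φ) (c : ℝ × ℝ) :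
    Fl (fun p => W (c + p)) (fun t p => φ t (c + p) - c) where
  contW := h.contW.comp (by fun_prop)
  zero p := by simp only [h.zero]; abel
  deriv p t := by
    have := (h.deriv (c + p) t).sub_const c
    simp only [add_sub_cancel]
    exact this
  add t s p := by simp only [add_sub_cancel, h.add]
  joint := (h.joint.comp (by fun_prop : Continuous fun q : ℝ × (ℝ × ℝ) => (q.1, c + q.2))).sub
    continuous_const

lemma norm_pair_le {x y R : ℝ} (hx : |x| ≤ R) (hy : |y| ≤ R) : ‖((x, y) : ℝ × ℝ)‖ ≤ R := by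
  rw [Prod.norm_def]
  exact max_le hx hy

lemma Quad.congr {W W' : ℝ × ℝ → ℝ × ℝ} {a₁ a₂ a₃ b₀ b₁ b₂ R : ℝ}
    (hQ : Quad W a₁ a₂ a₃ b₀ b₁ b₂) (h : ∀ p, ‖p‖ ≤ R → W p = W' p) (ha : a₃ ≤ R) (hb : b₂ ≤ R) :
    Quad W' a₁ a₂ a₃ b₀ b₁ b₂ := by
  have key : ∀ x y, 0 ≤ x → x ≤ a₃ → 0 ≤ y → y ≤ b₂ → W (x, y) = W' (x, y) := by
    intro x y h1 h2 h3 h4
    exact h _ (norm_pair_le (by rw [abs_of_nonneg h1]; linarith) (by rw [abs_of_nonneg h3]; linarith))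
  have e1 := hQ.ha1
  have e2 := hQ.ha12
  have e3 := hQ.ha23
  have e4 := hQ.hb0
  have e5 := hQ.hb01
  have e6 := hQ.hb12
  refine ⟨e1, e2, e3, e4, e5, e6, ?_, ?_, ?_, ?_, ?_, ?_, ?_, ?_⟩
  · intro x h1 h2
    rw [← key x b₂ h1 h2 (by linarith) le_rfl]; exact hQ.top x h1 h2
  · intro y h1 h2
    rw [← key a₃ y (by linarith) le_rfl h1 h2]; exact hQ.right y h1 h2
  · intro x h1 h2
    rw [← key x b₁ h1 (by linarith) (by linarith) (by linarith)]; exact hQ.inTop x h1 h2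
  · intro y h1 h2
    rw [← key a₁ y (by linarith) (by linarith) h1 (by linarith)]; exact hQ.inRight y h1 h2
  · intro x y h1 h2 h3 h4
    rw [← key x y h1 (by linarith) (by linarith) h4]; exact hQ.z1 x y h1 h2 h3 h4
  · intro x y h1 h2 h3 h4
    rw [← key x y (by linarith) (by linarith) (by linarith) (by linarith)]
    exact hQ.z1' x y h1 h2 h3 h4
  · intro x y h1 h2 h3 h4
    rw [← key x y (by linarith) h2 h3 h4]; exact hQ.z2 x y h1 h2 h3 h4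
  · intro x y h1 h2 h3 h4
    rw [← key x y (by linarith) h2 h3 (by linarith)]; exact hQ.z2' x y h1 h2 h3 h4

lemma rotW_congr {W W' : ℝ × ℝ → ℝ × ℝ} {R : ℝ} (h : ∀ p, ‖p‖ ≤ R → W p = W' p) :
    ∀ p, ‖p‖ ≤ R → rotW W p = rotW W' p := by
  intro p hp
  unfold rotW
  rw [h]
  rw [Prod.norm_def] at hp ⊢
  simpa [rti, max_comm] using hp

/-- the situation around the section -/
structure Ctx (F : ℝ × ℝ → ℝ × ℝ) (X : C(ℝ × ℝ, ℝ × ℝ)) (φ : ℝ → ℝ × ℝ → ℝ × ℝ) (c : ℝ × ℝ)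
    (l₃ d₃ r₃ u₁ u₃ : ℝ) (T g : ℝ → ℝ) (R' : ℝ) : Prop where
  isFlow : IsFlowOf X φ
  fl : Fl X φ
  turn : Turn (fun t p => φ t (c + p) - c) l₃ d₃ r₃ u₁ u₃ T g
  hu : 0 < u₁
  hu13 : u₁ < u₃
  sec : ∀ y ∈ Icc u₁ u₃, 0 < (X (c + (0, y))).1
  eqF : ∀ p, ‖p‖ < R' → X p = F p
  box : ∀ p ∈ Icc (-l₃, -d₃) (r₃, u₃), ‖c + p‖ < R'

variable {F : ℝ × ℝ → ℝ × ℝ} {X : C(ℝ × ℝ, ℝ × ℝ)} {φ : ℝ → ℝ × ℝ → ℝ × ℝ} {c : ℝ × ℝ}
    {l₃ d₃ r₃ u₁ u₃ : ℝ} {T g : ℝ → ℝ} {R' : ℝ}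

lemma Ctx.forward (h : Ctx F X φ c l₃ d₃ r₃ u₁ u₃ T g R') {b t : ℝ} (hb : b ∈ Icc u₁ u₃)
    (ht : 0 ≤ t) : φ t (c + (0, b)) - c ∈ Icc (-l₃, -d₃) (r₃, u₃) :=
  h.turn.forward (h.fl.translate c) h.hu13.le hb ht

lemma Ctx.norm_lt (h : Ctx F X φ c l₃ d₃ r₃ u₁ u₃ T g R') {b t : ℝ} (hb : b ∈ Icc u₁ u₃)
    (ht : 0 ≤ t) : ‖φ t (c + (0, b))‖ < R' := by
  have := h.box _ (h.forward hb ht)
  rwa [add_sub_cancel] at this

lemma Ctx.ret (h : Ctx F X φ c l₃ d₃ r₃ u₁ u₃ T g R') {b : ℝ} (hb : b ∈ Icc u₁ u₃) :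
    φ (T (g b) + T b) (c + (0, b)) = c + (0, g (g b)) := by
  have h1 : φ (T b) (c + (0, b)) - c = (0, g b) := h.turn.hit b hb
  have h2 : φ (T (g b)) (c + (0, g b)) - c = (0, g (g b)) := h.turn.hit _ (h.turn.mapsTo hb)
  rw [sub_eq_iff_eq_add'] at h1 h2
  rw [h.fl.add, h1, h2]

lemma isInvertible_real {L : ℝ →L[ℝ] ℝ} (h : L 1 ≠ 0) : L.IsInvertible := by
  refine ⟨ContinuousLinearEquiv.unitsEquivAut ℝ (Units.mk0 (L 1) h), ?_⟩
  ext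
  simp

/-- the second iterate of the return map is analytic -/
lemma Ctx.analyticAt {S : Finset (ℕ × ℕ)} {a b : ℕ × ℕ → ℝ} {K : NNReal}
    (h : Ctx (polyF S a b) X φ c l₃ d₃ r₃ u₁ u₃ T g R') (hX : ContDiff ℝ 1 X)
    (hK : LipschitzWith K X) {b₀ : ℝ} (hb₀ : b₀ ∈ Ioo u₁ u₃) :
    AnalyticAt ℝ (fun b => g (g b)) b₀ := by
  have hb₀' := Ioo_subset_Icc_self hb₀
  have hTT0 : 0 ≤ T (g b₀) + T b₀ :=
    (add_pos (h.turn.pos _ (h.turn.mapsTo hb₀')) (h.turn.pos _ hb₀')).le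
  have hU : IsOpen {p : ℝ × ℝ | ‖p‖ < R'} := isOpen_lt continuous_norm continuous_const
  have h1 : ContDiffAt ℝ ⊤ (fun p : ℝ × (ℝ × ℝ) => φ p.1 p.2) (T (g b₀) + T b₀, c + (0, b₀)) :=
    contDiffAt_flow_omega hX hK h.isFlow hU (fun p hp => h.eqF p hp) _ fun s hs =>
      h.norm_lt hb₀' (mul_nonneg hTT0 hs.1)
  have h2 : ContDiff ℝ ⊤ (fun v : ℝ × ℝ => (v.2, c + ((0:ℝ), v.1))) :=
    contDiff_snd.prodMk (contDiff_const.add (contDiff_const.prodMk contDiff_fst))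
  have h3 : ContDiffAt ℝ ⊤ (fun v : ℝ × ℝ => φ v.2 (c + ((0:ℝ), v.1)))
      (b₀, T (g b₀) + T b₀) :=
    ContDiffAt.comp (b₀, T (g b₀) + T b₀) (g := fun p : ℝ × (ℝ × ℝ) => φ p.1 p.2)
      (f := fun v : ℝ × ℝ => (v.2, c + ((0:ℝ), v.1))) h1 h2.contDiffAt
  have cdf : ContDiffAt ℝ ⊤ (fun v : ℝ × ℝ => (φ v.2 (c + ((0:ℝ), v.1))).1)
      (b₀, T (g b₀) + T b₀) := contDiffAt_fst.comp _ h3
  have hpos : 0 < (X (c + (0, g (g b₀)))).1 :=
    h.sec _ (h.turn.mapsTo (h.turn.mapsTo hb₀'))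
  have hd : HasDerivAt (fun t => (φ t (c + ((0:ℝ), b₀))).1) (X (c + (0, g (g b₀)))).1
      (T (g b₀) + T b₀) := by
    have := hasDerivAt_fst (fun t => h.fl.deriv (c + (0, b₀)) t) (T (g b₀) + T b₀)
    rwa [h.ret hb₀'] at this
  have hinv : (fderiv ℝ (fun v : ℝ × ℝ => (φ v.2 (c + ((0:ℝ), v.1))).1) (b₀, T (g b₀) + T b₀) ∘L
      .inr ℝ ℝ ℝ).IsInvertible := by
    refine isInvertible_real ?_
    have h4 := (cdf.differentiableAt (by simp)).hasFDerivAt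
    have h5 := HasFDerivAt.comp (g := fun v : ℝ × ℝ => (φ v.2 (c + ((0:ℝ), v.1))).1)
      (T (g b₀) + T b₀) h4 (hasFDerivAt_prodMk_right b₀ (T (g b₀) + T b₀))
    have h6 := h5.hasDerivAt.unique hd
    rw [h6]
    exact hpos.ne'
  have hψ := cdf.contDiffAt_implicitFunction (by simp) hinv
  have hev := cdf.eventually_apply_eq_iff_implicitFunction (by simp) hinv
  set ψ := cdf.implicitFunction (by simp) hinv with hψdef
  have hIcc : Icc u₁ u₃ ∈ 𝓝 b₀ := Icc_mem_nhds hb₀.1 hb₀.2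
  have hTc : ContinuousAt (fun b => T (g b) + T b) b₀ := by
    have : ContinuousOn (fun b => T (g b) + T b) (Icc u₁ u₃) :=
      (h.turn.contT.comp h.turn.contG h.turn.mapsTo).add h.turn.contT
    exact this.continuousAt hIcc
  have htend : Tendsto (fun b => (b, T (g b) + T b)) (𝓝 b₀) (𝓝 (b₀, T (g b₀) + T b₀)) :=
    (continuousAt_id.prodMk hTc)
  have h7 : ∀ᶠ b in 𝓝 b₀, ψ b = T (g b) + T b := by
    filter_upwards [htend.eventually hev, hIcc] with b h8 h9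
    refine h8.1 ?_
    simp only [h.ret h9, h.ret hb₀', Prod.fst_add]
  have h8 : ContDiffAt ℝ ⊤ (fun b => (φ (ψ b) (c + ((0:ℝ), b))).2 - c.2) b₀ := by
    have h9 : ContDiffAt ℝ ⊤ (fun b : ℝ => (b, ψ b)) b₀ := contDiffAt_id.prodMk hψ
    have h10 : (fun b : ℝ => (b, ψ b)) b₀ = (b₀, T (g b₀) + T b₀) := by
      have := h7.self_of_nhds
      simp only [this]
    have h11 : ContDiffAt ℝ ⊤ (fun v : ℝ × ℝ => φ v.2 (c + ((0:ℝ), v.1)))
        ((fun b : ℝ => (b, ψ b)) b₀) := by rw [h10]; exact h3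
    exact ((contDiffAt_snd.comp _ h11).comp b₀ h9).sub contDiffAt_const
  have h12 : (fun b => g (g b)) =ᶠ[𝓝 b₀] fun b => (φ (ψ b) (c + ((0:ℝ), b))).2 - c.2 := by
    filter_upwards [h7, hIcc] with b h13 h14
    rw [h13, h.ret h14]
    simp
  exact (h8.congr_of_eventuallyEq h12).analyticAt

/-- fixed points of the second iterate are isolated -/
lemma Ctx.isolated {S : Finset (ℕ × ℕ)} {a b : ℕ × ℕ → ℝ} {K : NNReal}
    (h : Ctx (polyF S a b) X φ c l₃ d₃ r₃ u₁ u₃ T g R') (hX : ContDiff ℝ 1 X)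
    (hK : LipschitzWith K X) {b₀ : ℝ} (hb₀ : b₀ ∈ Ioo u₁ u₃) :
    ∃ ε, 0 < ε ∧ ∀ b, |b - b₀| < ε → b ∈ Icc u₁ u₃ ∧ (g (g b) = b → b = b₀) := by
  have hA : AnalyticOnNhd ℝ (fun b => g (g b) - b) (Ioo u₁ u₃) := fun b hb =>
    (h.analyticAt hX hK hb).sub analyticAt_id
  have hno : ¬ ∃ᶠ z in 𝓝[≠] b₀, g (g z) - z = 0 := by
    intro hfr
    have h1 := hA.eqOn_zero_of_preconnected_of_frequently_eq_zero isPreconnected_Ioo hb₀ hfr
    -- continuity at the left end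
    have hc : ContinuousOn (fun b => g (g b) - b) (Icc u₁ u₃) :=
      (h.turn.contG.comp h.turn.contG h.turn.mapsTo).sub continuousOn_id
    have h2 : ContinuousWithinAt (fun b => g (g b) - b) (Ioo u₁ u₃) u₁ :=
      (hc u₁ (left_mem_Icc.2 h.hu13.le)).mono Ioo_subset_Icc_self
    have h3 : (𝓝[Ioo u₁ u₃] u₁).NeBot := by
      rw [← mem_closure_iff_nhdsWithin_neBot, closure_Ioo h.hu13.ne]
      exact left_mem_Icc.2 h.hu13.le
    have h4 : Tendsto (fun b => g (g b) - b) (𝓝[Ioo u₁ u₃] u₁) (𝓝 0) := by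
      refine tendsto_const_nhds.congr' ?_
      filter_upwards [self_mem_nhdsWithin] with b hb
      exact (h1 hb).symm
    have h5 : g (g u₁) - u₁ = 0 := tendsto_nhds_unique h2 h4
    have h6 := (h.turn.mem _ (h.turn.mapsTo (left_mem_Icc.2 h.hu13.le))).1
    linarith
  rw [not_frequently, eventually_nhdsWithin_iff] at hno
  have hI : Icc u₁ u₃ ∈ 𝓝 b₀ := Icc_mem_nhds hb₀.1 hb₀.2
  obtain ⟨ε, hε, hball⟩ := Metric.eventually_nhds_iff.1 (hno.and hI)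
  refine ⟨ε, hε, fun b hb => ?_⟩
  obtain ⟨h1, h2⟩ := hball (y := b) (by rwa [Real.dist_eq])
  refine ⟨h2, fun h3 => ?_⟩
  by_contra h4
  exact h1 h4 (by rw [h3, sub_self])

end Pool.Agent.K300
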