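import Pool.Agent.K300.Race

/-! The racetrack theorem: the limit cycle. -/

open Set Filter Topology
open Pool.Agent.GR.Flow

namespace Pool.Agent.K300

variable {F : ℝ × ℝ → ℝ × ℝ} {X : C(ℝ × ℝ, ℝ × ℝ)} {φ : ℝ → ℝ × ℝ → ℝ × ℝ} {c : ℝ × ℝ}
    {l₃ d₃ r₃ u₁ u₃ : ℝ} {T g : ℝ → ℝ} {R' : ℝ}

lemma periodic_nat {γ : ℝ → ℝ × ℝ} {P : ℝ} (h : ∀ t, γ (t + P) = γ t) (n : ℕ) (t : ℝ) :
    γ (t + n * P) = γ t := by
  induction n with
  | zero => simp
  | succ n ih =>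
    have : t + ((n + 1 : ℕ) : ℝ) * P = (t + n * P) + P := by push_cast; ring
    rw [this, h, ih]

lemma exists_shift (t P M : ℝ) (hP : 0 < P) : ∃ n : ℕ, M < t + n * P := by
  obtain ⟨n, hn⟩ := exists_nat_gt ((M - t) / P)
  refine ⟨n, ?_⟩
  rw [div_lt_iff₀ hP] at hn
  linarith

/-- the saturated neighbourhood is open -/
lemma Ctx.isOpen_sat (h : Ctx F X φ c l₃ d₃ r₃ u₁ u₃ T g R') {b₀ ε : ℝ}
    (hε : ∀ b, |b - b₀| < ε → b ∈ Icc u₁ u₃) :
    IsOpen {v | ∃ s, 0 < s ∧ ∃ b, |b - b₀| < ε ∧ φ s (c + (0, b)) = v} := by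
  rw [isOpen_iff_mem_nhds]
  rintro v₀ ⟨s₀, hs₀, b₁, hb₁, hv₀⟩
  -- backward flow
  set H : ℝ → ℝ × ℝ → ℝ × ℝ := fun s v => φ (-s) v with hH
  have hHc : Continuous fun q : ℝ × (ℝ × ℝ) => H q.1 q.2 :=
    h.fl.joint.comp ((continuous_fst.neg).prodMk continuous_snd)
  have hH0 : H s₀ v₀ = c + (0, b₁) := by
    simp only [hH]
    rw [← hv₀, ← h.fl.add, neg_add_cancel, h.fl.zero]
  have hd : HasDerivAt (fun s => (H s v₀).1) (-(X (c + (0, b₁))).1) s₀ := by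
    have h1 : HasDerivAt (fun s => (φ (-s) v₀).1) ((-1 : ℝ) • (X (φ (-s₀) v₀)).1) s₀ :=
      (hasDerivAt_fst (fun t => h.fl.deriv v₀ t) (-s₀)).scomp s₀ (hasDerivAt_neg s₀)
    have h2 : φ (-s₀) v₀ = c + (0, b₁) := hH0
    rw [h2] at h1
    simpa using h1
  have hneg : -(X (c + (0, b₁))).1 < 0 := neg_neg_of_pos (h.sec b₁ (hε b₁ hb₁))
  -- good neighbourhood
  have hN : ∀ᶠ q : ℝ × (ℝ × ℝ) in 𝓝 (s₀, v₀), |(H q.1 q.2).2 - c.2 - b₀| < ε ∧ 0 < q.1 := by
    have hca : ContinuousAt (fun q : ℝ × (ℝ × ℝ) => |(H q.1 q.2).2 - c.2 - b₀|) (s₀, v₀) :=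
      (((continuous_snd.comp hHc).sub continuous_const).sub continuous_const).abs.continuousAt
    refine (hca.eventually (gt_mem_nhds ?_)).and (continuousAt_fst.eventually (lt_mem_nhds hs₀))
    simp only [hH0]
    simpa using hb₁
  rw [nhds_prod_eq] at hN
  obtain ⟨A, hA, B, hB, hAB⟩ := Filter.eventually_prod_iff.1 hN
  obtain ⟨δ, hδ, hAδ⟩ := Metric.eventually_nhds_iff.1 hA
  have h1 : ∀ᶠ s in 𝓝[>] s₀, (H s v₀).1 < c.1 ∧ s ∈ Ioo s₀ (s₀ + δ) := by
    refine (Filter.Eventually.and ?_ (Ioo_mem_nhdsGT (by linarith)))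
    filter_upwards [ev_right_lt hd hneg] with s hs
    rw [hH0] at hs
    simpa using hs
  have h2 : ∀ᶠ s in 𝓝[<] s₀, c.1 < (H s v₀).1 ∧ s ∈ Ioo (s₀ - δ) s₀ := by
    refine (Filter.Eventually.and ?_ (Ioo_mem_nhdsLT (by linarith)))
    filter_upwards [ev_left_gt hd hneg] with s hs
    rw [hH0] at hs
    simpa using hs
  obtain ⟨s₂, hs2, hs2'⟩ := h1.exists
  obtain ⟨s₁, hs1, hs1'⟩ := h2.exists
  have hc1 : ∀ᶠ v in 𝓝 v₀, c.1 < (H s₁ v).1 :=
    (continuous_fst.comp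
      (hHc.comp (by fun_prop : Continuous fun v : ℝ × ℝ => (s₁, v)))).continuousAt.eventually
      (lt_mem_nhds hs1)
  have hc2 : ∀ᶠ v in 𝓝 v₀, (H s₂ v).1 < c.1 :=
    (continuous_fst.comp
      (hHc.comp (by fun_prop : Continuous fun v : ℝ × ℝ => (s₂, v)))).continuousAt.eventually
      (gt_mem_nhds hs2)
  filter_upwards [hB, hc1, hc2] with v hBv hv1 hv2
  have hcont : Continuous fun s => (H s v).1 :=
    continuous_fst.comp (hHc.comp (by fun_prop : Continuous fun s : ℝ => (s, v)))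
  obtain ⟨s, hs, hsv⟩ := intermediate_value_Icc' (hs1'.2.trans hs2'.1).le hcont.continuousOn
    (show c.1 ∈ Icc (H s₂ v).1 (H s₁ v).1 from ⟨hv2.le, hv1.le⟩)
  have hAs : A s := hAδ (by
    rw [Real.dist_eq, abs_lt]
    constructor <;> linarith [hs.1, hs.2, hs1'.1, hs2'.2])
  obtain ⟨h5, h6⟩ := hAB hAs hBv
  simp only at hsv h5 h6
  refine ⟨s, h6, (H s v).2 - c.2, h5, ?_⟩
  have h7 : c + ((0:ℝ), (H s v).2 - c.2) = H s v := by
    refine Prod.ext ?_ ?_
    · simp [hsv]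
    · simp
  rw [h7]
  simp only [hH]
  rw [← h.fl.add, add_neg_cancel, h.fl.zero]

/-- two solutions that agree at a time agree, as long as both exist -/
lemma sol_unique (hF : ContDiff ℝ 2 F) {y z : ℝ → ℝ × ℝ} {M s : ℝ} (hs : s ∈ Ioo 0 M)
    (hy : Continuous y) (hz : Continuous z)
    (hy' : ∀ t ∈ Ioo 0 M, HasDerivAt y (F (y t)) t) (hz' : ∀ t ∈ Ioo 0 M, HasDerivAt z (F (z t)) t)
    (he : z s = y s) : EqOn z y (Icc 0 M) := by
  obtain ⟨R1, hR1⟩ := (isCompact_Icc (a := (0:ℝ)) (b := M)).exists_bound_of_continuousOn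
    hy.continuousOn
  obtain ⟨R2, hR2⟩ := (isCompact_Icc (a := (0:ℝ)) (b := M)).exists_bound_of_continuousOn
    hz.continuousOn
  obtain ⟨X₂, -, ⟨K, hK⟩, -, hX₂⟩ := exists_cutoff hF (max R1 R2)
  have e : ∀ p, ‖p‖ ≤ max R1 R2 → F p = X₂ p := fun p hp => (hX₂ p hp).self_of_nhds.symm
  refine ODE_solution_unique_of_mem_Icc (v := fun _ => X₂) (s := fun _ => univ) (K := K)
    (fun t _ => hK.lipschitzOnWith) hs hz.continuousOn ?_ (fun t _ => trivial)
    hy.continuousOn ?_ (fun t _ => trivial) he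
  · intro t ht
    have := hz' t ht
    rwa [e _ ((hR2 t (Ioo_subset_Icc_self ht)).trans (le_max_right _ _))] at this
  · intro t ht
    have := hy' t ht
    rwa [e _ ((hR1 t (Ioo_subset_Icc_self ht)).trans (le_max_left _ _))] at this

theorem Ctx.limitCycle {S : Finset (ℕ × ℕ)} {A B : ℕ × ℕ → ℝ} {K : NNReal}
    (h : Ctx (polyF S A B) X φ c l₃ d₃ r₃ u₁ u₃ T g R') (hX : ContDiff ℝ 1 X)
    (hK : LipschitzWith K X) : ∃ C, LimitCycle (polyF S A B) C ∧
      ∀ p ∈ C, p - c ∈ Icc (-l₃, -d₃) (r₃, u₃) := by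
  obtain ⟨x, hx, hfix⟩ := h.turn.exists_fixed h.hu13.le
  have hx' := Ioo_subset_Icc_self hx
  obtain ⟨ε, hε, hiso⟩ := h.isolated hX hK hx
  set P := T (g x) + T x with hP
  have hP0 : 0 < P := add_pos (h.turn.pos _ (h.turn.mapsTo hx')) (h.turn.pos _ hx')
  set γ : ℝ → ℝ × ℝ := fun t => φ t (c + (0, x)) with hγ
  have hper : ∀ t, γ (t + P) = γ t := by
    intro t
    simp only [hγ]
    rw [h.fl.add, hP, h.ret hx', hfix]
  have hbox : ∀ t, γ t - c ∈ Icc (-l₃, -d₃) (r₃, u₃) := by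
    intro t
    obtain ⟨n, hn⟩ := exists_shift t P 0 hP0
    rw [← periodic_nat hper n t]
    exact h.forward hx' hn.le
  have hγc : Continuous γ := h.isFlow.continuous _
  have hγd : ∀ t, HasDerivAt γ (polyF S A B (γ t)) t := by
    intro t
    have h1 := h.fl.deriv (c + (0, x)) t
    have h2 : ‖γ t‖ < R' := by
      have := h.box _ (hbox t)
      rwa [add_sub_cancel] at this
    rw [h.eqF _ h2] at h1
    exact h1
  have hone : ∀ b, |b - x| < ε → b ∈ Icc u₁ u₃ := fun b hb => (hiso b hb).1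
  -- γ is not constant
  have hnc : ∃ s t, γ s ≠ γ t := by
    have h0 : HasDerivAt (fun t => (γ t).1) (X (c + (0, x))).1 0 := by
      have := hasDerivAt_fst (fun t => h.fl.deriv (c + (0, x)) t) 0
      rwa [h.fl.zero] at this
    obtain ⟨s, hs⟩ := (ev_right_gt h0 (h.sec x hx')).exists
    exact ⟨0, s, fun he => by rw [he] at hs; exact lt_irrefl _ hs⟩
  refine ⟨range γ, ⟨⟨γ, P, hP0, hγd, hper, hnc, rfl⟩,
    {v | ∃ s, 0 < s ∧ ∃ b, |b - x| < ε ∧ φ s (c + (0, b)) = v}, h.isOpen_sat hone, ?_, ?_⟩, ?_⟩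
  · rintro v ⟨t, rfl⟩
    obtain ⟨n, hn⟩ := exists_shift t P 0 hP0
    exact ⟨t + n * P, hn, x, by simpa using hε, periodic_nat hper n t⟩
  · rintro D ⟨δ, Q, hQ, hδd, hδper, -, rfl⟩ ⟨v, ⟨t₀, hv⟩, s, hs, b, hb, hvb⟩
    have hb' := hone b hb
    set y : ℝ → ℝ × ℝ := fun t => φ t (c + (0, b)) with hy
    set z : ℝ → ℝ × ℝ := fun t => δ (t + (t₀ - s)) with hz
    have hyc : Continuous y := h.isFlow.continuous _
    have hδc : Continuous δ := continuous_iff_continuousAt.2 fun t => (hδd t).continuousAt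
    have hzc : Continuous z := hδc.comp (continuous_id.add continuous_const)
    have hyd : ∀ t, 0 ≤ t → HasDerivAt y (polyF S A B (y t)) t := by
      intro t ht
      have h1 := h.fl.deriv (c + (0, b)) t
      rw [h.eqF _ (h.norm_lt hb' ht)] at h1
      exact h1
    have hzd : ∀ t, HasDerivAt z (polyF S A B (z t)) t := by
      intro t
      have h1 : HasDerivAt z ((1 : ℝ) • polyF S A B (δ (t + (t₀ - s)))) t :=
        (hδd (t + (t₀ - s))).scomp t ((hasDerivAt_id t).add_const (t₀ - s))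
      rwa [one_smul] at h1
    have hzper : ∀ t, z (t + Q) = z t := by
      intro t
      simp only [hz]
      rw [← hδper (t + (t₀ - s))]
      congr 1; ring
    have heq : ∀ t, 0 ≤ t → z t = y t := by
      intro t ht
      refine sol_unique (contDiff_polyF S A B) (M := max t s + 1) (s := s)
        ⟨hs, lt_of_le_of_lt (le_max_right t s) (lt_add_one _)⟩ hyc hzc (fun t ht => hyd t ht.1.le)
        (fun t _ => hzd t) ?_ ⟨ht, (le_max_left t s).trans (lt_add_one _).le⟩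
      simp only [hz, hy]
      rw [hvb, ← hv]
      congr 1; ring
    have hyper : φ Q (c + (0, b)) = c + (0, b) := by
      have h1 := heq Q hQ.le
      have h2 := heq 0 le_rfl
      have h3 := hzper 0
      rw [zero_add, h1, h2] at h3
      simp only [hy, h.fl.zero] at h3
      exact h3
    have hbx : b = x := by
      refine (hiso b hb).2 ?_
      refine h.turn.periodic (h.fl.translate c) h.hu h.hu13.le hb' hQ ?_
      simp only [hyper]
      simp
    have hyγ : y = γ := by rw [hy, hγ, hbx]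
    ext w
    constructor
    · rintro ⟨t, rfl⟩
      obtain ⟨n, hn⟩ := exists_shift (t - (t₀ - s)) Q 0 hQ
      have h1 : δ t = z (t - (t₀ - s)) := by simp only [hz]; congr 1; ring
      rw [h1, ← periodic_nat hzper n, heq _ hn.le, hyγ]
      exact mem_range_self _
    · rintro ⟨t, rfl⟩
      obtain ⟨n, hn⟩ := exists_shift t P 0 hP0
      rw [← periodic_nat hper n, ← hyγ, ← heq _ hn.le]
      exact mem_range_self _
  · rintro p ⟨t, rfl⟩
    exact hbox t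

/-- **The racetrack theorem.** Sign conditions of a polynomial field in four quadrants around `c`
imply the existence of a limit cycle. -/
theorem race {S : Finset (ℕ × ℕ)} {A B : ℕ × ℕ → ℝ} {c : ℝ × ℝ}
    {r₀ r₁ r₂ r₃ d₀ d₁ d₂ d₃ l₀ l₁ l₂ l₃ u₀ u₁ u₂ u₃ : ℝ}
    (q1 : Quad (fun p => polyF S A B (c + p)) r₁ r₂ r₃ u₀ u₁ u₃)
    (q2 : Quad (rotW (fun p => polyF S A B (c + p))) d₁ d₂ d₃ r₀ r₁ r₃)
    (q3 : Quad (rotW (rotW (fun p => polyF S A B (c + p)))) l₁ l₂ l₃ d₀ d₁ d₃)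
    (q4 : Quad (rotW (rotW (rotW (fun p => polyF S A B (c + p))))) u₁ u₂ u₃ l₀ l₁ l₃) :
    ∃ C, LimitCycle (polyF S A B) C ∧ ∀ p ∈ C, p - c ∈ Icc (-l₃, -d₃) (r₃, u₃) := by
  have p1 := q1.ha1.trans (q1.ha12.trans q1.ha23)
  have p2 := q2.ha1.trans (q2.ha12.trans q2.ha23)
  have p3 := q3.ha1.trans (q3.ha12.trans q3.ha23)
  have p4 := q4.ha1.trans (q4.ha12.trans q4.ha23)
  have hu13 : u₁ < u₃ := q1.hb12
  set R := max (max r₃ d₃) (max l₃ u₃) with hR
  have hr : r₃ ≤ R := (le_max_left _ _).trans (le_max_left _ _)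
  have hd : d₃ ≤ R := (le_max_right _ _).trans (le_max_left _ _)
  have hl : l₃ ≤ R := (le_max_left _ _).trans (le_max_right _ _)
  have hu : u₃ ≤ R := (le_max_right _ _).trans (le_max_right _ _)
  obtain ⟨X₀, hX, ⟨K, hK⟩, ⟨M, hM⟩, hX₀⟩ := exists_cutoff (contDiff_polyF S A B)
    (‖c‖ + R + 1)
  set X : C(ℝ × ℝ, ℝ × ℝ) := ⟨X₀, hX.continuous⟩ with hXdef
  have heq : ∀ p, ‖p‖ < ‖c‖ + R + 1 → X p = polyF S A B p := fun p hp =>
    (hX₀ p hp.le).self_of_nhds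
  have heq' : ∀ p, ‖p‖ ≤ R → polyF S A B (c + p) = X (c + p) := fun p hp => by
    refine (heq _ ?_).symm
    have := norm_add_le c p
    linarith
  have hX1 : ContDiff ℝ 1 X := hX.of_le (by norm_num)
  obtain ⟨φ, hflow, hfl⟩ := exists_flow (X := X) hX1 hK hM
  have e1 : ∀ p, ‖p‖ ≤ R → (fun p => polyF S A B (c + p)) p = (fun p => X (c + p)) p := heq'
  have e2 := rotW_congr e1
  have e3 := rotW_congr e2
  have e4 := rotW_congr e3
  obtain ⟨T, g, hT⟩ := exists_turn (hfl.translate c) (q1.congr e1 hr hu) (q2.congr e2 hd hr)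
    (q3.congr e3 hl hd) (q4.congr e4 hu hl)
  have hctx : Ctx (polyF S A B) X φ c l₃ d₃ r₃ u₁ u₃ T g (‖c‖ + R + 1) := by
    refine ⟨hflow, hfl, hT, q4.ha1, hu13, ?_, heq, ?_⟩
    · intro y hy
      exact (q1.congr e1 hr hu).z1 0 y le_rfl (q1.ha1.trans q1.ha12).le hy.1 hy.2
    · rintro p ⟨⟨h1, h2⟩, ⟨h3, h4⟩⟩
      simp only at h1 h2 h3 h4
      have h5 : ‖p‖ ≤ R := by
        have : p = (p.1, p.2) := rfl
        rw [this]
        exact norm_pair_le (abs_le.2 ⟨by linarith, by linarith⟩) (abs_le.2 ⟨by linarith, by linarith⟩)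
      have := norm_add_le c p
      linarith
  exact hctx.limitCycle hX1 hK

end Pool.Agent.K300
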