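import Pool.Agent.K300.Turn

/-! The return map and its dynamics. -/

open Set Filter Topology

namespace Pool.Agent.K300

variable {W : ℝ × ℝ → ℝ × ℝ} {φ : ℝ → ℝ × ℝ → ℝ × ℝ} {l₃ d₃ r₃ u₁ u₃ : ℝ} {T g : ℝ → ℝ}

lemma Turn.mapsTo (h : Turn φ l₃ d₃ r₃ u₁ u₃ T g) : MapsTo g (Icc u₁ u₃) (Icc u₁ u₃) :=
  fun b hb => Ioo_subset_Icc_self (h.mem b hb)

lemma Turn.iterate_mem (h : Turn φ l₃ d₃ r₃ u₁ u₃ T g) {b : ℝ} (hb : b ∈ Icc u₁ u₃) (m : ℕ) :
    g^[m] b ∈ Icc u₁ u₃ := h.mapsTo.iterate m hb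

lemma Turn.injOn (hφ : Fl W φ) (h : Turn φ l₃ d₃ r₃ u₁ u₃ T g) (hu : 0 < u₁) :
    InjOn g (Icc u₁ u₃) := by
  have key : ∀ b ∈ Icc u₁ u₃, ∀ b' ∈ Icc u₁ u₃, g b = g b' → T b ≤ T b' → b = b' := by
    intro b hb b' hb' he hT
    have h1 : φ (T b) (0, b) = φ (T b') (0, b') := by rw [h.hit b hb, h.hit b' hb', he]
    have h2 : φ (T b' - T b) (0, b') = (0, b) := by
      have h3 := congrArg (φ (-T b)) h1
      rw [← hφ.add, ← hφ.add, neg_add_cancel, hφ.zero] at h3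
      rw [h3]; congr 1; ring
    rcases hT.lt_or_eq with h4 | h4
    · exfalso
      refine h.first b' hb' (T b' - T b) (by linarith) (by linarith [h.pos b hb]) ?_
      rw [h2]
      exact ⟨rfl, hu.trans_le hb.1⟩
    · rw [h4, sub_self, hφ.zero] at h2
      exact (Prod.ext_iff.1 h2).2.symm
  intro b hb b' hb' he
  rcases le_total (T b) (T b') with h1 | h1
  · exact key b hb b' hb' he h1
  · exact (key b' hb' b hb he.symm h1).symm

lemma Turn.strictMonoOn (hφ : Fl W φ) (h : Turn φ l₃ d₃ r₃ u₁ u₃ T g) (hu : 0 < u₁)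
    (hu13 : u₁ ≤ u₃) : StrictMonoOn (fun b => g (g b)) (Icc u₁ u₃) := by
  rcases h.contG.strictMonoOn_of_injOn_Icc' hu13 (h.injOn hφ hu) with h1 | h1
  · intro b hb b' hb' hlt
    exact h1 (h.mapsTo hb) (h.mapsTo hb') (h1 hb hb' hlt)
  · intro b hb b' hb' hlt
    exact h1 (h.mapsTo hb') (h.mapsTo hb) (h1 hb hb' hlt)

lemma Turn.exists_min (h : Turn φ l₃ d₃ r₃ u₁ u₃ T g) (hu13 : u₁ ≤ u₃) :
    ∃ δ, 0 < δ ∧ ∀ b ∈ Icc u₁ u₃, δ ≤ T b := by
  obtain ⟨b, hb, hmin⟩ := isCompact_Icc.exists_isMinOn (nonempty_Icc.2 hu13) h.contT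
  exact ⟨T b, h.pos b hb, fun b' hb' => hmin hb'⟩

/-- position of a positive time with respect to the returns -/
lemma Turn.locate (hφ : Fl W φ) (h : Turn φ l₃ d₃ r₃ u₁ u₃ T g) (hu13 : u₁ ≤ u₃) {b t : ℝ}
    (hb : b ∈ Icc u₁ u₃) (ht : 0 ≤ t) : ∃ m : ℕ, ∃ s, 0 ≤ s ∧ s < T (g^[m] b) ∧
      φ t (0, b) = φ s (0, g^[m] b) ∧ (m = 0 → s = t) := by
  obtain ⟨δ, hδ, hmin⟩ := h.exists_min hu13
  have key : ∀ N : ℕ, ∀ b ∈ Icc u₁ u₃, ∀ t, 0 ≤ t → t < N * δ → ∃ m : ℕ, ∃ s, 0 ≤ s ∧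
      s < T (g^[m] b) ∧ φ t (0, b) = φ s (0, g^[m] b) ∧ (m = 0 → s = t) := by
    intro N
    induction N with
    | zero =>
      intro b _ t h1 h2
      simp only [Nat.cast_zero, zero_mul] at h2
      linarith
    | succ N ih =>
      intro b hb t h1 h2
      by_cases h3 : t < T b
      · exact ⟨0, t, h1, h3, rfl, fun _ => rfl⟩
      push Not at h3
      have h4 := hmin b hb
      push_cast at h2
      obtain ⟨m, s, g1, g2, g3, -⟩ := ih (g b) (h.mapsTo hb) (t - T b) (by linarith) (by linarith)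
      refine ⟨m + 1, s, g1, by rwa [Function.iterate_succ_apply], ?_, fun h => absurd h (by omega)⟩
      rw [Function.iterate_succ_apply, ← g3, ← h.hit b hb, ← hφ.add]
      congr 1; ring
  obtain ⟨N, hN⟩ := exists_nat_gt (t / δ)
  exact key N b hb t ht (by rwa [div_lt_iff₀ hδ] at hN)

lemma Turn.forward (hφ : Fl W φ) (h : Turn φ l₃ d₃ r₃ u₁ u₃ T g) (hu13 : u₁ ≤ u₃) {b t : ℝ}
    (hb : b ∈ Icc u₁ u₃) (ht : 0 ≤ t) : φ t (0, b) ∈ Icc (-l₃, -d₃) (r₃, u₃) := by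
  obtain ⟨m, s, h1, h2, h3, -⟩ := h.locate hφ hu13 hb ht
  rw [h3]
  exact h.stay _ (h.iterate_mem hb m) s h1 h2.le

lemma iterate_gt {G : ℝ → ℝ} {I : Set ℝ} (hm : MapsTo G I I) (hG : StrictMonoOn G I) {b : ℝ}
    (hb : b ∈ I) (h : b < G b) (k : ℕ) : b < G^[k + 1] b := by
  induction k with
  | zero => simpa using h
  | succ k ih =>
    rw [Function.iterate_succ_apply']
    exact h.trans (hG hb (hm.iterate (k + 1) hb) ih)

lemma iterate_lt {G : ℝ → ℝ} {I : Set ℝ} (hm : MapsTo G I I) (hG : StrictMonoOn G I) {b : ℝ}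
    (hb : b ∈ I) (h : G b < b) (k : ℕ) : G^[k + 1] b < b := by
  induction k with
  | zero => simpa using h
  | succ k ih =>
    rw [Function.iterate_succ_apply']
    exact (hG (hm.iterate (k + 1) hb) hb ih).trans h

/-- a periodic orbit crossing the section gives a fixed point of the second iterate -/
lemma Turn.periodic (hφ : Fl W φ) (h : Turn φ l₃ d₃ r₃ u₁ u₃ T g) (hu : 0 < u₁)
    (hu13 : u₁ ≤ u₃) {b P : ℝ} (hb : b ∈ Icc u₁ u₃) (hP : 0 < P) (hper : φ P (0, b) = (0, b)) :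
    g (g b) = b := by
  obtain ⟨m, s, h1, h2, h3, h4⟩ := h.locate hφ hu13 hb hP.le
  have hbm := h.iterate_mem hb m
  have hs : s = 0 := by
    by_contra hs
    refine h.first _ hbm s (lt_of_le_of_ne h1 (Ne.symm hs)) h2 ?_
    rw [← h3, hper]
    exact ⟨rfl, hu.trans_le hb.1⟩
  have hm : m ≠ 0 := fun hm => hP.ne' (by rw [← h4 hm, hs])
  have h5 : g^[m] b = b := by
    rw [hs, hφ.zero, hper] at h3
    exact (Prod.ext_iff.1 h3).2.symm
  set G : ℝ → ℝ := fun b => g (g b) with hG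
  have hGm := h.strictMonoOn hφ hu hu13
  have hGG : MapsTo G (Icc u₁ u₃) (Icc u₁ u₃) := fun x hx => h.mapsTo (h.mapsTo hx)
  have h6 : G^[m] b = b := by
    have : G = g^[2] := rfl
    rw [this, ← Function.iterate_mul, mul_comm, Function.iterate_mul]
    exact Function.iterate_fixed h5 2
  obtain ⟨k, rfl⟩ := Nat.exists_eq_succ_of_ne_zero hm
  rcases lt_trichotomy b (G b) with h7 | h7 | h7
  · exact absurd h6 (iterate_gt hGG hGm hb h7 k).ne'
  · exact h7.symm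
  · exact absurd h6 (iterate_lt hGG hGm hb h7 k).ne

/-- existence of a fixed point of the second iterate -/
lemma Turn.exists_fixed (h : Turn φ l₃ d₃ r₃ u₁ u₃ T g) (hu13 : u₁ ≤ u₃) :
    ∃ b ∈ Ioo u₁ u₃, g (g b) = b := by
  have hc : ContinuousOn (fun b => g (g b) - b) (Icc u₁ u₃) :=
    (h.contG.comp h.contG h.mapsTo).sub continuousOn_id
  have h1 : 0 ≤ g (g u₁) - u₁ := by
    have := (h.mem _ (h.mapsTo (left_mem_Icc.2 hu13))).1
    linarith
  have h3 : g (g u₃) - u₃ ≤ 0 := by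
    have := (h.mem _ (h.mapsTo (right_mem_Icc.2 hu13))).2
    linarith
  obtain ⟨b, hb, hb0⟩ := intermediate_value_Icc' hu13 hc ⟨h3, h1⟩
  simp only at hb0
  have h4 : g (g b) = b := by linarith
  exact ⟨b, by rw [← h4]; exact h.mem _ (h.mapsTo hb), h4⟩

end Pool.Agent.K300
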