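import Pool.Agent.K300.Tail
import Pool.Agent.K300.Out
import Pool.Agent.K300.Count

/-! One dyadic scale: many good cells. -/

open Set MeasureTheory ProbabilityTheory Filter Topology
open scoped ENNReal

set_option linter.unusedSectionVars false

namespace Pool.Agent.K300

variable {Ω : Type*} [MeasurableSpace Ω] {P : Measure Ω} [IsProbabilityMeasure P]
  {X : Ix → Ω → ℝ} {ν : Fin 2 → Measure ℝ} [∀ c, IsProbabilityMeasure (ν c)]

/-- the cells of the scale `j` -/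
def cells (j : ℕ) : Finset (ℕ × ℕ) :=
  Finset.Ico (2 ^ j) (2 ^ (j + 1)) ×ˢ Finset.Ico (2 ^ j) (2 ^ (j + 1))

lemma card_cells (j : ℕ) : (cells j).card = 4 ^ j := by
  unfold cells
  rw [Finset.card_product, Nat.card_Ico]
  have : 2 ^ (j + 1) - 2 ^ j = 2 ^ j := by rw [pow_succ]; omega
  rw [this, ← mul_pow]
  norm_num

/-- the degree of the scale `j` -/
def deg (j : ℕ) : ℕ := 4 ^ 2 ^ (j + 1)

/-- the size of the window at the scale `j` -/
def bw (j : ℕ) : ℕ := j + 3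

/-- the cells near a cell -/
def near (b : ℕ) (q : ℕ × ℕ) : Finset (ℕ × ℕ) :=
  Finset.Ico (q.1 + 1 - 2 * b) (q.1 + 2 * b) ×ˢ Finset.Ico (q.2 + 1 - 2 * b) (q.2 + 2 * b)

lemma card_near {b : ℕ} (q : ℕ × ℕ) : (near b q).card ≤ (4 * b) ^ 2 := by
  unfold near
  rw [Finset.card_product, Nat.card_Ico, Nat.card_Ico, sq]
  exact Nat.mul_le_mul (by omega) (by omega)

lemma WS_disjoint {n b : ℕ} {q q' : ℕ × ℕ} (h : q' ∉ near b q) :
    Disjoint (WS n b (2 ^ q.1) (2 ^ q.2)) (WS n b (2 ^ q'.1) (2 ^ q'.2)) := by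
  have key : ∀ {k k' i : ℕ}, k + 2 * b ≤ k' → i < 2 ^ k * 2 ^ b → 2 ^ k' ≤ i * 2 ^ b → False := by
    intro k k' i h1 h2 h3
    have h4 : 2 ^ (k + 2 * b) ≤ 2 ^ k' := Nat.pow_le_pow_right (by norm_num) h1
    have h5 : 2 ^ (k + 2 * b) = 2 ^ k * 2 ^ b * 2 ^ b := by
      rw [pow_add, two_mul, pow_add]; ring
    have h6 : i * 2 ^ b < 2 ^ k * 2 ^ b * 2 ^ b := Nat.mul_lt_mul_of_pos_right h2 (by positivity)
    omega
  rw [Finset.disjoint_left]
  intro i hi hi'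
  have w := (Finset.mem_filter.1 (Finset.mem_product.1 hi).2).2
  have w' := (Finset.mem_filter.1 (Finset.mem_product.1 hi').2).2
  obtain ⟨w1, w2, w3, w4⟩ := w
  obtain ⟨v1, v2, v3, v4⟩ := w'
  apply h
  unfold near
  rw [Finset.mem_product, Finset.mem_Ico, Finset.mem_Ico]
  refine ⟨⟨?_, ?_⟩, ?_, ?_⟩
  · by_contra hc
    exact key (k := q'.1) (k' := q.1) (by omega) v2 w1
  · by_contra hc
    exact key (k := q.1) (k' := q'.1) (by omega) w2 v1
  · by_contra hc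
    exact key (k := q'.2) (k' := q.2) (by omega) v4 w3
  · by_contra hc
    exact key (k := q.2) (k' := q'.2) (by omega) w4 v3

/-- the exceptional event of the scale `j` -/
def Bad (X : Ix → Ω → ℝ) (p₀ : ℝ) (j : ℕ) : Set Ω :=
  ({ω | ∑ q ∈ cells j, one (ev X (Gd (deg j) (bw j) (2 ^ q.1) (2 ^ q.2))) ω <
      p₀ * (cells j).card / 2} ∪
    {ω | p₀ * (cells j).card / 4 ≤
      ∑ q ∈ cells j, one (ev X (Bd (deg j) (bw j) (2 ^ q.1) (2 ^ q.2))) ω}) ∪
    (ev X (Gr (deg j)))ᶜ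

lemma mem_cells {j : ℕ} {q : ℕ × ℕ} (hq : q ∈ cells j) :
    2 ^ j ≤ q.1 ∧ q.1 < 2 ^ (j + 1) ∧ 2 ^ j ≤ q.2 ∧ q.2 < 2 ^ (j + 1) := by
  simp only [cells, Finset.mem_product, Finset.mem_Ico] at hq
  omega

lemma five_le {j : ℕ} (hj : 1 ≤ j) {q : ℕ × ℕ} (hq : q ∈ cells j) :
    5 * (2 ^ q.1 + 2 ^ q.2) ≤ deg j := by
  obtain ⟨h1, h2, h3, h4⟩ := mem_cells hq
  set m := 2 ^ (j + 1) with hm
  have hm4 : 4 ≤ m := by
    calc 4 = 2 ^ (1 + 1) := by norm_num
      _ ≤ 2 ^ (j + 1) := Nat.pow_le_pow_right (by norm_num) (by omega)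
  have a1 : 2 * 2 ^ q.1 ≤ 2 ^ m := by
    rw [← pow_succ']; exact Nat.pow_le_pow_right (by norm_num) h2
  have a2 : 2 * 2 ^ q.2 ≤ 2 ^ m := by
    rw [← pow_succ']; exact Nat.pow_le_pow_right (by norm_num) h4
  have a3 : 5 * 2 ^ m ≤ deg j := by
    unfold deg
    rw [← hm]
    have e : 4 ^ m = 2 ^ m * 2 ^ m := by rw [← mul_pow]; norm_num
    rw [e]
    refine Nat.mul_le_mul_right _ ?_
    calc 5 ≤ 2 ^ 4 := by norm_num
      _ ≤ 2 ^ m := Nat.pow_le_pow_right (by norm_num) hm4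
  omega

lemma bw_le {j : ℕ} (hj : 3 ≤ j) : bw j ≤ 2 ^ j := by
  unfold bw
  induction j, hj using Nat.le_induction with
  | base => norm_num
  | succ j hj ih => rw [pow_succ]; omega

lemma measurableSet_Gd {j : ℕ} (hj : 3 ≤ j) {q : ℕ × ℕ} (hq : q ∈ cells j) :
    DepOn (WS (deg j) (bw j) (2 ^ q.1) (2 ^ q.2)) (Gd (deg j) (bw j) (2 ^ q.1) (2 ^ q.2)) :=
  depOn_Gd (by unfold bw; omega) (by positivity) (by positivity) (five_le (by omega) hq)

lemma Std.measurableSet_Bad (h : Std P X ν) {p₀ : ℝ} {j : ℕ} (hj : 3 ≤ j) :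
    MeasurableSet (Bad X p₀ j) := by
  unfold Bad
  refine MeasurableSet.union (MeasurableSet.union ?_ ?_) ?_
  · refine measurableSet_lt (Finset.measurable_fun_sum _ fun q hq => measurable_one
      (measurableSet_ev h.meas (measurableSet_Gd hj hq).meas)) measurable_const
  · refine measurableSet_le measurable_const (Finset.measurable_fun_sum _ fun q hq => measurable_one
      (measurableSet_ev h.meas (measurableSet_Bd _ _ _ _)))
  · exact (measurableSet_ev h.meas (measurableSet_Gr _)).compl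

lemma sq_le_two_pow (j : ℕ) : (j + 3) ^ 2 ≤ 16 * 2 ^ j := by
  induction j with
  | zero => norm_num
  | succ j ih =>
    rcases Nat.eq_zero_or_pos j with h | h
    · subst h; norm_num
    · rw [pow_succ 2 j]
      nlinarith

/-- the exceptional event has a small probability -/
lemma Std.prob_Bad (h : Std P X ν) {p₀ : ℝ} (hp₀ : 0 < p₀) {j : ℕ} (hj : 3 ≤ j)
    (hG : ∀ q ∈ cells j, p₀ ≤ P.real (ev X (Gd (deg j) (bw j) (2 ^ q.1) (2 ^ q.2)))) :
    P (Bad X p₀ j) ≤ ENNReal.ofReal ((1024 / p₀ ^ 2 + 16 / p₀ + 8) / 2 ^ j) := by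
  have hJ : 0 < (cells j).card := by rw [card_cells]; positivity
  have hcard : ((cells j).card : ℝ) = 4 ^ j := by rw [card_cells]; push_cast; ring
  have h2j : (0:ℝ) < 2 ^ j := by positivity
  have h4j : (4:ℝ) ^ j = 2 ^ j * 2 ^ j := by rw [← mul_pow]; norm_num
  -- first part
  have e1 := count_lower (P := P) (cells j)
    (fun q => ev X (Gd (deg j) (bw j) (2 ^ q.1) (2 ^ q.2)))
    (fun q hq => measurableSet_ev h.meas (measurableSet_Gd hj hq).meas) (D := (4 * bw j) ^ 2) hp₀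
    hG (near (bw j)) (fun q _ => card_near q) (fun q hq q' hq' hnear => by
      have := (measurableSet_Gd hj hq).indep (P := P) (X := X) h.meas h.indep (WS_disjoint hnear)
        (measurableSet_Gd hj hq')
      exact this) hJ
  have e2 := count_upper (P := P) (cells j)
    (fun q => ev X (Bd (deg j) (bw j) (2 ^ q.1) (2 ^ q.2)))
    (fun q hq => measurableSet_ev h.meas (measurableSet_Bd _ _ _ _)) (ε := 32 / 2 ^ (bw j))
    (fun q hq => by
      obtain ⟨h1, h2, h3, h4⟩ := mem_cells hq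
      have := bw_le hj
      exact h.prob_B (Nat.pow_le_pow_right (by norm_num) (by omega))
        (Nat.pow_le_pow_right (by norm_num) (by omega))) hp₀ hJ
  have e3 := h.prob_Gr (deg j)
  have r1 : 4 * (((4 * bw j) ^ 2 : ℕ) : ℝ) / (p₀ ^ 2 * (cells j).card) ≤ 1024 / p₀ ^ 2 / 2 ^ j := by
    rw [hcard, div_div, div_le_div_iff₀ (by positivity) (by positivity)]
    have h5 : (((4 * bw j) ^ 2 : ℕ) : ℝ) ≤ 256 * 2 ^ j := by
      have : (4 * bw j) ^ 2 ≤ 256 * 2 ^ j := by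
        have := sq_le_two_pow j
        unfold bw
        nlinarith
      exact_mod_cast this
    rw [h4j]
    have h6 : 0 < p₀ ^ 2 * 2 ^ j := by positivity
    nlinarith [mul_le_mul_of_nonneg_right h5 h6.le]
  have r2 : 4 * (32 / 2 ^ (bw j)) / p₀ = 16 / p₀ / 2 ^ j := by
    unfold bw
    rw [pow_add]
    field_simp
    norm_num
  have r3 : 8 / (1 + (deg j : ℝ)) ^ 2 ≤ 8 / 2 ^ j := by
    refine div_le_div_of_nonneg_left (by norm_num) h2j ?_
    have h5 : 2 ^ j ≤ deg j := by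
      unfold deg
      calc 2 ^ j ≤ 2 ^ (j + 1) := Nat.pow_le_pow_right (by norm_num) (by omega)
        _ ≤ 4 ^ 2 ^ (j + 1) := (Nat.lt_pow_self (by norm_num)).le
    have h6 : (2:ℝ) ^ j ≤ deg j := by exact_mod_cast h5
    nlinarith
  have f1 : P {ω | ∑ q ∈ cells j, one (ev X (Gd (deg j) (bw j) (2 ^ q.1) (2 ^ q.2))) ω <
      p₀ * (cells j).card / 2} ≤ ENNReal.ofReal (1024 / p₀ ^ 2 / 2 ^ j) := by
    rw [← ofReal_measureReal]
    exact ENNReal.ofReal_le_ofReal (e1.trans r1)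
  have f2 : P {ω | p₀ * (cells j).card / 4 ≤
      ∑ q ∈ cells j, one (ev X (Bd (deg j) (bw j) (2 ^ q.1) (2 ^ q.2))) ω} ≤
      ENNReal.ofReal (16 / p₀ / 2 ^ j) := by
    rw [← ofReal_measureReal]
    exact ENNReal.ofReal_le_ofReal (e2.trans r2.le)
  have f3 : P (ev X (Gr (deg j)))ᶜ ≤ ENNReal.ofReal (8 / 2 ^ j) :=
    e3.trans (ENNReal.ofReal_le_ofReal r3)
  calc P (Bad X p₀ j) ≤ (ENNReal.ofReal (1024 / p₀ ^ 2 / 2 ^ j) +
        ENNReal.ofReal (16 / p₀ / 2 ^ j)) + ENNReal.ofReal (8 / 2 ^ j) := by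
        unfold Bad
        refine (measure_union_le _ _).trans (add_le_add ?_ f3)
        exact (measure_union_le _ _).trans (add_le_add f1 f2)
    _ = _ := by
        rw [← ENNReal.ofReal_add (by positivity) (by positivity),
          ← ENNReal.ofReal_add (by positivity) (by positivity)]
        congr 1
        ring

/-- the number of limit cycles -/
noncomputable def lcCount (n : ℕ) (a b : ℕ × ℕ → ℝ) : ℝ≥0∞ :=
  (({C | LimitCycle (fieldP n a b) C}.encard : ℕ∞) : ℝ≥0∞)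

/-- outside of the exceptional event there are many limit cycles -/
theorem count_of_notBad {p₀ : ℝ} {j : ℕ} (hj : 3 ≤ j) {M σ : Fin 2 → ℝ} (hσ : ∀ c, 0 < σ c)
    (hM : ∀ c, 16 * M c ^ 2 ≤ 2 ^ j)
    (hT : ∀ c, ∀ s : ℕ, deg j ≤ s →
      (2 + 2 * |M c|) * 2 * (1 + (s : ℝ)) ^ 7 * (1 / 2) ^ (Nat.sqrt s) ≤ 1)
    {ω : Ω} (hω : ω ∉ Bad X p₀ j) {n : ℕ} (hn : deg j ≤ n) :
    ENNReal.ofReal (p₀ * 4 ^ j / 4) ≤ lcCount n (fun m => σ 0 * (X (0, m) ω + M 0))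
      (fun m => σ 1 * (X (1, m) ω + M 1)) := by
  classical
  unfold Bad at hω
  rw [mem_union, mem_union, not_or, not_or, notMem_compl_iff] at hω
  obtain ⟨⟨hω1, hω2⟩, hω3⟩ := hω
  simp only [mem_ofPred_eq, not_lt, not_le] at hω1 hω2
  set ξ : Ix → ℝ := fun i => X i ω with hξ
  set J' := (cells j).filter fun q => ξ ∈ Gd (deg j) (bw j) (2 ^ q.1) (2 ^ q.2) ∧
    ξ ∉ Bd (deg j) (bw j) (2 ^ q.1) (2 ^ q.2) with hJ'
  have hcount : p₀ * 4 ^ j / 4 ≤ (J'.card : ℝ) := by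
    have h1 : ∀ q ∈ cells j, one (ev X (Gd (deg j) (bw j) (2 ^ q.1) (2 ^ q.2))) ω -
        one (ev X (Bd (deg j) (bw j) (2 ^ q.1) (2 ^ q.2))) ω ≤
        if (ξ ∈ Gd (deg j) (bw j) (2 ^ q.1) (2 ^ q.2) ∧
          ξ ∉ Bd (deg j) (bw j) (2 ^ q.1) (2 ^ q.2)) then 1 else 0 := by
      intro q _
      have hone : ∀ Φ : Set (Ix → ℝ), one (ev X Φ) ω = if ξ ∈ Φ then 1 else 0 := by
        intro Φ
        unfold one
        rw [indicator_apply]
        rfl
      rw [hone, hone]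
      by_cases g1 : ξ ∈ Gd (deg j) (bw j) (2 ^ q.1) (2 ^ q.2) <;>
      by_cases g2 : ξ ∈ Bd (deg j) (bw j) (2 ^ q.1) (2 ^ q.2) <;> simp [g1, g2]
    have h2 := Finset.sum_le_sum h1
    rw [Finset.sum_sub_distrib, ← Finset.sum_filter, Finset.sum_const, nsmul_eq_mul, mul_one] at h2
    rw [← hJ'] at h2
    have hcard : ((cells j).card : ℝ) = 4 ^ j := by rw [card_cells]; push_cast; ring
    rw [hcard] at hω1 hω2
    linarith
  -- a limit cycle in each cell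
  have hex : ∀ q ∈ J', ∃ C, LimitCycle (fieldP n (fun m => σ 0 * (ξ (0, m) + M 0))
      (fun m => σ 1 * (ξ (1, m) + M 1))) C ∧ ∀ p ∈ C, -p ∈ cellBox (2 ^ q.1) (2 ^ q.2) := by
    intro q hq
    obtain ⟨hqc, hqG, hqB⟩ := Finset.mem_filter.1 hq
    obtain ⟨h1, h2, h3, h4⟩ := mem_cells hqc
    have hKL : (2:ℝ) ^ j ≤ ((2 ^ q.1 * 2 ^ q.2 : ℕ) : ℝ) := by
      have h5 : 2 ^ j ≤ 2 ^ q.1 * 2 ^ q.2 := by
        calc 2 ^ j ≤ 2 ^ 2 ^ j := Nat.pow_le_pow_right (by norm_num) (Nat.lt_two_pow_self).le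
          _ ≤ 2 ^ q.1 := Nat.pow_le_pow_right (by norm_num) h1
          _ ≤ 2 ^ q.1 * 2 ^ q.2 := Nat.le_mul_of_pos_right _ (by positivity)
      exact_mod_cast h5
    have hj1 : 1 ≤ 2 ^ j := Nat.one_le_two_pow
    have hmax : (max (2 ^ q.1) (2 ^ q.2)) ^ 2 ≤ deg j := by
      have h5 : max (2 ^ q.1) (2 ^ q.2) ≤ 2 ^ 2 ^ (j + 1) :=
        max_le (Nat.pow_le_pow_right (by norm_num) h2.le) (Nat.pow_le_pow_right (by norm_num) h4.le)
      calc (max (2 ^ q.1) (2 ^ q.2)) ^ 2 ≤ (2 ^ 2 ^ (j + 1)) ^ 2 := Nat.pow_le_pow_left h5 2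
        _ = deg j := by unfold deg; rw [← pow_mul, mul_comm, pow_mul]; norm_num
    have hgood : ∀ c, Good (deg j) (bw j) (2 ^ q.1) (2 ^ q.2) (M c) (tgtc c)
        (fun m => ξ (c, m)) := fun c =>
      good_of_mem hqG hqB Nat.one_le_two_pow Nat.one_le_two_pow hmax ((hM c).trans hKL) c
    have h0 : Good (deg j) (bw j) (2 ^ q.1) (2 ^ q.2) (M 0) tgt0 (fun m => ξ (0, m)) := by
      have := hgood 0
      simpa [tgtc] using this
    have h1' : Good (deg j) (bw j) (2 ^ q.1) (2 ^ q.2) (M 1) tgt1 (fun m => ξ (1, m)) := by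
      have := hgood 1
      simpa [tgtc] using this
    have hΛ : 1 ≤ √((2 ^ q.1 * 2 ^ q.2 : ℕ) : ℝ) := by
      rw [Real.one_le_sqrt]
      exact (one_le_pow₀ (by norm_num)).trans hKL
    have htail : ∀ c, ∀ p ∈ cellBox (2 ^ q.1) (2 ^ q.2),
        |∑ m ∈ tri n \ tri (deg j), sg m * (ξ (c, m) + M c) * (p.1 ^ m.1 * p.2 ^ m.2)| ≤
          √((2 ^ q.1 * 2 ^ q.2 : ℕ) : ℝ) := fun c p hp =>
      (tail_le (m := 2 ^ (j + 1)) (hT c) hω3 c h2.le h4.le n hp).trans hΛ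
    have h8 : 8 ≤ 2 ^ j := by
      calc 8 = 2 ^ 3 := by norm_num
        _ ≤ 2 ^ j := Nat.pow_le_pow_right (by norm_num) hj
    refine good_limitCycle (hσ 0) (hσ 1) h0 h1' (by unfold bw; omega) ?_ ?_ ?_
      (five_le (by omega) hqc) hn (htail 0) (htail 1)
    · calc 2 = 2 ^ 1 := by norm_num
        _ ≤ 2 ^ q.1 := Nat.pow_le_pow_right (by norm_num) (by omega)
    · calc 2 = 2 ^ 1 := by norm_num
        _ ≤ 2 ^ q.2 := Nat.pow_le_pow_right (by norm_num) (by omega)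
    · exact (even_two).pow_of_ne_zero (by omega)
  choose! f hf1 hf2 using hex
  have hinj : Set.InjOn f (J' : Set (ℕ × ℕ)) := by
    intro q hq q' hq' he
    obtain ⟨⟨γ, T, hT, -, -, -, hC⟩, -⟩ := hf1 q hq
    have hmem : γ 0 ∈ f q := by rw [hC]; exact mem_range_self 0
    have m1 := hf2 q hq _ hmem
    have m2 := hf2 q' hq' (γ 0) (by rw [← he]; exact hmem)
    obtain ⟨g1, g2⟩ := cellBox_disjoint m1 m2
    exact Prod.ext g1 g2
  have hsub : f '' (J' : Set (ℕ × ℕ)) ⊆ {C | LimitCycle (fieldP n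
      (fun m => σ 0 * (ξ (0, m) + M 0)) (fun m => σ 1 * (ξ (1, m) + M 1))) C} := by
    rintro _ ⟨q, hq, rfl⟩
    exact hf1 q hq
  have hen : ((J'.card : ℕ∞)) ≤ {C | LimitCycle (fieldP n
      (fun m => σ 0 * (ξ (0, m) + M 0)) (fun m => σ 1 * (ξ (1, m) + M 1))) C}.encard := by
    rw [← Set.encard_coe_eq_coe_finsetCard, ← hinj.encard_image]
    exact Set.encard_le_encard hsub
  unfold lcCount
  calc ENNReal.ofReal (p₀ * 4 ^ j / 4) ≤ ENNReal.ofReal (J'.card : ℝ) :=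
        ENNReal.ofReal_le_ofReal hcount
    _ = ((J'.card : ℕ∞) : ℝ≥0∞) := by simp
    _ ≤ _ := by exact_mod_cast hen

end Pool.Agent.K300
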