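import Mathlib

/-! Abel summation in two variables: bounds for polynomials on a cell. -/

open Set

namespace Pool.Agent.K300

/-- Abel weights -/
noncomputable def aw (n : ℕ) (x : ℝ) (I : ℕ) : ℝ := if I < n then x ^ I * (1 - x) else x ^ n

lemma aw_nonneg {n : ℕ} {x : ℝ} (h0 : 0 ≤ x) (h1 : x ≤ 1) (I : ℕ) : 0 ≤ aw n x I := by
  unfold aw
  split_ifs
  · exact mul_nonneg (pow_nonneg h0 _) (by linarith)
  · exact pow_nonneg h0 _

lemma sum_range_tail (i : ℕ) (x : ℝ) (n : ℕ) (h : i ≤ n) :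
    ∑ I ∈ Finset.range n, (if i ≤ I then x ^ I * (1 - x) else 0) = x ^ i - x ^ n := by
  induction n, h using Nat.le_induction with
  | base =>
    rw [sub_self]
    refine Finset.sum_eq_zero fun I hI => ?_
    rw [if_neg (by have := Finset.mem_range.1 hI; omega)]
  | succ n hn ih =>
    rw [Finset.sum_range_succ, ih, if_pos hn]
    ring

lemma sum_aw_tail {i n : ℕ} (h : i ≤ n) (x : ℝ) :
    ∑ I ∈ Finset.range (n + 1), (if i ≤ I then aw n x I else 0) = x ^ i := by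
  rw [Finset.sum_range_succ, if_pos h]
  have h1 : ∑ I ∈ Finset.range n, (if i ≤ I then aw n x I else 0) =
      ∑ I ∈ Finset.range n, (if i ≤ I then x ^ I * (1 - x) else 0) := by
    refine Finset.sum_congr rfl fun I hI => ?_
    unfold aw
    rw [if_pos (Finset.mem_range.1 hI)]
  rw [h1, sum_range_tail i x n h]
  unfold aw
  rw [if_neg (lt_irrefl n)]
  ring

/-- the indicator of `m ≤ t` -/
noncomputable def ind (m t : ℕ × ℕ) : ℝ := if m.1 ≤ t.1 ∧ m.2 ≤ t.2 then 1 else 0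

lemma ind_sq (m t : ℕ × ℕ) : ind m t ^ 2 = ind m t := by
  unfold ind; split_ifs <;> norm_num

/-- the index set of the Abel sum -/
def grid (n : ℕ) : Finset (ℕ × ℕ) := Finset.range (n + 1) ×ˢ Finset.range (n + 1)

noncomputable def aw2 (n : ℕ) (x y : ℝ) (t : ℕ × ℕ) : ℝ := aw n x t.1 * aw n y t.2

lemma aw2_nonneg {n : ℕ} {x y : ℝ} (h0 : 0 ≤ x) (h1 : x ≤ 1) (h2 : 0 ≤ y) (h3 : y ≤ 1)
    (t : ℕ × ℕ) : 0 ≤ aw2 n x y t := mul_nonneg (aw_nonneg h0 h1 _) (aw_nonneg h2 h3 _)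

lemma sum_aw2 {n : ℕ} {m : ℕ × ℕ} (h1 : m.1 ≤ n) (h2 : m.2 ≤ n) (x y : ℝ) :
    ∑ t ∈ grid n, aw2 n x y t * ind m t = x ^ m.1 * y ^ m.2 := by
  rw [grid, Finset.sum_product, ← sum_aw_tail h1 x, ← sum_aw_tail h2 y, Finset.sum_mul_sum]
  refine Finset.sum_congr rfl fun I _ => Finset.sum_congr rfl fun J _ => ?_
  unfold aw2 ind
  by_cases g1 : m.1 ≤ I <;> by_cases g2 : m.2 ≤ J <;> simp [g1, g2]

lemma abel {n : ℕ} {S : Finset (ℕ × ℕ)} (hS : ∀ m ∈ S, m.1 ≤ n ∧ m.2 ≤ n) (c : ℕ × ℕ → ℝ)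
    (x y : ℝ) : ∑ m ∈ S, c m * (x ^ m.1 * y ^ m.2) =
      ∑ t ∈ grid n, aw2 n x y t * ∑ m ∈ S, c m * ind m t := by
  simp only [Finset.mul_sum]
  rw [Finset.sum_comm]
  refine Finset.sum_congr rfl fun m hm => ?_
  rw [← sum_aw2 (hS m hm).1 (hS m hm).2 x y, Finset.mul_sum]
  refine Finset.sum_congr rfl fun t _ => ?_
  ring

/-- the energy of the coefficients -/
noncomputable def en (n : ℕ) (x y : ℝ) (S : Finset (ℕ × ℕ)) (c : ℕ × ℕ → ℝ) : ℝ :=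
  ∑ t ∈ grid n, aw2 n x y t * (∑ m ∈ S, c m * ind m t) ^ 2

lemma cauchy {n : ℕ} {S : Finset (ℕ × ℕ)} (hS : ∀ m ∈ S, m.1 ≤ n ∧ m.2 ≤ n) (c : ℕ × ℕ → ℝ)
    {x y : ℝ} (h0 : 0 ≤ x) (h1 : x ≤ 1) (h2 : 0 ≤ y) (h3 : y ≤ 1) :
    (∑ m ∈ S, c m * (x ^ m.1 * y ^ m.2)) ^ 2 ≤ en n x y S c := by
  rw [abel hS]
  have hone : ∑ t ∈ grid n, aw2 n x y t = 1 := by
    have := sum_aw2 (n := n) (m := (0, 0)) (Nat.zero_le _) (Nat.zero_le _) x y
    simpa [ind] using this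
  have := Finset.sum_sq_le_sum_mul_sum_of_sq_le_mul (grid n)
    (r := fun t => aw2 n x y t * ∑ m ∈ S, c m * ind m t) (f := fun t => aw2 n x y t)
    (g := fun t => aw2 n x y t * (∑ m ∈ S, c m * ind m t) ^ 2)
    (fun t _ => aw2_nonneg h0 h1 h2 h3 t)
    (fun t _ => mul_nonneg (aw2_nonneg h0 h1 h2 h3 t) (sq_nonneg _))
    (fun t _ => le_of_eq (by ring))
  rw [hone, one_mul] at this
  exact this

lemma aw_comp {n : ℕ} {x x' : ℝ} (h0 : 0 ≤ x) (h1 : x ≤ x') (h2 : x' ≤ 1)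
    (h3 : 1 - x ≤ 4 * (1 - x')) (I : ℕ) : aw n x I ≤ 4 * aw n x' I := by
  unfold aw
  have hp : ∀ k, x ^ k ≤ x' ^ k := fun k => pow_le_pow_left₀ h0 h1 k
  split_ifs
  · have := mul_le_mul (hp I) h3 (by linarith) (pow_nonneg (h0.trans h1) I)
    linarith
  · have := hp n
    have := pow_nonneg (h0.trans h1) n
    linarith

/-- the bound on a cell -/
lemma sup_bound {n : ℕ} {S : Finset (ℕ × ℕ)} (hS : ∀ m ∈ S, m.1 ≤ n ∧ m.2 ≤ n) (c : ℕ × ℕ → ℝ)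
    {x y x' y' : ℝ} (h0 : 0 ≤ x) (h1 : x ≤ x') (h2 : x' ≤ 1) (h3 : 1 - x ≤ 4 * (1 - x'))
    (k0 : 0 ≤ y) (k1 : y ≤ y') (k2 : y' ≤ 1) (k3 : 1 - y ≤ 4 * (1 - y')) :
    (∑ m ∈ S, c m * (x ^ m.1 * y ^ m.2)) ^ 2 ≤ 16 * en n x' y' S c := by
  refine (cauchy hS c h0 (h1.trans h2) k0 (k1.trans k2)).trans ?_
  unfold en
  rw [Finset.mul_sum]
  refine Finset.sum_le_sum fun t _ => ?_
  have h5 : aw2 n x y t ≤ 16 * aw2 n x' y' t := by
    unfold aw2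
    have := mul_le_mul (aw_comp h0 h1 h2 h3 t.1 (n := n)) (aw_comp k0 k1 k2 k3 t.2 (n := n))
      (aw_nonneg k0 (k1.trans k2) _) (by have := aw_nonneg (n := n) (h0.trans h1) h2 t.1; positivity)
    linarith
  calc _ ≤ (16 * aw2 n x' y' t) * (∑ m ∈ S, c m * ind m t) ^ 2 :=
        mul_le_mul_of_nonneg_right h5 (sq_nonneg _)
    _ = _ := by ring

end Pool.Agent.K300
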