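import Pool.Agent.K300.Prob2
import Pool.Agent.K300.Det3

/-! The contribution of the exponents of high degree. -/

open Set MeasureTheory ProbabilityTheory Filter Topology
open scoped ENNReal

set_option linter.unusedSectionVars false

namespace Pool.Agent.K300

lemma sum_inv_sq_le (N : ℕ) : ∑ i ∈ Finset.range N, 1 / ((1:ℝ) + i) ^ 2 ≤ 2 := by
  have key : ∀ M : ℕ, ∑ i ∈ Finset.range (M + 1), 1 / ((1:ℝ) + i) ^ 2 ≤
      (2:ℝ) - 1 / ((M:ℝ) + 1) := by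
    intro M
    induction M with
    | zero => norm_num
    | succ N ih =>
      rw [Finset.sum_range_succ]
      push_cast
      have h1 : 1 / ((1:ℝ) + (N + 1)) ^ 2 ≤ 1 / (N + 1) - 1 / (N + 1 + 1) := by
        rw [div_sub_div _ _ (by positivity) (by positivity), div_le_div_iff₀ (by positivity)
          (by positivity)]
        ring_nf
        nlinarith [N.cast_nonneg (α := ℝ)]
      linarith
  cases N with
  | zero => norm_num
  | succ N =>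
    have h1 := key N
    have : 0 ≤ 1 / ((N:ℝ) + 1) := by positivity
    linarith

/-- a bound for sums over pairs -/
lemma sum_pair_le {S : Finset (ℕ × ℕ)} {N : ℕ} (hS : S ⊆ Finset.range N ×ˢ Finset.range N) :
    ∑ m ∈ S, 1 / (((1:ℝ) + m.1) ^ 2 * (1 + m.2) ^ 2) ≤ 4 := by
  calc _ ≤ ∑ m ∈ Finset.range N ×ˢ Finset.range N, 1 / (((1:ℝ) + m.1) ^ 2 * (1 + m.2) ^ 2) :=
        Finset.sum_le_sum_of_subset_of_nonneg hS fun m _ _ => by positivity
    _ = (∑ i ∈ Finset.range N, 1 / ((1:ℝ) + i) ^ 2) * ∑ i ∈ Finset.range N, 1 / ((1:ℝ) + i) ^ 2 := by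
        rw [Finset.sum_product, Finset.sum_mul_sum]
        refine Finset.sum_congr rfl fun i _ => Finset.sum_congr rfl fun j _ => ?_
        rw [div_mul_div_comm, one_mul]
    _ ≤ 2 * 2 := mul_le_mul (sum_inv_sq_le N) (sum_inv_sq_le N)
        (Finset.sum_nonneg fun i _ => by positivity) (by norm_num)
    _ = 4 := by norm_num

/-- polynomial growth of the coefficients of high degree -/
def Gr (N : ℕ) : Set (Ix → ℝ) :=
  {ξ | ∀ i : Ix, N < i.2.1 + i.2.2 → |ξ i| ≤ (1 + (i.2.1 + i.2.2 : ℕ) : ℝ) ^ 3}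

lemma measurableSet_Gr (N : ℕ) : MeasurableSet (Gr N) := by
  have : Gr N = ⋂ i : Ix, {ξ : Ix → ℝ | N < i.2.1 + i.2.2 →
      |ξ i| ≤ (1 + (i.2.1 + i.2.2 : ℕ) : ℝ) ^ 3} := by
    ext ξ; simp [Gr]
  rw [this]
  refine MeasurableSet.iInter fun i => ?_
  by_cases h : N < i.2.1 + i.2.2
  · simp only [h, true_imp_iff]
    exact measurableSet_le (by fun_prop) measurable_const
  · simp [h]

variable {Ω : Type*} [MeasurableSpace Ω] {P : Measure Ω} [IsProbabilityMeasure P]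
  {X : Ix → Ω → ℝ} {ν : Fin 2 → Measure ℝ} [∀ c, IsProbabilityMeasure (ν c)]

/-- the tail estimate -/
lemma tail_bound (M : ℝ) : ∀ᶠ s : ℕ in atTop, ∀ s' : ℕ, s ≤ s' →
    (2 + 2 * |M|) * 2 * (1 + (s' : ℝ)) ^ 7 * (1 / 2) ^ (Nat.sqrt s') ≤ 1 := by
  have h1 : Tendsto (fun r : ℕ => ((r:ℝ)) ^ 14 / 2 ^ r) atTop (𝓝 0) :=
    tendsto_pow_const_div_const_pow_of_one_lt 14 (by norm_num)
  set A : ℝ := (2 + 2 * |M|) * 2 * 2 with hA
  have hA0 : 0 < A := by positivity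
  have h2 : ∀ᶠ r : ℕ in atTop, (r:ℝ) ^ 14 / 2 ^ r ≤ 1 / A :=
    (h1.eventually (gt_mem_nhds (show (0:ℝ) < 1 / A by positivity))).mono fun r hr => hr.le
  obtain ⟨r₀, hr₀⟩ := eventually_atTop.1 h2
  refine eventually_atTop.2 ⟨r₀ * r₀, fun s hs s' hs' => ?_⟩
  set r := Nat.sqrt s' with hr
  have hr1 : r₀ ≤ r := by
    rw [hr, Nat.le_sqrt]; exact le_trans hs hs'
  have h3 := hr₀ (r + 1) (by omega)
  have h4 : (1 + (s':ℝ)) ≤ ((r + 1 : ℕ) : ℝ) ^ 2 := by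
    have : 1 + s' ≤ (r + 1) ^ 2 := by
      have := Nat.lt_succ_sqrt s'
      rw [← hr, Nat.succ_eq_add_one] at this
      nlinarith
    exact_mod_cast this
  have h5 : (1 + (s':ℝ)) ^ 7 ≤ ((r + 1 : ℕ) : ℝ) ^ 14 := by
    calc (1 + (s':ℝ)) ^ 7 ≤ (((r + 1 : ℕ) : ℝ) ^ 2) ^ 7 := pow_le_pow_left₀ (by positivity) h4 7
      _ = _ := by rw [← pow_mul]
  have h6 : ((r + 1 : ℕ) : ℝ) ^ 14 ≤ 2 ^ (r + 1) / A := by
    rw [div_le_iff₀ (by positivity)] at h3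
    calc _ ≤ 1 / A * 2 ^ (r + 1) := h3
      _ = _ := by ring
  have h7 : (2:ℝ) ^ (r + 1) / A * (1 / 2) ^ r = 2 / A := by
    rw [pow_succ, one_div, inv_pow]
    field_simp
  calc (2 + 2 * |M|) * 2 * (1 + (s' : ℝ)) ^ 7 * (1 / 2) ^ r
      ≤ (2 + 2 * |M|) * 2 * (2 ^ (r + 1) / A) * (1 / 2) ^ r := by
        gcongr
        exact h5.trans h6
    _ = (2 + 2 * |M|) * 2 * (2 ^ (r + 1) / A * (1 / 2) ^ r) := by ring
    _ = 1 := by rw [h7, hA]; field_simp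

/-- bound of the tail polynomial in the cells of the scale `m` -/
lemma tail_le {M : ℝ} {m : ℕ} (hM : ∀ s : ℕ, 4 ^ m ≤ s →
      (2 + 2 * |M|) * 2 * (1 + (s : ℝ)) ^ 7 * (1 / 2) ^ (Nat.sqrt s) ≤ 1)
    {ξ : Ix → ℝ} (hξ : ξ ∈ Gr (4 ^ m)) (c : Fin 2) {k l : ℕ} (hk : k ≤ m) (hl : l ≤ m) (n : ℕ)
    {p : ℝ × ℝ} (hp : p ∈ cellBox (2 ^ k) (2 ^ l)) :
    |∑ q ∈ tri n \ tri (4 ^ m), sg q * (ξ (c, q) + M) * (p.1 ^ q.1 * p.2 ^ q.2)| ≤ 1 := by
  obtain ⟨hp1, hp2, hp3, hp4⟩ := hp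
  have hx1 : p.1 ≤ 1 := le_one_of_pow (by positivity) hp3.2
  have hy1 : p.2 ≤ 1 := le_one_of_pow (by positivity) hp4.2
  have hxm : p.1 ^ 2 ^ m ≤ 1 / 2 :=
    (pow_le_pow_of_le_one hp1 hx1 (Nat.pow_le_pow_right (by norm_num) hk)).trans hp3.2
  have hym : p.2 ^ 2 ^ m ≤ 1 / 2 :=
    (pow_le_pow_of_le_one hp2 hy1 (Nat.pow_le_pow_right (by norm_num) hl)).trans hp4.2
  set z := max p.1 p.2 with hz
  have hz0 : 0 ≤ z := hp1.trans (le_max_left _ _)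
  have hz1 : z ≤ 1 := max_le hx1 hy1
  have hzm : z ^ 2 ^ m ≤ 1 / 2 := by
    rcases le_total p.1 p.2 with g | g
    · rw [hz, max_eq_right g]; exact hym
    · rw [hz, max_eq_left g]; exact hxm
  refine (Finset.abs_sum_le_sum_abs _ _).trans ?_
  have hterm : ∀ q ∈ tri n \ tri (4 ^ m), |sg q * (ξ (c, q) + M) * (p.1 ^ q.1 * p.2 ^ q.2)| ≤
      1 / 4 * (1 / (((1:ℝ) + q.1) ^ 2 * (1 + q.2) ^ 2)) := by
    intro q hq
    have hq2 : 4 ^ m < q.1 + q.2 := by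
      have := (Finset.mem_sdiff.1 hq).2
      rw [mem_tri] at this
      omega
    set s := q.1 + q.2 with hs
    have h1 : |ξ (c, q)| ≤ (1 + (s:ℝ)) ^ 3 := hξ (c, q) hq2
    have hs1 : (1:ℝ) ≤ 1 + (s:ℝ) := by have := s.cast_nonneg (α := ℝ); linarith
    have h2 : |ξ (c, q) + M| ≤ (1 + |M|) * (1 + (s:ℝ)) ^ 3 := by
      have h3 : (1:ℝ) ≤ (1 + (s:ℝ)) ^ 3 := one_le_pow₀ hs1
      calc |ξ (c, q) + M| ≤ |ξ (c, q)| + |M| := abs_add_le _ _
        _ ≤ (1 + (s:ℝ)) ^ 3 + |M| * (1 + (s:ℝ)) ^ 3 := by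
            refine add_le_add h1 ?_
            nlinarith [abs_nonneg M]
        _ = _ := by ring
    have hsqrt : Nat.sqrt s ≤ s / 2 ^ m := by
      rw [Nat.le_div_iff_mul_le (by positivity)]
      have h4 : 2 ^ m ≤ Nat.sqrt s := by
        rw [Nat.le_sqrt]
        calc 2 ^ m * 2 ^ m = 4 ^ m := by rw [← mul_pow]; norm_num
          _ ≤ s := hq2.le
      calc Nat.sqrt s * 2 ^ m ≤ Nat.sqrt s * Nat.sqrt s := Nat.mul_le_mul_left _ h4
        _ ≤ s := Nat.sqrt_le s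
    have h3 : p.1 ^ q.1 * p.2 ^ q.2 ≤ (1 / 2) ^ (Nat.sqrt s) := by
      calc p.1 ^ q.1 * p.2 ^ q.2 ≤ z ^ q.1 * z ^ q.2 :=
            mul_le_mul (pow_le_pow_left₀ hp1 (le_max_left _ _) _)
              (pow_le_pow_left₀ hp2 (le_max_right _ _) _) (pow_nonneg hp2 _) (pow_nonneg hz0 _)
        _ = z ^ s := by rw [← pow_add]
        _ ≤ z ^ (2 ^ m * (s / 2 ^ m)) := pow_le_pow_of_le_one hz0 hz1 (Nat.mul_div_le _ _)
        _ = (z ^ 2 ^ m) ^ (s / 2 ^ m) := by rw [pow_mul]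
        _ ≤ (1 / 2) ^ (s / 2 ^ m) := pow_le_pow_left₀ (pow_nonneg hz0 _) hzm _
        _ ≤ _ := pow_le_pow_of_le_one (by norm_num) (by norm_num) hsqrt
    rw [abs_mul, abs_mul, abs_sg, one_mul, abs_of_nonneg (mul_nonneg (pow_nonneg hp1 _)
      (pow_nonneg hp2 _))]
    have h4 : |ξ (c, q) + M| * (p.1 ^ q.1 * p.2 ^ q.2) ≤
        (1 + |M|) * (1 + (s:ℝ)) ^ 3 * (1 / 2) ^ (Nat.sqrt s) :=
      mul_le_mul h2 h3 (mul_nonneg (pow_nonneg hp1 _) (pow_nonneg hp2 _)) (by positivity)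
    refine h4.trans ?_
    have h5 := hM s hq2.le
    have h6 : ((1:ℝ) + q.1) ^ 2 * (1 + q.2) ^ 2 ≤ (1 + (s:ℝ)) ^ 4 := by
      have e1 : (1:ℝ) + q.1 ≤ 1 + s := by rw [hs]; push_cast; linarith [q.2.cast_nonneg (α := ℝ)]
      have e2 : (1:ℝ) + q.2 ≤ 1 + s := by rw [hs]; push_cast; linarith [q.1.cast_nonneg (α := ℝ)]
      calc ((1:ℝ) + q.1) ^ 2 * (1 + q.2) ^ 2 ≤ (1 + s) ^ 2 * (1 + s) ^ 2 := by gcongr
        _ = _ := by ring
    have h7 : (1:ℝ) / (1 + (s:ℝ)) ^ 4 ≤ 1 / (((1:ℝ) + q.1) ^ 2 * (1 + q.2) ^ 2) :=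
      one_div_le_one_div_of_le (by positivity) h6
    refine le_trans ?_ (mul_le_mul_of_nonneg_left h7 (by norm_num))
    rw [mul_one_div, le_div_iff₀ (by positivity)]
    nlinarith [h5]
  refine (Finset.sum_le_sum hterm).trans ?_
  rw [← Finset.mul_sum]
  have := sum_pair_le (S := tri n \ tri (4 ^ m)) (N := n + 1)
    (Finset.sdiff_subset.trans (Finset.filter_subset _ _))
  linarith

/-- the growth condition holds with high probability -/
lemma Std.prob_Gr (h : Std P X ν) (N : ℕ) :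
    P (ev X (Gr N))ᶜ ≤ ENNReal.ofReal (8 / (1 + (N:ℝ)) ^ 2) := by
  set g : Ix → ℝ := fun i => 1 / (1 + (N:ℝ)) ^ 2 * (1 / (((1:ℝ) + i.2.1) ^ 2 * (1 + i.2.2) ^ 2))
    with hg
  have hg0 : ∀ i, 0 ≤ g i := fun i => by simp only [hg]; positivity
  set E : Ix → Set Ω := fun i => {ω | N < i.2.1 + i.2.2 ∧
    (1 + (i.2.1 + i.2.2 : ℕ) : ℝ) ^ 3 < |X i ω|} with hE
  have hsub : (ev X (Gr N))ᶜ ⊆ ⋃ i, E i := by
    intro ω hω
    simp only [ev, Gr, mem_compl_iff, mem_ofPred_eq, not_forall, not_le] at hω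
    obtain ⟨i, h1, h2⟩ := hω
    exact mem_iUnion.2 ⟨i, h1, h2⟩
  have hEi : ∀ i, P (E i) ≤ ENNReal.ofReal (g i) := by
    intro i
    by_cases hi : N < i.2.1 + i.2.2
    · set s := i.2.1 + i.2.2 with hs
      have hs0 := s.cast_nonneg (α := ℝ)
      have h1 : (((1 + (s:ℝ)) ^ 3) ^ 2) * P.real (E i) ≤ 1 := by
        have h2 := mul_meas_ge_le_integral_of_nonneg
          (ae_of_all P fun ω => sq_nonneg (X i ω)) (h.integrable_sq i) (((1 + (s:ℝ)) ^ 3) ^ 2)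
        have h3 : ∫ ω, X i ω ^ 2 ∂P = 1 := by
          have := h.integral_mul i i
          rw [if_pos rfl] at this
          rw [← this]
          simp only [sq]
        rw [h3] at h2
        refine le_trans (mul_le_mul_of_nonneg_left (measureReal_mono ?_) (by positivity)) h2
        intro ω hω
        have h4 : (1 + (s:ℝ)) ^ 3 < |X i ω| := hω.2
        simp only [mem_ofPred_eq]
        rw [← sq_abs (X i ω)]
        exact pow_le_pow_left₀ (by positivity) h4.le 2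
      rw [← ofReal_measureReal (μ := P) (s := E i)]
      refine ENNReal.ofReal_le_ofReal ?_
      have h5 : (1 + (N:ℝ)) ^ 2 * (((1:ℝ) + i.2.1) ^ 2 * (1 + i.2.2) ^ 2) ≤
          ((1 + (s:ℝ)) ^ 3) ^ 2 := by
        have e0 : (N:ℝ) ≤ s := by exact_mod_cast hi.le
        have e1 : (1:ℝ) + i.2.1 ≤ 1 + s := by
          rw [hs]; push_cast; linarith [i.2.2.cast_nonneg (α := ℝ)]
        have e2 : (1:ℝ) + i.2.2 ≤ 1 + s := by
          rw [hs]; push_cast; linarith [i.2.1.cast_nonneg (α := ℝ)]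
        calc _ ≤ (1 + (s:ℝ)) ^ 2 * ((1 + (s:ℝ)) ^ 2 * (1 + (s:ℝ)) ^ 2) := by gcongr
          _ = _ := by ring
      have h6 : g i = 1 / ((1 + (N:ℝ)) ^ 2 * (((1:ℝ) + i.2.1) ^ 2 * (1 + i.2.2) ^ 2)) := by
        simp only [hg]; rw [div_mul_div_comm, one_mul]
      rw [h6, le_div_iff₀ (by positivity)]
      calc _ ≤ P.real (E i) * (((1 + (s:ℝ)) ^ 3) ^ 2) :=
            mul_le_mul_of_nonneg_left h5 measureReal_nonneg
        _ ≤ 1 := by linarith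
    · have : E i = ∅ := by
        ext ω; simp only [hE, mem_ofPred_eq, mem_empty_iff_false, iff_false]
        exact fun h => hi h.1
      rw [this]; simp
  refine (measure_mono hsub).trans ((measure_iUnion_le _).trans ?_)
  refine (ENNReal.tsum_le_tsum hEi).trans ?_
  rw [ENNReal.tsum_eq_iSup_sum]
  refine iSup_le fun s => ?_
  rw [← ENNReal.ofReal_sum_of_nonneg fun i _ => hg0 i]
  refine ENNReal.ofReal_le_ofReal ?_
  set T := s.image Prod.snd with hT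
  obtain ⟨N', hN'⟩ : ∃ N', T ⊆ Finset.range N' ×ˢ Finset.range N' := by
    refine ⟨(T.sup fun q => q.1) + (T.sup fun q => q.2) + 1, fun q hq => ?_⟩
    have h1 : q.1 ≤ T.sup fun q => q.1 := Finset.le_sup (f := fun q : ℕ × ℕ => q.1) hq
    have h2 : q.2 ≤ T.sup fun q => q.2 := Finset.le_sup (f := fun q : ℕ × ℕ => q.2) hq
    rw [Finset.mem_product, Finset.mem_range, Finset.mem_range]
    omega
  have h1 : s ⊆ (Finset.univ : Finset (Fin 2)) ×ˢ T := fun i hi =>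
    Finset.mem_product.2 ⟨Finset.mem_univ _, Finset.mem_image_of_mem _ hi⟩
  calc ∑ i ∈ s, g i ≤ ∑ i ∈ (Finset.univ : Finset (Fin 2)) ×ˢ T, g i :=
        Finset.sum_le_sum_of_subset_of_nonneg h1 fun i _ _ => hg0 i
    _ = 2 * (1 / (1 + (N:ℝ)) ^ 2 * ∑ q ∈ T, 1 / (((1:ℝ) + q.1) ^ 2 * (1 + q.2) ^ 2)) := by
        rw [Finset.sum_product]
        simp only [hg, Finset.sum_const, Finset.card_univ, Fintype.card_fin, ← Finset.mul_sum]
        simp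
    _ ≤ 2 * (1 / (1 + (N:ℝ)) ^ 2 * 4) := by
        have := sum_pair_le hN'
        gcongr
    _ = _ := by ring

end Pool.Agent.K300
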