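import Pool.Agent.K300.Quarter

/-! A full turn: four quarter turns. -/

open Set Filter Topology

namespace Pool.Agent.K300

/-- a complete continuous flow in the plane -/
structure Fl (W : ℝ × ℝ → ℝ × ℝ) (φ : ℝ → ℝ × ℝ → ℝ × ℝ) : Prop where
  contW : Continuous W
  zero : ∀ p, φ 0 p = p
  deriv : ∀ p t, HasDerivAt (fun t => φ t p) (W (φ t p)) t
  add : ∀ t s p, φ (t + s) p = φ t (φ s p)
  joint : Continuous fun q : ℝ × (ℝ × ℝ) => φ q.1 q.2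

/-- continuity of a transversal hitting time -/
lemma continuousOn_hit {H : ℝ → ℝ → ℝ} {τ : ℝ → ℝ} {I : Set ℝ}
    (hH : Continuous fun q : ℝ × ℝ => H q.1 q.2) (hτ : ∀ b ∈ I, 0 < τ b)
    (hpos : ∀ b ∈ I, ∀ t, 0 ≤ t → t < τ b → 0 < H t b) (hz : ∀ b ∈ I, H (τ b) b = 0)
    (hd : ∀ b ∈ I, ∃ d, d < 0 ∧ HasDerivAt (fun t => H t b) d (τ b)) : ContinuousOn τ I := by
  intro b hb
  rw [Metric.continuousWithinAt_iff']
  intro ε hε
  obtain ⟨d, hd0, hd⟩ := hd b hb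
  -- upper bound
  have hup : ∀ᶠ b' in 𝓝[I] b, τ b' < τ b + ε := by
    have h1 : ∀ᶠ s in 𝓝[>] τ b, H s b < 0 := by
      filter_upwards [ev_right_lt hd hd0] with s hs
      rwa [hz b hb] at hs
    have h2 : ∀ᶠ s in 𝓝[>] τ b, s ∈ Ioo (τ b) (τ b + ε) := Ioo_mem_nhdsGT (by linarith)
    obtain ⟨s, hs1, hs2⟩ := (h1.and h2).exists
    have h3 : ∀ᶠ b' in 𝓝 b, H s b' < 0 :=
      (hH.comp (by fun_prop : Continuous fun b' : ℝ => (s, b'))).continuousAt.eventually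
        (gt_mem_nhds hs1)
    filter_upwards [nhdsWithin_le_nhds h3, self_mem_nhdsWithin] with b' h4 h5
    by_contra hc
    push Not at hc
    have h6 : s ≤ τ b' := hs2.2.le.trans hc
    rcases h6.lt_or_eq with h | h
    · exact absurd (hpos b' h5 s ((hτ b hb).le.trans hs2.1.le) h) (not_lt.2 h4.le)
    · have := hz b' h5
      rw [← h] at this
      linarith
  have hlow : ∀ᶠ b' in 𝓝[I] b, τ b - ε < τ b' := by
    have h1 : ∀ᶠ b' in 𝓝 b, ∀ t ∈ Icc 0 (τ b - ε), 0 < H t b' := by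
      refine isCompact_Icc.eventually_forall_of_forall_eventually fun t ht => ?_
      have h2 : 0 < H t b := hpos b hb t ht.1 (by linarith [ht.2])
      have h3 : Continuous fun q : ℝ × ℝ => H q.2 q.1 :=
        hH.comp (by fun_prop : Continuous fun q : ℝ × ℝ => (q.2, q.1))
      exact h3.continuousAt.eventually (lt_mem_nhds h2)
    filter_upwards [nhdsWithin_le_nhds h1, self_mem_nhdsWithin] with b' h4 h5
    by_contra hc
    push Not at hc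
    have := h4 (τ b') ⟨(hτ b' h5).le, hc⟩
    rw [hz b' h5] at this
    exact lt_irrefl _ this
  filter_upwards [hup, hlow] with b' h1 h2
  rw [Real.dist_eq, abs_lt]
  constructor <;> linarith

/-- rotation by a right angle -/
def rt (p : ℝ × ℝ) : ℝ × ℝ := (-p.2, p.1)

def rti (p : ℝ × ℝ) : ℝ × ℝ := (p.2, -p.1)

@[simp] lemma rt_rti (p : ℝ × ℝ) : rt (rti p) = p := by simp [rt, rti]
@[simp] lemma rti_rt (p : ℝ × ℝ) : rti (rt p) = p := by simp [rt, rti]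

lemma continuous_rt : Continuous rt := by unfold rt; fun_prop
lemma continuous_rti : Continuous rti := by unfold rti; fun_prop

def rotW (W : ℝ × ℝ → ℝ × ℝ) (p : ℝ × ℝ) : ℝ × ℝ := rt (W (rti p))

def rotF (φ : ℝ → ℝ × ℝ → ℝ × ℝ) (t : ℝ) (p : ℝ × ℝ) : ℝ × ℝ := rt (φ t (rti p))

lemma hasDerivAt_rt {z : ℝ → ℝ × ℝ} {v : ℝ × ℝ} {t : ℝ} (h : HasDerivAt z v t) :
    HasDerivAt (fun t => rt (z t)) (rt v) t := by
  have h1 := (ContinuousLinearMap.fst ℝ ℝ ℝ).hasFDerivAt.comp_hasDerivAt t h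
  have h2 := (ContinuousLinearMap.snd ℝ ℝ ℝ).hasFDerivAt.comp_hasDerivAt t h
  exact h2.neg.prodMk h1

lemma Fl.rot {W : ℝ × ℝ → ℝ × ℝ} {φ : ℝ → ℝ × ℝ → ℝ × ℝ} (h : Fl W φ) :
    Fl (rotW W) (rotF φ) where
  contW := continuous_rt.comp (h.contW.comp continuous_rti)
  zero p := by simp [rotF, h.zero]
  deriv p t := by
    have := hasDerivAt_rt (h.deriv (rti p) t)
    simp only [rotW, rotF, rti_rt]
    exact this
  add t s p := by simp only [rotF, rti_rt, h.add]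
  joint := continuous_rt.comp (h.joint.comp
    (continuous_fst.prodMk (continuous_rti.comp continuous_snd)))

/-- the conclusion of one stage -/
structure Stage (φ : ℝ → ℝ × ℝ → ℝ × ℝ) (a₁ a₃ b₁ b₂ : ℝ) (τ c : ℝ → ℝ) : Prop where
  contT : ContinuousOn τ (Icc b₁ b₂)
  contC : ContinuousOn c (Icc b₁ b₂)
  pos : ∀ b ∈ Icc b₁ b₂, 0 < τ b
  mem : ∀ b ∈ Icc b₁ b₂, c b ∈ Ioo a₁ a₃
  hit : ∀ b ∈ Icc b₁ b₂, φ (τ b) (0, b) = (c b, 0)
  quad : ∀ b ∈ Icc b₁ b₂, ∀ t, 0 < t → t < τ b → 0 < (φ t (0, b)).1 ∧ 0 < (φ t (0, b)).2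
  stay : ∀ b ∈ Icc b₁ b₂, ∀ t, 0 ≤ t → t ≤ τ b → φ t (0, b) ∈ reg a₁ a₃ b₁ b₂

theorem exists_stage {W : ℝ × ℝ → ℝ × ℝ} {φ : ℝ → ℝ × ℝ → ℝ × ℝ} (h : Fl W φ)
    {a₁ a₂ a₃ b₀ b₁ b₂ : ℝ} (hQ : Quad W a₁ a₂ a₃ b₀ b₁ b₂) :
    ∃ τ c, Stage φ a₁ a₃ b₁ b₂ τ c := by
  have key := fun b (hb : b ∈ Icc b₁ b₂) =>
    hQ.quarter h.contW (z := fun t => φ t (0, b)) (fun t => h.deriv (0, b) t) hb (h.zero _)
  choose! τ c h1 h2 h3 h4 h5 h6 h7 h8 using key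
  have hj : Continuous fun q : ℝ × ℝ => φ q.1 (0, q.2) :=
    h.joint.comp (by fun_prop : Continuous fun q : ℝ × ℝ => (q.1, ((0:ℝ), q.2)))
  have hτ : ContinuousOn τ (Icc b₁ b₂) := by
    refine continuousOn_hit (H := fun t b => (φ t (0, b)).2) (continuous_snd.comp hj) h1 h5
      (fun b hb => by simp only [h4 b hb]) fun b hb => ⟨_, h8 b hb, ?_⟩
    have := hasDerivAt_snd (fun t => h.deriv (0, b) t) (τ b)
    simp only [h4 b hb] at this
    exact this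
  have hc : ContinuousOn c (Icc b₁ b₂) := by
    have h9 : ContinuousOn (fun b => (φ (τ b) (0, b)).1) (Icc b₁ b₂) :=
      (continuous_fst.comp hj).comp_continuousOn (hτ.prodMk continuousOn_id)
    exact h9.congr fun b hb => by simp only [h4 b hb]
  exact ⟨τ, c, hτ, hc, h1, fun b hb => ⟨h2 b hb, h3 b hb⟩, h4,
    fun b hb t ht ht2 => ⟨h6 b hb t ht ht2.le, h5 b hb t ht.le ht2⟩, h7⟩

/-- being on the positive vertical half axis -/
def OnY (p : ℝ × ℝ) : Prop := p.1 = 0 ∧ 0 < p.2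

/-- a full turn -/
structure Turn (φ : ℝ → ℝ × ℝ → ℝ × ℝ) (l₃ d₃ r₃ u₁ u₃ : ℝ) (T g : ℝ → ℝ) : Prop where
  contT : ContinuousOn T (Icc u₁ u₃)
  contG : ContinuousOn g (Icc u₁ u₃)
  pos : ∀ b ∈ Icc u₁ u₃, 0 < T b
  mem : ∀ b ∈ Icc u₁ u₃, g b ∈ Ioo u₁ u₃
  hit : ∀ b ∈ Icc u₁ u₃, φ (T b) (0, b) = (0, g b)
  first : ∀ b ∈ Icc u₁ u₃, ∀ t, 0 < t → t < T b → ¬ OnY (φ t (0, b))
  stay : ∀ b ∈ Icc u₁ u₃, ∀ t, 0 ≤ t → t ≤ T b → φ t (0, b) ∈ Icc (-l₃, -d₃) (r₃, u₃)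

theorem exists_turn {W : ℝ × ℝ → ℝ × ℝ} {φ : ℝ → ℝ × ℝ → ℝ × ℝ} (h : Fl W φ)
    {r₀ r₁ r₂ r₃ d₀ d₁ d₂ d₃ l₀ l₁ l₂ l₃ u₀ u₁ u₂ u₃ : ℝ}
    (q1 : Quad W r₁ r₂ r₃ u₀ u₁ u₃)
    (q2 : Quad (rotW W) d₁ d₂ d₃ r₀ r₁ r₃)
    (q3 : Quad (rotW (rotW W)) l₁ l₂ l₃ d₀ d₁ d₃)
    (q4 : Quad (rotW (rotW (rotW W))) u₁ u₂ u₃ l₀ l₁ l₃) :
    ∃ T g, Turn φ l₃ d₃ r₃ u₁ u₃ T g := by
  obtain ⟨τ₁, c₁, s1⟩ := exists_stage h q1
  obtain ⟨τ₂, c₂, s2⟩ := exists_stage h.rot q2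
  obtain ⟨τ₃, c₃, s3⟩ := exists_stage h.rot.rot q3
  obtain ⟨τ₄, c₄, s4⟩ := exists_stage h.rot.rot.rot q4
  have m1 : MapsTo c₁ (Icc u₁ u₃) (Icc r₁ r₃) := fun b hb => Ioo_subset_Icc_self (s1.mem b hb)
  have m2 : MapsTo c₂ (Icc r₁ r₃) (Icc d₁ d₃) := fun b hb => Ioo_subset_Icc_self (s2.mem b hb)
  have m3 : MapsTo c₃ (Icc d₁ d₃) (Icc l₁ l₃) := fun b hb => Ioo_subset_Icc_self (s3.mem b hb)
  have k1 : ContinuousOn c₁ (Icc u₁ u₃) := s1.contC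
  have k2 : ContinuousOn (fun b => c₂ (c₁ b)) (Icc u₁ u₃) := s2.contC.comp k1 m1
  have k3 : ContinuousOn (fun b => c₃ (c₂ (c₁ b))) (Icc u₁ u₃) := s3.contC.comp k2 (m2.comp m1)
  have k4 : ContinuousOn (fun b => c₄ (c₃ (c₂ (c₁ b)))) (Icc u₁ u₃) :=
    s4.contC.comp k3 (m3.comp (m2.comp m1))
  have t2 : ContinuousOn (fun b => τ₂ (c₁ b)) (Icc u₁ u₃) := s2.contT.comp k1 m1
  have t3 : ContinuousOn (fun b => τ₃ (c₂ (c₁ b))) (Icc u₁ u₃) := s3.contT.comp k2 (m2.comp m1)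
  have t4 : ContinuousOn (fun b => τ₄ (c₃ (c₂ (c₁ b)))) (Icc u₁ u₃) :=
    s4.contT.comp k3 (m3.comp (m2.comp m1))
  -- the flow in each quadrant, in the original coordinates
  have e2 : ∀ t c, rotF φ t (0, c) = rt (φ t (c, 0)) := by
    intro t c; simp [rotF, rti]
  have e3 : ∀ t c, rotF (rotF φ) t (0, c) = rt (rt (φ t (0, -c))) := by
    intro t c; simp [rotF, rti]
  have e4 : ∀ t c, rotF (rotF (rotF φ)) t (0, c) = rt (rt (rt (φ t (-c, 0)))) := by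
    intro t c; simp [rotF, rti]
  refine ⟨fun b => τ₁ b + τ₂ (c₁ b) + τ₃ (c₂ (c₁ b)) + τ₄ (c₃ (c₂ (c₁ b))),
    fun b => c₄ (c₃ (c₂ (c₁ b))), ((s1.contT.add t2).add t3).add t4, k4, ?_, ?_, ?_, ?_, ?_⟩
  · intro b hb
    have p1 := s1.pos b hb
    have p2 := s2.pos _ (m1 hb)
    have p3 := s3.pos _ (m2 (m1 hb))
    have p4 := s4.pos _ (m3 (m2 (m1 hb)))
    positivity
  · intro b hb
    exact s4.mem _ (m3 (m2 (m1 hb)))
  all_goals
    intro b hb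
    have p1 := s1.pos b hb
    have p2 := s2.pos _ (m1 hb)
    have p3 := s3.pos _ (m2 (m1 hb))
    have p4 := s4.pos _ (m3 (m2 (m1 hb)))
    have z1 := s1.hit b hb
    have z2 := s2.hit _ (m1 hb)
    have z3 := s3.hit _ (m2 (m1 hb))
    have z4 := s4.hit _ (m3 (m2 (m1 hb)))
    have i1 := s1.mem b hb
    have i2 := s2.mem _ (m1 hb)
    have i3 := s3.mem _ (m2 (m1 hb))
    have i4 := s4.mem _ (m3 (m2 (m1 hb)))
    set x₁ := c₁ b with hx1
    set x₂ := c₂ x₁ with hx2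
    set x₃ := c₃ x₂ with hx3
    set x₄ := c₄ x₃ with hx4
    rw [e2] at z2
    rw [e3] at z3
    rw [e4] at z4
    have z2' : φ (τ₂ x₁) (x₁, 0) = (0, -x₂) := by
      rw [← rti_rt (φ (τ₂ x₁) (x₁, 0)), z2]
      simp [rti]
    have z3' : φ (τ₃ x₂) (0, -x₂) = (-x₃, 0) := by
      rw [← rti_rt (φ (τ₃ x₂) (0, -x₂)), ← rti_rt (rt (φ (τ₃ x₂) (0, -x₂))), z3]
      simp [rti]
    have z4' : φ (τ₄ x₃) (-x₃, 0) = (0, x₄) := by
      rw [← rti_rt (φ (τ₄ x₃) (-x₃, 0)), ← rti_rt (rt (φ (τ₄ x₃) (-x₃, 0))),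
        ← rti_rt (rt (rt (φ (τ₄ x₃) (-x₃, 0)))), z4]
      simp [rti]
    have f1 : ∀ t, φ (t + τ₁ b) (0, b) = φ t (x₁, 0) := fun t => by rw [h.add, z1]
    have f2 : ∀ t, φ (t + (τ₁ b + τ₂ x₁)) (0, b) = φ t (0, -x₂) := fun t => by
      rw [h.add, add_comm (τ₁ b), f1, z2']
    have f3 : ∀ t, φ (t + (τ₁ b + τ₂ x₁ + τ₃ x₂)) (0, b) = φ t (-x₃, 0) := fun t => by
      rw [h.add, add_comm (τ₁ b + τ₂ x₁), f2, z3']
  · rw [add_comm (τ₁ b + τ₂ x₁ + τ₃ x₂), f3, z4']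
  · intro t ht0 ht1 hon
    have hr1 := q1.ha1
    have hr2 := q2.ha1
    have hr3 := q3.ha1
    by_cases g1 : t < τ₁ b
    · exact absurd hon.1 (s1.quad b hb t ht0 g1).1.ne'
    rcases eq_or_lt_of_le (not_lt.1 g1) with g1 | g1
    · rw [← g1, z1] at hon
      have := hon.1
      simp only at this
      linarith [i1.1]
    by_cases g2 : t < τ₁ b + τ₂ x₁
    · have := s2.quad _ (m1 hb) (t - τ₁ b) (by linarith) (by linarith)
      rw [e2, ← f1, sub_add_cancel] at this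
      exact absurd hon.1 this.2.ne'
    rcases eq_or_lt_of_le (not_lt.1 g2) with g2 | g2
    · have h9 : φ t (0, b) = (0, -x₂) := by
        have := f2 0
        rwa [zero_add, g2, h.zero] at this
      rw [h9] at hon
      have := hon.2
      simp only at this
      linarith [i2.1]
    by_cases g3 : t < τ₁ b + τ₂ x₁ + τ₃ x₂
    · have := s3.quad _ (m2 (m1 hb)) (t - (τ₁ b + τ₂ x₁)) (by linarith) (by linarith)
      rw [e3, ← f2, sub_add_cancel] at this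
      have h9 := this.1
      simp only [rt] at h9
      have := hon.1
      linarith
    rcases eq_or_lt_of_le (not_lt.1 g3) with g3 | g3
    · have h9 : φ t (0, b) = (-x₃, 0) := by
        have := f3 0
        rwa [zero_add, g3, h.zero] at this
      rw [h9] at hon
      have := hon.1
      simp only at this
      linarith [i3.1]
    · have := s4.quad _ (m3 (m2 (m1 hb))) (t - (τ₁ b + τ₂ x₁ + τ₃ x₂)) (by linarith) (by linarith)
      rw [e4, ← f3, sub_add_cancel] at this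
      have h9 := this.2
      simp only [rt] at h9
      have := hon.1
      linarith
  · intro t ht0 ht1
    have b1 := q1.ha1.trans (q1.ha12.trans q1.ha23)
    have b2 := q2.ha1.trans (q2.ha12.trans q2.ha23)
    have b3 := q3.ha1.trans (q3.ha12.trans q3.ha23)
    have b4 := q4.ha1.trans (q4.ha12.trans q4.ha23)
    by_cases g1 : t ≤ τ₁ b
    · obtain ⟨w1, w2, w3, w4, -⟩ := s1.stay b hb t ht0 g1
      exact ⟨⟨by simp only; linarith, by simp only; linarith⟩, ⟨w2, w4⟩⟩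
    by_cases g2 : t ≤ τ₁ b + τ₂ x₁
    · have := s2.stay _ (m1 hb) (t - τ₁ b) (by linarith) (by linarith)
      rw [e2, ← f1, sub_add_cancel] at this
      obtain ⟨w1, w2, w3, w4, -⟩ := this
      simp only [rt] at w1 w2 w3 w4
      exact ⟨⟨by simp only; linarith, by simp only; linarith⟩,
        ⟨by simp only; linarith, by simp only; linarith⟩⟩
    by_cases g3 : t ≤ τ₁ b + τ₂ x₁ + τ₃ x₂
    · have := s3.stay _ (m2 (m1 hb)) (t - (τ₁ b + τ₂ x₁)) (by linarith) (by linarith)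
      rw [e3, ← f2, sub_add_cancel] at this
      obtain ⟨w1, w2, w3, w4, -⟩ := this
      simp only [rt] at w1 w2 w3 w4
      exact ⟨⟨by simp only; linarith, by simp only; linarith⟩,
        ⟨by simp only; linarith, by simp only; linarith⟩⟩
    · have := s4.stay _ (m3 (m2 (m1 hb))) (t - (τ₁ b + τ₂ x₁ + τ₃ x₂)) (by linarith)
        (by linarith)
      rw [e4, ← f3, sub_add_cancel] at this
      obtain ⟨w1, w2, w3, w4, -⟩ := this
      simp only [rt] at w1 w2 w3 w4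
      exact ⟨⟨by simp only; linarith, by simp only; linarith⟩,
        ⟨by simp only; linarith, by simp only; linarith⟩⟩

end Pool.Agent.K300
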